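import Pool.Agent.H155Z.DTCore

set_option linter.unusedSectionVars false

open Set

namespace Pool.Agent.H155Z.DT

abbrev Vx (S : Type) := Bool → S × Option Bool
abbrev Cell (S : Type) := Bool → Vx S

def dir (d : Bool) : ℤ := if d then 1 else -1

lemma dir_sq (d : Bool) (t : ℤ) : dir d * (dir d * t) = t := by cases d <;> simp [dir]
lemma dir_not (d : Bool) : dir (!d) = -dir d := by cases d <;> simp [dir]
lemma abs_dir (d : Bool) (t : ℤ) : |dir d * t| = |t| := by cases d <;> simp [dir]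

variable {X S : Type} [TopologicalSpace X]

/-- A system of involutions that simulates a head walking on a two-lane tape. -/
structure Tape (s : S → (X ≃ₜ X)) (E : Bool → (ℤ → Cell S) → X) : Prop where
  cont : ∀ l x (O : Set X), IsOpen O → E l x ∈ O →
    ∃ K : ℕ, ∀ x', (∀ i : ℤ, |i| ≤ K → x' i = x i) → E l x' ∈ O
  lat : ∀ (x : ℤ → Cell S) l l' d a, x 0 l d = (a, some l') → (x 0 l (!d)).1 ≠ a →
    x (dir d) l' (!d) = (a, some l) → (x (dir d) l' d).1 ≠ a → s a (E l x) = E l' (sh x (dir d))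
  wall : ∀ (x : ℤ → Cell S) l d a, x 0 l d = (a, none) → (x 0 l (!d)).1 ≠ a →
    x 0 (!l) d = (a, none) → (x 0 (!l) (!d)).1 ≠ a → s a (E l x) = E (!l) x

/-- Vertex on lane `l` with incoming label `a` and outgoing label `b` in direction `d`. -/
def vx (l d : Bool) (a b : S) : Vx S := fun side => if side = d then (b, some l) else (a, some l)

@[simp] lemma vx_out (l d : Bool) (a b : S) : vx l d a b d = (b, some l) := by simp [vx]
@[simp] lemma vx_in (l d : Bool) (a b : S) : vx l d a b (!d) = (a, some l) := by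
  cases d <;> simp [vx]

def lane (l d : Bool) (lam : ℤ → S) : ℤ → Vx S :=
  fun i => vx l d (lam (dir d * i - 1)) (lam (dir d * i))

def mk2 (l : Bool) (a b : ℤ → Vx S) : ℤ → Cell S := fun i l' => if l' = l then a i else b i

def Per (β : ℤ → Vx S) : Prop := ∃ M : ℕ, 0 < M ∧ ∀ i, β (i + M) = β i

lemma per_int {T : Type} {β : ℤ → T} {M : ℕ} (h : ∀ i, β (i + M) = β i) (k : ℤ) (i : ℤ) :
    β (i + k * M) = β i := by
  have hp : Function.Periodic β (M : ℤ) := h
  exact hp.int_mul k i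

variable {s : S → (X ≃ₜ X)} {E : Bool → (ℤ → Cell S) → X}

lemma Tape.run (T : Tape s E) (x : ℤ → Cell S) (l d : Bool) (j : ℤ) {lam : ℤ → S} (hr : Red lam)
    (h1 : ∀ t : ℕ, x (j + dir d * t) l d = (lam t, some l))
    (h2 : (x j l (!d)).1 ≠ lam 0)
    (h3 : ∀ t : ℕ, x (j + dir d * (t + 1)) l (!d) = (lam t, some l)) (m : ℕ) :
    P s lam m (E l (sh x j)) = E l (sh x (j + dir d * m)) := by
  induction m with
  | zero => simp [P]
  | succ m ih =>
    rw [P, Homeomorph.mul_apply, ih, T.lat _ l l d (lam m)]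
    · congr 1; funext i; simp only [sh]; congr 1; push_cast; ring
    · simp only [sh, zero_add]; exact h1 m
    · simp only [sh, zero_add]
      cases m with
      | zero => simpa using h2
      | succ m =>
        have := h3 m
        push_cast
        rw [this]; exact hr m
    · simp only [sh]
      rw [← h3 m]; congr 1; ring
    · simp only [sh]
      have := h1 (m + 1)
      push_cast at this
      rw [show dir d + (j + dir d * m) = j + dir d * (m + 1) by ring, this]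
      exact (hr m).symm

lemma Tape.run' (T : Tape s E) (x : ℤ → Cell S) (l d : Bool) (j : ℤ) {lam : ℤ → S} (hr : Red lam)
    (h : ∀ t : ℕ, x (j + dir d * t) l = vx l d (lam (t - 1)) (lam t)) (m : ℕ) :
    P s lam m (E l (sh x j)) = E l (sh x (j + dir d * m)) := by
  apply T.run x l d j hr
  · intro t; rw [h t, vx_out]
  · have := h 0
    simp only [Nat.cast_zero, mul_zero, add_zero] at this
    rw [this, vx_in]
    have := hr (0 - 1)
    simpa using this
  · intro t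
    have := h (t + 1)
    push_cast at this
    rw [this, vx_in]; simp

lemma Tape.key (T : Tape s E) (x : ℤ → Cell S) (l d : Bool) (j : ℤ) {lam : ℤ → S} (hr : Red lam)
    {N : ℕ} (hN : 0 < N) (hp : ∀ t, lam (t + N) = lam t) {O O' : Set X} (pp : PP (P s lam N) O O')
    {β : ℤ → Vx S} (hβ : Per β) (hO : E l (mk2 l (lane l d lam) β) ∈ O)
    (h : ∀ t : ℕ, x (j + dir d * t) l = vx l d (lam (t - 1)) (lam t))
    (T₀ : ℕ) (h' : ∀ t : ℕ, T₀ ≤ t → x (j + dir d * t) (!l) = β (dir d * t)) :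
    E l (sh x j) ∈ O := by
  obtain ⟨M, hM, hβ⟩ := hβ
  obtain ⟨K, hK⟩ := T.cont _ _ O pp.oU hO
  apply pp.mem_of_pow ((K + T₀) * M)
  rw [← P_mul s hp, T.run' x l d j hr h]
  apply hK
  intro i hi
  have hb : K + T₀ ≤ (K + T₀) * M * N := by
    calc K + T₀ = (K + T₀) * 1 * 1 := by ring
      _ ≤ (K + T₀) * M * N := by gcongr <;> omega
  have hi' : |dir d * i| ≤ K := by rwa [abs_dir]
  have hi2 := abs_le.1 hi'
  obtain ⟨t, ht⟩ : ∃ t : ℕ, (t : ℤ) = dir d * i + (((K + T₀) * M * N : ℕ) : ℤ) :=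
    ⟨(dir d * i + (((K + T₀) * M * N : ℕ) : ℤ)).toNat, Int.toNat_of_nonneg (by omega)⟩
  have hT : T₀ ≤ t := by omega
  have e : i + (j + dir d * (((K + T₀) * M * N : ℕ) : ℤ)) = j + dir d * t := by
    rw [ht, mul_add, dir_sq]; ring
  funext l'
  simp only [sh, mk2]
  rw [e]
  by_cases hl : l' = l
  · subst hl
    rw [if_pos rfl, h t, lane, ht]
    congr 1
    · rw [← per_int hp (((K + T₀) * M : ℕ) : ℤ) (dir d * i - 1)]; congr 1; push_cast; ring
    · rw [← per_int hp (((K + T₀) * M : ℕ) : ℤ) (dir d * i)]; congr 1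
  · have : l' = !l := by cases l <;> cases l' <;> simp_all
    rw [if_neg hl, this, h' t hT, ht, mul_add, dir_sq,
      ← per_int hβ (dir d * ((K + T₀) * N : ℕ)) i]
    congr 1; push_cast; ring

lemma Tape.dich (T : Tape s E) (l : Bool) {ω : ℤ → S} (hr : Red ω)
    {N : ℕ} (hN : 0 < N) (hp : ∀ t, ω (t + N) = ω t) {U V : Set X} (pp : PP (P s ω N) U V)
    {β : ℤ → Vx S} (hβ : Per β) :
    E l (mk2 l (lane l true ω) β) ∈ U ∨ E l (mk2 l (lane l false fun t => ω (-1 - t)) β) ∈ V := by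
  obtain ⟨M, hM, hβ⟩ := hβ
  have e : (lane l false fun t => ω (-1 - t)) = lane l true ω := by
    funext i side
    cases side <;> simp [lane, vx, dir] <;> congr 1 <;> ring
  rw [e]
  have h0 : ∀ y : ℤ → Cell S, sh y 0 = y := fun y => by funext i; simp [sh]
  apply pp.per (M := M) hM
  rw [← P_mul s hp, ← h0 (mk2 l (lane l true ω) β), T.run' _ l true 0 hr]
  · congr 1
    funext i l'
    simp only [sh, mk2, dir, if_true, one_mul, zero_add, add_zero, lane]
    by_cases hl : l' = l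
    · rw [if_pos hl, if_pos hl]
      congr 1
      · rw [← per_int hp (M : ℤ) (i - 1)]; congr 1; push_cast; ring
      · rw [← per_int hp (M : ℤ) i]; congr 1
    · rw [if_neg hl, if_neg hl, ← per_int hβ (N : ℤ) i]; congr 1; push_cast; ring
  · intro t; simp [mk2, lane, dir]

lemma P_per {G : Type} [Group G] (s : S → G) {ω : ℤ → S} {N : ℕ} (h : ∀ t, ω (t + N) = ω t)
    (j k : ℕ) : P s ω (j + k * N) = P s ω j * P s ω N ^ k := by
  rw [Nat.add_comm, P_add, P_mul s h]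
  congr 2
  funext t; exact per_mul h k t

lemma Tape.main (T : Tape s E) (hs : ∀ a, s a * s a = 1) (d₁ d₂ : Bool) {l₁ l₂ : ℤ → S}
    (r₁ : Red l₁) (r₂ : Red l₂) {N₁ N₂ : ℕ} (n₁ : 0 < N₁) (n₂ : 0 < N₂)
    (p₁ : ∀ t, l₁ (t + N₁) = l₁ t) (p₂ : ∀ t, l₂ (t + N₂) = l₂ t)
    {O₁ O₁' O₂ O₂' : Set X} (q₁ : PP (P s l₁ N₁) O₁ O₁') (q₂ : PP (P s l₂ N₂) O₂ O₂')
    {e : X ≃ₜ X} (he : e ∈ Subgroup.closure (range s))
    (H₁ : ∀ β₀, Per β₀ → ∃ β, Per β ∧ E true (mk2 true (lane true d₁ l₁) β) ∈ O₁ ∧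
      (d₁ = d₂ → β = β₀))
    (H₂ : ∀ β₀, Per β₀ → ∃ β, Per β ∧ E false (mk2 false (lane false d₂ l₂) β) ∈ O₂ ∧
      (d₁ = d₂ → β = β₀)) :
    ∃ z, z ∈ O₁ ∪ O₁' ∧ e z ∈ O₂ ∪ O₂' := by
  classical
  obtain ⟨α, i, i', hα, ht, hP⟩ := ray_translate s hs he r₁
  have hP' : ∀ r : ℕ, P s α (i' + r) * e = P s l₁ (i + r) := by
    intro r
    rw [P_add, P_add, mul_assoc, hP]
    congr 1
    apply P_congr; intro t _
    simp only [sh]; rw [add_comm, ht t, add_comm]
  by_cases hall : ∀ t : ℕ, α t = l₂ t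
  · have e1 : ∀ n, P s α n = P s l₂ n := fun n => P_congr s n fun t _ => hall t
    have e2 : P s l₂ N₂ ^ N₁ * e = e * P s l₁ N₁ ^ N₂ := by
      have a1 := hP' (N₁ * N₂)
      rw [e1, P_per s p₂, Nat.mul_comm N₁ N₂, P_per s p₁, ← hP, e1, mul_assoc, mul_assoc] at a1
      exact mul_left_cancel a1
    have fin : ∀ z, z ∉ O₁ → e z ∉ O₂ → ∃ z, z ∈ O₁ ∪ O₁' ∧ e z ∈ O₂ ∪ O₂' := by
      intro z a b
      obtain ⟨n, rfl⟩ : ∃ n, N₁ = n + 1 := ⟨N₁ - 1, by omega⟩
      obtain ⟨m, rfl⟩ : ∃ n, N₂ = n + 1 := ⟨N₂ - 1, by omega⟩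
      refine ⟨_, Or.inr (q₁.pow_mem a m), Or.inr ?_⟩
      rw [← Homeomorph.mul_apply, ← e2, Homeomorph.mul_apply]
      exact q₂.pow_mem b n
    set y := E true (fun _ _ _ => (l₁ 0, none))
    by_cases a : y ∈ O₁
    · by_cases b : e y ∈ O₂
      · exact ⟨y, Or.inl a, Or.inl b⟩
      · have c := q₂.map _ b
        by_cases a' : e.symm (P s l₂ N₂ (e y)) ∈ O₁
        · exact ⟨_, Or.inl a', Or.inr (by simpa using c)⟩
        · exact fin _ a' (by simpa using fun h => q₂.dis _ h c)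
    · have c := q₁.map _ a
      by_cases b : e (P s l₁ N₁ y) ∈ O₂
      · exact ⟨_, Or.inr c, Or.inl b⟩
      · exact fin _ (fun h => q₁.dis _ h c) b
  push Not at hall
  set k := Nat.find hall with hk
  have hk1 : α k ≠ l₂ k := Nat.find_spec hall
  have hk2 : P s α k = P s l₂ k := P_congr s k fun t ht => by
    by_contra hc; exact Nat.find_min hall ht hc
  clear_value k
  obtain ⟨ρ₁, hρ₁⟩ : ∃ r : ℕ, i + (r + 1) = (i + k + 1) * N₁ ∧ k ≤ r := by
    have : i + k + 1 ≤ (i + k + 1) * N₁ := Nat.le_mul_of_pos_right _ n₁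
    exact ⟨(i + k + 1) * N₁ - i - 1, by omega, by omega⟩
  obtain ⟨m₁, hm₁⟩ : ∃ m : ℕ, k + (m + 1) = i' + (ρ₁ + 1) := ⟨i' + ρ₁ - k, by omega⟩
  obtain ⟨m₂, hm₂⟩ : ∃ m : ℕ, k + (m + 2) = (k + 2) * N₂ := by
    have : k + 2 ≤ (k + 2) * N₂ := Nat.le_mul_of_pos_right _ n₂
    exact ⟨(k + 2) * N₂ - k - 2, by omega⟩
  set γ := sh α k with hγ
  set δ := sh l₂ k with hδ
  have rγ : Red γ := hα.sh k
  have rδ : Red δ := r₂.sh k
  have hγδ : γ 0 ≠ δ 0 := by simpa [hγ, hδ, sh] using hk1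
  set κ : ℤ := if d₁ = d₂ then 0 else dir d₂ with hκ
  set j₁ : ℤ := dir d₁ * ((m₁ + 1 : ℕ) : ℤ) with hj₁
  set j₂ : ℤ := κ + dir d₂ * ((m₂ + 1 : ℕ) : ℤ) with hj₂
  obtain ⟨β₁, b₁, o₁, c₁⟩ := H₁ (fun u => vx false d₂ (l₂ (k + m₁ + 1 + dir d₂ * u))
    (l₂ (k + m₁ + 2 + dir d₂ * u))) ⟨N₂, n₂, fun u => by
      beta_reduce
      congr 1
      · rw [← per_int p₂ (dir d₂) (k + m₁ + 1 + dir d₂ * u)]; congr 1; ring
      · rw [← per_int p₂ (dir d₂) (k + m₁ + 2 + dir d₂ * u)]; congr 1; ring⟩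
  obtain ⟨β₂, b₂, o₂, c₂⟩ := H₂ (fun u => vx true d₁ (l₁ (i + k + m₂ - i' + dir d₁ * u))
    (l₁ (i + k + m₂ + 1 - i' + dir d₁ * u))) ⟨N₁, n₁, fun u => by
      beta_reduce
      congr 1
      · rw [← per_int p₁ (dir d₁) (i + k + m₂ - i' + dir d₁ * u)]; congr 1; ring
      · rw [← per_int p₁ (dir d₁) (i + k + m₂ + 1 - i' + dir d₁ * u)]; congr 1; ring⟩
  set sp₁ : Vx S := fun side => if side = d₁ then (γ 0, some true)
    else (δ 0, if d₁ = d₂ then none else some false) with hsp₁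
  set sp₂ : Vx S := fun side => if side = d₂ then (δ 1, some false)
    else (δ 0, if d₁ = d₂ then none else some true) with hsp₂
  set top : ℤ → Vx S := fun u => if 0 < dir d₁ * u then
    vx true d₁ (γ (dir d₁ * u - 1)) (γ (dir d₁ * u)) else if u = 0 then sp₁ else β₂ (u - j₂)
    with htop
  set bot : ℤ → Vx S := fun u => if 0 < dir d₂ * (u - κ) then
    vx false d₂ (δ (dir d₂ * (u - κ))) (δ (dir d₂ * (u - κ) + 1))
    else if u = κ then sp₂ else β₁ (u - j₁) with hbot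
  set x : ℤ → Cell S := mk2 true top bot with hx
  have xt : ∀ u, x u true = top u := fun u => by simp [hx, mk2]
  have xb : ∀ u, x u false = bot u := fun u => by simp [hx, mk2]
  have top0 : top 0 = sp₁ := by simp [htop]
  have botκ : bot κ = sp₂ := by simp [hbot]
  have topp : ∀ t : ℤ, 0 < t → top (dir d₁ * t) = vx true d₁ (γ (t - 1)) (γ t) := by
    intro t h; simp only [htop, dir_sq]; rw [if_pos h]
  have botp : ∀ t : ℤ, 0 < t → bot (κ + dir d₂ * t) = vx false d₂ (δ t) (δ (t + 1)) := by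
    intro t h; simp only [hbot, add_sub_cancel_left, dir_sq]; rw [if_pos h]
  have h0 : sh x 0 = x := by funext u; simp [sh]
  have run₁ : P s γ (m₁ + 1) (E true x) = E true (sh x j₁) := by
    have := T.run x true d₁ 0 rγ ?_ ?_ ?_ (m₁ + 1)
    · rw [h0, zero_add] at this; exact this
    · intro t
      rw [xt, zero_add]
      cases t with
      | zero => simp [top0, hsp₁]
      | succ t => rw [topp _ (by push_cast; omega), vx_out]
    · rw [xt, top0]
      have : (!d₁) ≠ d₁ := by cases d₁ <;> simp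
      simp only [hsp₁, if_neg this]; exact hγδ.symm
    · intro t
      rw [xt, zero_add, topp _ (by omega), vx_in]; simp
  have step : s (δ 0) (E true x) = E false (sh x κ) := by
    have n1 : (!d₁) ≠ d₁ := by cases d₁ <;> simp
    have n2 : (!d₂) ≠ d₂ := by cases d₂ <;> simp
    by_cases hd : d₁ = d₂
    · have hκ0 : κ = 0 := by simp [hκ, hd]
      rw [hκ0] at botκ ⊢
      rw [h0]
      refine T.wall x true (!d₁) (δ 0) ?_ ?_ ?_ ?_
      · rw [xt, top0]; simp only [hsp₁, if_neg n1, if_pos hd]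
      · rw [xt, top0, Bool.not_not]; simp only [hsp₁, if_true]; exact hγδ
      · rw [Bool.not_true, xb, botκ, hd]; simp only [hsp₂, if_neg n2, if_pos hd]
      · rw [Bool.not_true, xb, botκ, hd, Bool.not_not]; simp only [hsp₂, if_true]
        exact (rδ 0).symm
    · have hκ0 : κ = dir d₂ := by simp [hκ, hd]
      have hd' : (!d₂) = d₁ := by cases d₁ <;> cases d₂ <;> simp_all
      rw [hκ0] at botκ ⊢
      refine T.lat x true false d₂ (δ 0) ?_ ?_ ?_ ?_
      · rw [xt, top0]; simp only [hsp₁, if_neg (Ne.symm hd), if_neg hd]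
      · rw [xt, top0, hd']; simp only [hsp₁, if_true]; exact hγδ
      · rw [xb, botκ]; simp only [hsp₂, if_neg n2, if_neg hd]
      · rw [xb, botκ]; simp only [hsp₂, if_true]; exact (rδ 0).symm
  have run₂ : P s δ (m₂ + 2) (E true x) = E false (sh x j₂) := by
    rw [P_succ', Homeomorph.mul_apply, step]
    refine T.run x false d₂ κ (rδ.sh 1) ?_ ?_ ?_ (m₂ + 1)
    · intro t
      rw [xb]
      cases t with
      | zero => simp [botκ, hsp₂, sh]
      | succ t => rw [botp _ (by push_cast; omega), vx_out]; rfl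
    · rw [xb, botκ]
      have : (!d₂) ≠ d₂ := by cases d₂ <;> simp
      simp only [hsp₂, if_neg this, sh]; exact rδ 0
    · intro t
      rw [xb, botp _ (by omega), vx_in]; rfl
  have gγ : ∀ t : ℤ, -1 ≤ t → γ (((m₁ + 1 : ℕ) : ℤ) + t) = l₁ t := by
    intro t h
    obtain ⟨u, hu⟩ : ∃ u : ℕ, (u : ℤ) = t + 1 := ⟨(t + 1).toNat, Int.toNat_of_nonneg (by omega)⟩
    have a1 := ht (ρ₁ + u)
    have a2 := per_mul p₁ (i + k + 1) t
    rw [← hρ₁.1] at a2
    simp only [hγ, sh]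
    rw [← a2, show t + ((i + (ρ₁ + 1) : ℕ) : ℤ) = i + ((ρ₁ + u : ℕ) : ℤ) by push_cast; omega, ← a1]
    congr 1; push_cast; omega
  have gδ : ∀ t : ℤ, δ (((m₂ + 2 : ℕ) : ℤ) + t) = l₂ t := by
    intro t
    have a2 := per_mul p₂ (k + 2) t
    rw [← hm₂] at a2
    simp only [hδ, sh]
    rw [← a2]; congr 1; push_cast; ring
  have K₁ : E true (sh x j₁) ∈ O₁ := by
    refine T.key x true d₁ j₁ r₁ n₁ p₁ q₁ b₁ o₁ ?_ 2 ?_
    · intro t
      rw [xt, hj₁, ← mul_add, topp _ (by push_cast; omega), gγ t (by omega), add_sub_assoc,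
        gγ (t - 1) (by omega)]
    · intro t h
      rw [Bool.not_true, xb]
      by_cases hd : d₁ = d₂
      · have hκ0 : κ = 0 := by simp [hκ, hd]
        have := botp (((m₁ + 1 : ℕ) : ℤ) + t) (by push_cast; omega)
        rw [hκ0, zero_add] at this
        rw [hj₁, ← mul_add, hd, this, c₁ hd]
        simp only [dir_sq, hδ, sh]
        congr 2 <;> push_cast <;> ring
      · have hκ0 : κ = dir d₂ := by simp [hκ, hd]
        simp only [hbot, hκ0, hj₁]
        rw [if_neg, if_neg]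
        · congr 1; ring
        · cases d₁ <;> cases d₂ <;> simp [dir] at hd ⊢ <;> omega
        · cases d₁ <;> cases d₂ <;> simp [dir] at hd ⊢ <;> omega
  have K₂ : E false (sh x j₂) ∈ O₂ := by
    refine T.key x false d₂ j₂ r₂ n₂ p₂ q₂ b₂ o₂ ?_ (i' + 2) ?_
    · intro t
      rw [xb, hj₂, add_assoc, ← mul_add, botp _ (by push_cast; omega), ← gδ t, ← gδ (t - 1)]
      congr 2 <;> push_cast <;> ring
    · intro t h
      rw [Bool.not_false, xt]
      by_cases hd : d₁ = d₂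
      · have hκ0 : κ = 0 := by simp [hκ, hd]
        have := topp (((m₂ + 1 : ℕ) : ℤ) + t) (by push_cast; omega)
        rw [hj₂, hκ0, zero_add, ← mul_add, ← hd, this, c₂ hd]
        simp only [dir_sq, hγ, sh]
        have a1 := ht (k + m₂ + t - i')
        have a2 := ht (k + m₂ + t + 1 - i')
        congr 1
        · rw [show ((m₂ + 1 : ℕ) : ℤ) + t - 1 + k = i' + ((k + m₂ + t - i' : ℕ) : ℤ) by omega, a1]
          congr 1; omega
        · rw [show ((m₂ + 1 : ℕ) : ℤ) + t + k = i' + ((k + m₂ + t + 1 - i' : ℕ) : ℤ) by omega, a2]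
          congr 1; omega
      · have hκ0 : κ = dir d₂ := by simp [hκ, hd]
        simp only [htop, hκ0, hj₂]
        rw [if_neg, if_neg]
        · congr 1; ring
        · cases d₁ <;> cases d₂ <;> simp [dir] at hd ⊢ <;> omega
        · cases d₁ <;> cases d₂ <;> simp [dir] at hd ⊢ <;> omega
  refine ⟨e.symm ((P s α k).symm (E true x)), Or.inl ?_, Or.inl ?_⟩
  · apply q₁.mem_of_pow (i + k + 1)
    rw [← P_mul s p₁, ← hρ₁.1, ← hP', ← hm₁, P_add]
    simpa [Homeomorph.mul_apply, ← hγ, run₁] using K₁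
  · apply q₂.mem_of_pow (k + 2)
    rw [← P_mul s p₂, ← hm₂, P_add, hk2]
    simpa [Homeomorph.mul_apply, ← hδ, run₂] using K₂

theorem Tape.no_pp [Nontrivial S] (T : Tape s E) (hs : ∀ a, s a * s a = 1) :
    ¬ HasPingPong (Subgroup.closure (range s)) := by
  obtain ⟨a₀, -⟩ := exists_pair_ne S
  have : Nonempty X := ⟨E true fun _ _ _ => (a₀, none)⟩
  apply no_pingpong s hs
  intro ω ω' N N' hN hN' hω hω' hp hp' e he U₁ V₁ U₂ V₂ q₁ q₂
  have rev : ∀ {ω : ℤ → S} {N : ℕ} {U V : Set X}, Red ω → (∀ t, ω (t + N) = ω t) →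
      PP (P s ω N) U V → Red (fun t => ω (-1 - t)) ∧ (∀ t, ω (-1 - (t + N)) = ω (-1 - t)) ∧
        PP (P s (fun t => ω (-1 - t)) N) V U := by
    intro ω N U V hω hp q
    refine ⟨fun t => ?_, fun t => ?_, ?_⟩
    · have := hω (-1 - (t + 1))
      rw [show -1 - (t + 1) + 1 = -1 - t by ring] at this
      exact this.symm
    · rw [← hp]; congr 1; ring
    · have : (fun t => ω (-1 - t)) = fun t => ω (N - 1 - t) := by
        funext t; rw [← hp]; congr 1; ring
      rw [this, P_rev s hs]; exact q.inv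
  obtain ⟨r₁, s₁, t₁⟩ := rev hω hp q₁
  obtain ⟨r₂, s₂, t₂⟩ := rev hω' hp' q₂
  have D₁ := fun β hβ => T.dich true hω hN hp q₁ (β := β) hβ
  have D₂ := fun β hβ => T.dich false hω' hN' hp' q₂ (β := β) hβ
  have P0 : Per (fun (_ : ℤ) (_ : Bool) => ((a₀, none) : S × Option Bool)) := ⟨1, one_pos, fun _ => rfl⟩
  have LR : (∃ β, Per β ∧ E true (mk2 true (lane true false fun t => ω (-1 - t)) β) ∈ V₁) →
      (∃ β, Per β ∧ E false (mk2 false (lane false true ω') β) ∈ U₂) →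
      ∃ z, z ∈ U₁ ∪ V₁ ∧ e z ∈ U₂ ∪ V₂ := by
    rintro ⟨β, a, b⟩ ⟨β', a', b'⟩
    have := T.main hs false true r₁ hω' hN hN' s₁ hp' t₁ q₂ he
      (fun _ _ => ⟨β, a, b, by simp⟩) (fun _ _ => ⟨β', a', b', by simp⟩)
    rwa [union_comm V₁] at this
  have RL : (∃ β, Per β ∧ E true (mk2 true (lane true true ω) β) ∈ U₁) →
      (∃ β, Per β ∧ E false (mk2 false (lane false false fun t => ω' (-1 - t)) β) ∈ V₂) →
      ∃ z, z ∈ U₁ ∪ V₁ ∧ e z ∈ U₂ ∪ V₂ := by
    rintro ⟨β, a, b⟩ ⟨β', a', b'⟩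
    have := T.main hs true false hω r₂ hN hN' hp s₂ q₁ t₂ he
      (fun _ _ => ⟨β, a, b, by simp⟩) (fun _ _ => ⟨β', a', b', by simp⟩)
    rwa [union_comm V₂] at this
  by_cases gL : ∃ β, Per β ∧ E true (mk2 true (lane true false fun t => ω (-1 - t)) β) ∈ V₁
  · by_cases hR : ∃ β, Per β ∧ E false (mk2 false (lane false true ω') β) ∈ U₂
    · exact LR gL hR
    · by_cases gR : ∃ β, Per β ∧ E true (mk2 true (lane true true ω) β) ∈ U₁
      · exact RL gR ⟨_, P0, (D₂ _ P0).resolve_left fun h => hR ⟨_, P0, h⟩⟩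
      · have := T.main hs false false r₁ r₂ hN hN' s₁ s₂ t₁ t₂ he
          (fun β a => ⟨β, a, (D₁ β a).resolve_left fun h => gR ⟨β, a, h⟩, fun _ => rfl⟩)
          (fun β a => ⟨β, a, (D₂ β a).resolve_left fun h => hR ⟨β, a, h⟩, fun _ => rfl⟩)
        rwa [union_comm V₁, union_comm V₂] at this
  · by_cases hL : ∃ β, Per β ∧
        E false (mk2 false (lane false false fun t => ω' (-1 - t)) β) ∈ V₂
    · exact RL ⟨_, P0, (D₁ _ P0).resolve_right fun h => gL ⟨_, P0, h⟩⟩ hL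
    · exact T.main hs true true hω hω' hN hN' hp hp' q₁ q₂ he
        (fun β a => ⟨β, a, (D₁ β a).resolve_right fun h => gL ⟨β, a, h⟩, fun _ => rfl⟩)
        (fun β a => ⟨β, a, (D₂ β a).resolve_right fun h => hL ⟨β, a, h⟩, fun _ => rfl⟩)

end Pool.Agent.H155Z.DT
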