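import Pool.Agent.H155Z.DTRole
import Pool.Agent.H155Z.DTTape

set_option linter.unusedSectionVars false

open Set

namespace Pool.Agent.H155Z.DT

section locv
variable {n : ℕ}

def LocV (f : (Fin n → ℕ → Bool) → Fin n → ℕ → Bool) : Prop :=
  ∀ x, ∃ u v : Fin n → List Bool, (∃ y₀ : Fin n → ℕ → Bool, x = fun i => pre (u i) (y₀ i)) ∧
    ∀ y : Fin n → ℕ → Bool, f (fun i => pre (u i) (y i)) = fun i => pre (v i) (y i)

lemma box_nhds {x : Fin n → ℕ → Bool} {u : Fin n → List Bool} {y₀ : Fin n → ℕ → Bool}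
    (h : x = fun i => pre (u i) (y₀ i)) :
    ∀ᶠ x' in nhds x, x' = fun i => pre (u i) (dr (u i).length (x' i)) := by
  have : ∀ i, ∀ᶠ x' in nhds x, ∀ j < (u i).length, x' i j = x i j := fun i =>
    ((continuous_apply i).continuousAt (x := x)).eventually (eventually_agree (x i) (u i).length)
  filter_upwards [Filter.eventually_all.2 this] with x' hx'
  funext i
  exact pre_of_agree (congrFun h i) (hx' i)

lemma LocV.continuous {f : (Fin n → ℕ → Bool) → Fin n → ℕ → Bool} (h : LocV f) :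
    Continuous f := by
  refine continuous_iff_continuousAt.2 fun x => ?_
  obtain ⟨u, v, ⟨y₀, hx⟩, hf⟩ := h x
  have hc : Continuous fun x' : Fin n → ℕ → Bool =>
      fun i => pre (v i) (dr (u i).length (x' i)) :=
    continuous_pi fun i => (continuous_pre _).comp ((continuous_dr _).comp (continuous_apply i))
  refine hc.continuousAt.congr ?_
  filter_upwards [box_nhds hx] with x' hx'
  conv_rhs => rw [hx', hf]

lemma LocV.comp {f g : (Fin n → ℕ → Bool) → Fin n → ℕ → Bool} (hg : LocV g) (hf : LocV f) :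
    LocV fun x => g (f x) := by
  intro x
  obtain ⟨u, v, ⟨y₀, hx⟩, h1⟩ := hf x
  obtain ⟨u', v', ⟨y₁, hy⟩, h2⟩ := hg (f x)
  refine ⟨fun i => u i ++ tk (u' i).length (y₀ i),
    fun i => v' i ++ (v i ++ tk (u' i).length (y₀ i)).drop (u' i).length,
    ⟨fun i => dr (u' i).length (y₀ i), ?_⟩, fun y => ?_⟩
  · rw [hx]; funext i; rw [pre_append, pre_tk_dr]
  · simp only [pre_append]
    rw [h1, ← h2]
    congr 1
    funext i
    rw [← pre_append, ← pre_append, ← split_of_pre (y₀ := dr (u' i).length (y₀ i)) (y₁ := y₁ i)]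
    · rw [pre_append, pre_tk_dr, ← congrFun hy i, hx, h1]
    · simp

lemma LocV.mem {f : (Fin n → ℕ → Bool) ≃ₜ (Fin n → ℕ → Bool)} (h : LocV f) :
    f ∈ BrinThompson n := by
  classical
  choose u v hx hf using h
  obtain ⟨t, ht⟩ := isCompact_univ.elim_nhds_subcover'
    (fun x _ => {x' | x' = fun i => pre (u x i) (dr (u x i).length (x' i))})
    (fun x _ => by obtain ⟨y₀, h⟩ := hx x; exact box_nhds h)
  refine ⟨t.image fun x => (u x.1, v x.1), fun x => ?_, fun p hp y => ?_⟩
  · obtain ⟨z, hz, hxz⟩ := mem_iUnion₂.1 (ht (mem_univ x))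
    exact ⟨_, Finset.mem_image_of_mem _ hz, _, hxz⟩
  · obtain ⟨z, -, rfl⟩ := Finset.mem_image.1 hp
    exact hf z y

lemma agreeX {x : Fin n → ℕ → Bool} {O : Set (Fin n → ℕ → Bool)} (hO : IsOpen O) (hx : x ∈ O) :
    ∃ K, ∀ y : Fin n → ℕ → Bool, (∀ i, ∀ j < K, y i j = x i j) → y ∈ O := by
  have := hO.mem_nhds hx
  rw [nhds_pi, Filter.mem_pi] at this
  obtain ⟨I, -, t, ht, hsub⟩ := this
  choose k hk using fun i => exists_agree (ht i)
  refine ⟨Finset.univ.sup k, fun y hy => hsub fun i _ => hk i _ fun j hj => hy i j ?_⟩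
  exact lt_of_lt_of_le hj (Finset.le_sup (f := k) (Finset.mem_univ i))

end locv

section model
variable {S : Type} (r : ℕ) (dec : List Bool → Cell S) (role : Bool × Cell S → S → Bool × Bool × Bool)

def MR (a : S) (l : Bool) (c c' : Cell S) (l' : Bool) : Prop :=
  c l true = (a, some l') ∧ (c l false).1 ≠ a ∧ c' l' false = (a, some l) ∧ (c' l' true).1 ≠ a

def MW (a : S) (l : Bool) (c : Cell S) : Prop :=
  ∃ d, c l d = (a, none) ∧ (c l (!d)).1 ≠ a ∧ c (!l) d = (a, none) ∧ (c (!l) (!d)).1 ≠ a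

lemma MW.symm {a : S} {l : Bool} {c : Cell S} (h : MW a l c) : MW a (!l) c := by
  obtain ⟨d, h1, h2, h3, h4⟩ := h
  exact ⟨d, h3, h4, by simpa using h1, by simpa using h2⟩

abbrev Md := Bool × (ℕ → Bool) × (ℕ → Bool)

open Classical in
noncomputable def gM (a : S) (m : Md) : Md :=
  if h : ∃ l', MR a m.1 (dec (tk r m.2.2)) (dec (tk r (dr r m.2.2))) l' then
    (h.choose, pre (tk r m.2.2) m.2.1, dr r m.2.2)
  else if h : ∃ l', MR a l' (dec (tk r m.2.1)) (dec (tk r m.2.2)) m.1 then
    (h.choose, dr r m.2.1, pre (tk r m.2.1) m.2.2)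
  else if MW a m.1 (dec (tk r m.2.2)) then (!m.1, m.2.1, m.2.2)
  else (m.1, pre (tk r m.2.1) (tau id (role (m.1, dec (tk r m.2.2)) a) (dr r m.2.1)), m.2.2)

variable {r dec role} {a : S} {l l' : Bool} {p q : ℕ → Bool}

lemma gM_R (h : MR a l (dec (tk r q)) (dec (tk r (dr r q))) l') :
    gM r dec role a (l, p, q) = (l', pre (tk r q) p, dr r q) := by
  have h' : ∃ l', MR a l (dec (tk r q)) (dec (tk r (dr r q))) l' := ⟨l', h⟩
  have := h'.choose_spec.1
  rw [h.1] at this
  simp only [gM]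
  rw [dif_pos h']
  simp only [Prod.mk.injEq, Option.some.injEq, true_and] at this
  rw [← this]

lemma gM_L (h : MR a l' (dec (tk r p)) (dec (tk r q)) l) :
    gM r dec role a (l, p, q) = (l', dr r p, pre (tk r p) q) := by
  have h' : ∃ l', MR a l' (dec (tk r p)) (dec (tk r q)) l := ⟨l', h⟩
  have := h'.choose_spec.2.2.1
  rw [h.2.2.1] at this
  simp only [gM]
  rw [dif_neg, dif_pos h']
  · simp only [Prod.mk.injEq, Option.some.injEq, true_and] at this
    rw [← this]
  · rintro ⟨l'', h2⟩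
    exact h.2.2.2 (by rw [h2.1])

lemma gM_W (h : MW a l (dec (tk r q))) : gM r dec role a (l, p, q) = (!l, p, q) := by
  simp only [gM]
  rw [dif_neg, dif_neg, if_pos h]
  · rintro ⟨l'', h2⟩
    obtain ⟨d, h3, h4, -⟩ := h
    cases d
    · rw [h2.2.2.1] at h3; simp at h3
    · exact h2.2.2.2 (by rw [h3])
  · rintro ⟨l'', h2⟩
    obtain ⟨d, h3, h4, -⟩ := h
    cases d
    · exact h2.2.1 (by rw [h3])
    · rw [h2.1] at h3; simp at h3

lemma gM_N (h1 : ¬ ∃ l', MR a l (dec (tk r q)) (dec (tk r (dr r q))) l')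
    (h2 : ¬ ∃ l', MR a l' (dec (tk r p)) (dec (tk r q)) l) (h3 : ¬ MW a l (dec (tk r q))) :
    gM r dec role a (l, p, q) =
      (l, pre (tk r p) (tau id (role (l, dec (tk r q)) a) (dr r p)), q) := by
  simp only [gM]
  rw [dif_neg h1, dif_neg h2, if_neg h3]

lemma gM_invol (m : Md) : gM r dec role a (gM r dec role a m) = m := by
  obtain ⟨l, p, q⟩ := m
  by_cases h1 : ∃ l', MR a l (dec (tk r q)) (dec (tk r (dr r q))) l'
  · obtain ⟨l', h⟩ := h1
    rw [gM_R h, gM_L (l' := l) (by rwa [tk_pre_tk]), tk_pre_tk, dr_pre_tk, pre_tk_dr]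
  by_cases h2 : ∃ l', MR a l' (dec (tk r p)) (dec (tk r q)) l
  · obtain ⟨l', h⟩ := h2
    rw [gM_L h, gM_R (l' := l) (by rwa [tk_pre_tk, dr_pre_tk]), tk_pre_tk, dr_pre_tk, pre_tk_dr]
  by_cases h3 : MW a l (dec (tk r q))
  · rw [gM_W h3, gM_W h3.symm, Bool.not_not]
  · rw [gM_N h1 h2 h3, gM_N h1 (by rwa [tk_pre_tk]) h3, tk_pre_tk, dr_pre_tk,
      tau_invol (fun _ => rfl), pre_tk_dr]

lemma gM_local (l : Bool) (p q : ℕ → Bool) : ∃ (u₁ u₂ v₁ v₂ : List Bool) (l' : Bool),
    (∃ p₀, p = pre u₁ p₀) ∧ (∃ q₀, q = pre u₂ q₀) ∧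
      ∀ p' q', gM r dec role a (l, pre u₁ p', pre u₂ q') = (l', pre v₁ p', pre v₂ q') := by
  have eq : q = pre (tk r q ++ tk r (dr r q)) (dr r (dr r q)) := by
    rw [pre_append, pre_tk_dr, pre_tk_dr]
  by_cases h1 : ∃ l', MR a l (dec (tk r q)) (dec (tk r (dr r q))) l'
  · obtain ⟨l', h⟩ := h1
    refine ⟨[], _, tk r q, tk r (dr r q), l', ⟨p, by simp⟩, ⟨_, eq⟩, fun p' q' => ?_⟩
    rw [pre_append, gM_R (l' := l') (by rwa [tk_pre_tk, dr_pre_tk, tk_pre_tk]), tk_pre_tk,
      dr_pre_tk, pre_nil]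
  by_cases h2 : ∃ l', MR a l' (dec (tk r p)) (dec (tk r q)) l
  · obtain ⟨l', h⟩ := h2
    refine ⟨tk r p, tk r q, [], tk r p ++ tk r q, l', ⟨_, (pre_tk_dr r p).symm⟩,
      ⟨_, (pre_tk_dr r q).symm⟩, fun p' q' => ?_⟩
    rw [gM_L (l' := l') (by rwa [tk_pre_tk, tk_pre_tk]), tk_pre_tk, dr_pre_tk, pre_nil, pre_append]
  by_cases h3 : MW a l (dec (tk r q))
  · refine ⟨[], tk r q, [], tk r q, !l, ⟨p, by simp⟩, ⟨_, (pre_tk_dr r q).symm⟩, fun p' q' => ?_⟩
    rw [gM_W (by rwa [tk_pre_tk])]
  · obtain ⟨u, v, ⟨y₀, hy⟩, hv⟩ := tau_local id (role (l, dec (tk r q)) a) (dr r p)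
    refine ⟨tk r p ++ u, _, tk r p ++ v, tk r q ++ tk r (dr r q), l,
      ⟨y₀, by rw [pre_append, ← hy, pre_tk_dr]⟩, ⟨_, eq⟩, fun p' q' => ?_⟩
    simp only [pre_append]
    rw [gM_N (by rwa [tk_pre_tk, dr_pre_tk, tk_pre_tk]) (by rwa [tk_pre_tk, tk_pre_tk])
      (by rwa [tk_pre_tk]), tk_pre_tk, tk_pre_tk, dr_pre_tk, hv]
    rfl

end model

section code
variable {S : Type} {n : ℕ}

def toM (y : Fin (n + 2) → ℕ → Bool) : Md := (y 0 0, dr 1 (y 0), y 1)

def ofM (z : Fin (n + 2) → ℕ → Bool) (m : Md) : Fin (n + 2) → ℕ → Bool :=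
  fun i => if i = 0 then pre [m.1] m.2.1 else if i = 1 then m.2.2 else z i

lemma one_ne : (1 : Fin (n + 2)) ≠ 0 := by simp

lemma toM_ofM (z : Fin (n + 2) → ℕ → Bool) (m : Md) : toM (ofM z m) = m := by
  simp [toM, ofM]

lemma ofM_ofM (z : Fin (n + 2) → ℕ → Bool) (m m' : Md) : ofM (ofM z m) m' = ofM z m' := by
  funext i; simp only [ofM]; split_ifs <;> rfl

lemma ofM_toM (z : Fin (n + 2) → ℕ → Bool) : ofM z (toM z) = z := by
  funext i; simp only [ofM, toM]
  split_ifs with h1 h2
  · rw [h1, pre1_dr]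
  · rw [h2]
  · rfl

variable (r : ℕ) (dec : List Bool → Cell S) (role : Bool × Cell S → S → Bool × Bool × Bool)

noncomputable def gX (a : S) (y : Fin (n + 2) → ℕ → Bool) : Fin (n + 2) → ℕ → Bool :=
  ofM y (gM r dec role a (toM y))

lemma gX_invol (a : S) (y : Fin (n + 2) → ℕ → Bool) : gX r dec role a (gX r dec role a y) = y := by
  simp only [gX]; rw [toM_ofM, gM_invol, ofM_ofM, ofM_toM]

lemma gX_loc (a : S) : LocV (gX (n := n) r dec role a) := by
  intro x
  obtain ⟨u₁, u₂, v₁, v₂, l', ⟨p₀, hp⟩, ⟨q₀, hq⟩, h⟩ :=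
    gM_local (r := r) (dec := dec) (role := role) (a := a) (x 0 0) (dr 1 (x 0)) (x 1)
  refine ⟨fun i => if i = 0 then x 0 0 :: u₁ else if i = 1 then u₂ else [],
    fun i => if i = 0 then l' :: v₁ else if i = 1 then v₂ else [],
    ⟨fun i => if i = 0 then p₀ else if i = 1 then q₀ else x i, ?_⟩, fun y => ?_⟩
  · funext i
    beta_reduce
    split_ifs with h1 h2
    · rw [h1, ← List.singleton_append, pre_append, ← hp, pre1_dr]
    · rw [h2, hq]
    · simp
  · have : toM (fun i : Fin (n + 2) => pre (if i = 0 then x 0 0 :: u₁ else if i = 1 then u₂ else [])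
        (y i)) = (x 0 0, pre u₁ (y 0), pre u₂ (y 1)) := by
      simp only [toM, if_true, if_neg one_ne]
      rw [← List.singleton_append, pre_append]; simp
    simp only [gX]
    rw [this, h]
    funext i
    simp only [ofM]
    split_ifs with h1 h2
    · rw [h1, ← pre_append]; rfl
    · rw [h2]
    · rfl

noncomputable def gH (a : S) : (Fin (n + 2) → ℕ → Bool) ≃ₜ (Fin (n + 2) → ℕ → Bool) where
  toFun := gX r dec role a
  invFun := gX r dec role a
  left_inv := gX_invol r dec role a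
  right_inv := gX_invol r dec role a
  continuous_toFun := (gX_loc r dec role a).continuous
  continuous_invFun := (gX_loc r dec role a).continuous

lemma gH_apply (a : S) (y : Fin (n + 2) → ℕ → Bool) :
    gH r dec role a y = ofM y (gM r dec role a (toM y)) := rfl

lemma gH_sq (a : S) : gH (n := n) r dec role a * gH r dec role a = 1 :=
  Homeomorph.ext (gX_invol r dec role a)

def flat (b : ℕ → List Bool) : ℕ → Bool := fun k => (b (k / r)).getD (k % r) false

variable {r}

lemma tk_flat {b : ℕ → List Bool} (h : (b 0).length = r) : tk r (flat r b) = b 0 := by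
  apply List.ext_getElem (by simp [h])
  intro i h1 h2
  have hi : i < r := by omega
  simp [tk, flat, Nat.div_eq_of_lt hi, Nat.mod_eq_of_lt hi, h2]

lemma dr_flat (hr : 0 < r) (b : ℕ → List Bool) : dr r (flat r b) = flat r fun k => b (k + 1) := by
  funext k; simp [flat, Nat.add_div_right _ hr]

lemma pre_flat (hr : 0 < r) {b : ℕ → List Bool} (h : (b 0).length = r) :
    pre (b 0) (flat r fun k => b (k + 1)) = flat r b := by
  rw [← tk_flat h, ← dr_flat hr, pre_tk_dr]

variable (r)

def EX (enc : Cell S → List Bool) (l : Bool) (x : ℤ → Cell S) : Fin (n + 2) → ℕ → Bool :=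
  ofM (fun _ _ => false) (l, flat r fun k => enc (x (-1 - k)), flat r fun k => enc (x k))

variable {r dec}

lemma tape_gH (hr : 0 < r) {enc : Cell S → List Bool} (hl : ∀ c, (enc c).length = r)
    (hd : ∀ c, dec (enc c) = c) : Tape (gH (n := n) r dec role) (EX r enc) := by
  refine ⟨fun l x O hO hx => ?_, fun x l l' d a h1 h2 h3 h4 => ?_, fun x l d a h1 h2 h3 h4 => ?_⟩
  · obtain ⟨K, hK⟩ := agreeX hO hx
    refine ⟨K + 1, fun x' hx' => hK _ fun i j hj => ?_⟩
    simp only [EX, ofM]
    split_ifs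
    · cases j with
      | zero => rfl
      | succ j =>
        have a1 : ∀ (w : ℕ → Bool), pre [l] w (j + 1) = w j := fun w => pre_add [l] w j
        rw [a1, a1]
        simp only [flat]
        have := Nat.div_le_self j r
        generalize j / r = w at this
        rw [hx' _ (by rw [abs_le]; constructor <;> push_cast <;> omega)]
    · simp only [flat]
      have := Nat.div_le_self j r
      generalize j / r = w at this
      rw [hx' _ (by rw [abs_le]; constructor <;> push_cast <;> omega)]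
    · rfl
  · simp only [gH_apply, EX, toM_ofM, ofM_ofM]
    congr 1
    cases d
    · rw [gM_L (l' := l'), tk_flat (hl _), dr_flat hr]
      · congr 2
        · funext k; simp only [sh, dir]; congr 2; push_cast; ring
        · rw [← pre_flat hr (b := fun k : ℕ => enc (sh x (dir false) k)) (hl _)]
          congr 2
          funext k; simp [sh, dir]
      · rw [tk_flat (hl _), tk_flat (hl _), hd, hd]
        exact ⟨h3, h4, h1, h2⟩
    · rw [gM_R (l' := l'), tk_flat (hl _), dr_flat hr]
      · congr 2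
        rw [← pre_flat hr (b := fun k : ℕ => enc (sh x (dir true) (-1 - k))) (hl _)]
        congr 2
        funext k; simp only [sh, dir]; congr 2; push_cast; ring
      · rw [tk_flat (hl _), dr_flat hr, tk_flat (hl _), hd, hd]
        exact ⟨h1, h2, h3, h4⟩
  · simp only [gH_apply, EX, toM_ofM, ofM_ofM]
    rw [gM_W]
    rw [tk_flat (hl _), hd]
    exact ⟨d, h1, h2, h3, h4⟩

lemma isOpen_tk {A T : Type} [TopologicalSpace A] [DiscreteTopology A] (k : ℕ) (F : List A → T)
    (u : T) : IsOpen {y : ℕ → A | F (tk k y) = u} := by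
  rw [isOpen_iff_eventually]
  intro x hx
  filter_upwards [eventually_agree x k] with y hy
  simp only [mem_ofPred_eq] at hx ⊢
  rw [tk_eq_iff.2 hy, hx]

lemma isOpen_at {A : Type} [TopologicalSpace A] [DiscreteTopology A] (k : ℕ) (a : A) :
    IsOpen {y : ℕ → A | y k = a} :=
  (isOpen_discrete {a}).preimage (continuous_apply (A := fun _ : ℕ => A) k)

lemma exists_code (C : Type) [Fintype C] [Nonempty C] : ∃ (r : ℕ) (enc : C → List Bool)
    (dec : List Bool → C), 0 < r ∧ (∀ c, (enc c).length = r) ∧ ∀ c, dec (enc c) = c := by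
  classical
  set e := Fintype.equivFin C
  set enc : C → List Bool := fun c => List.ofFn fun i => decide (e c = i) with henc
  have hinj : Function.Injective enc := by
    intro c c' h
    simp only [henc, List.ofFn_inj] at h
    have := congrFun h (e c)
    simp only [decide_true, true_eq_decide_iff] at this
    exact (e.injective this).symm
  exact ⟨Fintype.card C, enc, Function.invFun enc, Fintype.card_pos, fun c => by simp [henc],
    Function.leftInverse_invFun hinj⟩

lemma cont_at {n : ℕ} (i : Fin n) : Continuous fun y : Fin n → ℕ → Bool => y i :=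
  continuous_apply i

theorem nV_not (n : ℕ) : ¬ DynTits (BrinThompson (n + 2)) := by
  classical
  obtain ⟨r, enc, dec, hr, hl, hd⟩ := exists_code (Cell (Fin 10))
  have hf : ∀ u : Bool × Cell (Fin 10), ∃ f : Bool × Bool × Bool → Fin 10, Function.Injective f ∧
      ∀ ρ, f ρ ∉ ({(u.2 u.1 true).1, (u.2 u.1 false).1} : Finset (Fin 10)) := by
    intro u
    apply exists_roles
    have := Finset.card_le_two (a := (u.2 u.1 true).1) (b := (u.2 u.1 false).1)
    simp only [Fintype.card_prod, Fintype.card_bool, Fintype.card_fin]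
    omega
  choose f hf1 hf2 using hf
  set role : Bool × Cell (Fin 10) → Fin 10 → Bool × Bool × Bool :=
    fun u => Function.invFun (f u) with hrole
  intro h
  have hsub : (Subgroup.closure (range (gH (n := n) r dec role)) : Set _) ⊆
      BrinThompson (n + 2) := by
    intro g hg
    apply LocV.mem
    refine closure_subset _ (gH_sq r dec role) (fun g => LocV g) ?_ ?_ hg
    · intro x; exact ⟨fun _ => [], fun _ => [], ⟨x, by simp⟩, fun y => rfl⟩
    · intro a x hx; exact (gX_loc r dec role a).comp hx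
  rcases h _ hsub with h1 | h1
  · refine no_measure _ (fun y => (y 0 0, dec (tk r (y 1)))) (fun y => y 0 (r + 1))
      (fun y => y 0 (r + 2)) ?_ ?_ ?_ ?_ h1
    · rintro ⟨l, c⟩
      simp only [Prod.mk.injEq]
      exact ((isOpen_at 0 l).preimage (cont_at (0 : Fin (n + 2)))).inter
        ((isOpen_tk r dec c).preimage (cont_at (1 : Fin (n + 2))))
    · exact fun a => (isOpen_at (r + 1) a).preimage (cont_at (0 : Fin (n + 2)))
    · exact fun a => (isOpen_at (r + 2) a).preimage (cont_at (0 : Fin (n + 2)))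
    · intro u a b c hab
      refine ⟨gH r dec role (f u (a, b, c)), Subgroup.subset_closure ⟨_, rfl⟩, ?_⟩
      have k1 : ∀ x : Fin (n + 2) → ℕ → Bool, (x 0 0, dec (tk r (x 1))) = u →
          gH r dec role (f u (a, b, c)) x = ofM x (x 0 0, pre (tk r (dr 1 (x 0)))
            (tau id (a, b, c) (dr r (dr 1 (x 0)))), x 1) := by
        intro x hx
        have a1 := hf2 u (a, b, c)
        rw [← hx] at a1
        simp only [Finset.mem_insert, Finset.mem_singleton, not_or] at a1
        rw [hx] at a1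
        rw [gH_apply, toM, gM_N, hx, hrole]
        · simp only; rw [Function.leftInverse_invFun (hf1 u)]
        · rintro ⟨l', h2⟩; exact a1.1 (by rw [h2.1])
        · rintro ⟨l', h2⟩; exact a1.2 (by rw [h2.2.2.1])
        · rintro ⟨d, h2, -⟩
          cases d
          · exact a1.2 (by rw [h2])
          · exact a1.1 (by rw [h2])
      have k2 : ∀ x : Fin (n + 2) → ℕ → Bool, (x 0 0, dec (tk r (x 1))) = u →
          (gH r dec role (f u (a, b, c)) x 0 0,
            dec (tk r (gH r dec role (f u (a, b, c)) x 1))) = u := by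
        intro x hx
        rw [k1 x hx]; simpa [ofM] using hx
      have k3 : ∀ x : Fin (n + 2) → ℕ → Bool, (x 0 0, dec (tk r (x 1))) = u →
          (gH r dec role (f u (a, b, c)) x 0 (r + 1) = a ↔ x 0 (r + 1) = b ∧ x 0 (r + 2) = c) := by
        intro x hx
        rw [k1 x hx]
        simp only [ofM, if_true]
        have a1 : ∀ (l : Bool) (w : ℕ → Bool), pre [l] w (r + 1) = w r := fun l w => pre_add [l] w r
        have a2 := pre_add (tk r (dr 1 (x 0))) (tau id (a, b, c) (dr r (dr 1 (x 0)))) 0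
        rw [tk_length, zero_add] at a2
        rw [a1, a2, tau_role hab]
        simp only [dr_apply, zero_add]
        rw [show 1 + r + 1 = r + 2 by ring]
      intro x
      constructor
      · rintro ⟨h2, h3⟩
        have h4 := k2 _ h2
        rw [← Homeomorph.mul_apply, gH_sq, Homeomorph.one_apply] at h4
        exact ⟨h4, (k3 x h4).1 h3⟩
      · rintro ⟨h2, h3⟩
        exact ⟨k2 x h2, (k3 x h2).2 h3⟩
  · exact (tape_gH role hr hl hd).no_pp (gH_sq r dec role) h1

end code

end Pool.Agent.H155Z.DT
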