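import Pool.Agent.H155Z.DTCA
import Pool.Agent.H155Z.DTNV

set_option linter.unusedSectionVars false

open Set Filter Topology

namespace Pool.Agent.H155Z.DT

section slid
variable {A : Type}

/-- A sliding-block type involution of the one-sided shift space. -/
structure Slid (L : ℕ) (T : (ℕ → A) → ℕ → A) : Prop where
  gen : ∀ x y m k, (k = 0 ∨ L ≤ m) → (∀ i < m + 2 * L, y i = x (i + k)) → T y m = T x (m + k)
  inv : ∀ x, T (T x) = x

lemma dr_dr (m n : ℕ) (x : ℕ → A) : dr m (dr n x) = dr (m + n) x := by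
  funext j; simp [add_assoc]

lemma Slid.shift {L : ℕ} {T : (ℕ → A) → ℕ → A} (h : Slid L T) (k : ℕ) (x : ℕ → A) :
    dr L (T (dr k x)) = dr (L + k) (T x) := by
  funext j
  simp only [dr_apply]
  rw [h.gen x (dr k x) (j + L) k (Or.inr (by omega)) fun i _ => rfl, add_assoc]

def Loc (T f : (ℕ → A) → ℕ → A) : Prop :=
  ∀ x, ∃ u u' v : List A, (∃ y₀, x = pre u y₀) ∧ ∀ y, f (pre u y) = pre v (T (pre u' y))

def RatFam (f : (ℕ → A) → ℕ → A) : Prop :=
  ∃ F : Set ((ℕ → A) → ℕ → A), F.Finite ∧ f ∈ F ∧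
    ∀ g ∈ F, ∀ a, ∃ g' ∈ F, ∃ w, ∀ y, g (pre [a] y) = pre w (g' y)

lemma RatFam.comp {f g : (ℕ → A) → ℕ → A} (hg : RatFam g) (hf : RatFam f) :
    RatFam fun x => g (f x) := by
  obtain ⟨F, F1, F2, F3⟩ := hf
  obtain ⟨G, G1, G2, G3⟩ := hg
  have G4 : ∀ u : List A, ∀ g ∈ G, ∃ g' ∈ G, ∃ w, ∀ y, g (pre u y) = pre w (g' y) := by
    intro u
    induction u with
    | nil => exact fun g hg => ⟨g, hg, [], fun y => by simp⟩
    | cons a u ih =>
      intro g hg
      obtain ⟨g', hg', w, hw⟩ := G3 g hg a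
      obtain ⟨g'', hg'', w', hw'⟩ := ih g' hg'
      refine ⟨g'', hg'', w ++ w', fun y => ?_⟩
      rw [← List.singleton_append, pre_append, hw, hw', pre_append]
  refine ⟨image2 (fun g f x => g (f x)) G F, G1.image2 _ F1, mem_image2_of_mem G2 F2, ?_⟩
  rintro _ ⟨g, hg, f, hf, rfl⟩ a
  obtain ⟨f', hf', w, hw⟩ := F3 f hf a
  obtain ⟨g', hg', w', hw'⟩ := G4 w g hg
  exact ⟨_, mem_image2_of_mem hg' hf', w', fun y => by simp only [hw, hw']⟩

lemma RatFam.pre (u : List A) : RatFam (pre u) := by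
  refine ⟨{DT.pre u, DT.pre []}, by simp, by simp, ?_⟩
  rintro g (rfl | rfl) a
  · exact ⟨DT.pre [], by simp, u ++ [a], fun y => by rw [pre_append, pre_nil]⟩
  · exact ⟨DT.pre [], by simp, [a], fun y => by rw [pre_nil, pre_nil]⟩

lemma RatFam.glue [Finite A] {f : (ℕ → A) → ℕ → A} (h : ∀ a, RatFam fun y => f (DT.pre [a] y)) :
    RatFam f := by
  choose F F1 F2 F3 using h
  refine ⟨insert f (⋃ a, F a), (finite_iUnion F1).insert f, mem_insert _ _, ?_⟩
  rintro g (rfl | hg) a
  · exact ⟨_, Or.inr (mem_iUnion.2 ⟨a, F2 a⟩), [], fun y => by simp⟩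
  · obtain ⟨b, hb⟩ := mem_iUnion.1 hg
    obtain ⟨g', hg', w, hw⟩ := F3 b g hb a
    exact ⟨g', Or.inr (mem_iUnion.2 ⟨b, hg'⟩), w, hw⟩

lemma tk_succ (n : ℕ) (x : ℕ → A) : tk (n + 1) x = tk n x ++ [x n] := by
  simp only [tk]; rw [List.ofFn_succ_last]; simp

lemma RatFam.of_local [Finite A] [Nonempty A] {f : (ℕ → A) → ℕ → A}
    (h : ∀ x, ∃ n, RatFam fun y => f (DT.pre (tk n x) y)) : RatFam f := by
  by_contra hc
  have step : ∀ u : List A, ¬ RatFam (fun y => f (DT.pre u y)) →
      ∃ a, ¬ RatFam (fun y => f (DT.pre (u ++ [a]) y)) := by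
    intro u hu
    by_contra hcon
    push Not at hcon
    exact hu (RatFam.glue fun a => by simpa only [pre_append] using hcon a)
  choose! nx hnx using step
  let U : ℕ → List A := fun n => Nat.rec [] (fun _ u => u ++ [nx u]) n
  have hU : ∀ n, ¬ RatFam (fun y => f (DT.pre (U n) y)) := by
    intro n
    induction n with
    | zero => simpa [U] using hc
    | succ n ih => exact hnx _ ih
  have e : ∀ n, tk n (fun k => nx (U k)) = U n := by
    intro n
    induction n with
    | zero => rfl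
    | succ n ih => rw [tk_succ, ih]
  obtain ⟨n, hn⟩ := h fun k => nx (U k)
  rw [e] at hn
  exact hU n hn

lemma Slid.rat [Finite A] {L : ℕ} {T : (ℕ → A) → ℕ → A} (h : Slid L T) : RatFam T := by
  refine ⟨image2 (fun p m y => dr m (T (pre p y))) {p : List A | p.length ≤ 3 * L} {m | m ≤ L},
    (List.finite_length_le A _).image2 _ (finite_le_nat L), ⟨[], by simp, 0, by simp, ?_⟩, ?_⟩
  · funext y j; simp
  rintro _ ⟨p, hp, m, hm, rfl⟩ a
  simp only [mem_ofPred_eq] at hp hm
  by_cases hl : p.length < 3 * L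
  · exact ⟨_, mem_image2_of_mem (a := p ++ [a]) (b := m) (by simpa using hl) hm, [],
      fun y => by rw [pre_append, pre_nil]⟩
  · obtain ⟨b, q, hq⟩ : ∃ b q, p ++ [a] = b :: q := List.exists_cons_of_ne_nil (by simp)
    have hlen : q.length = 3 * L := by
      have := congrArg List.length hq
      simp at this; omega
    refine ⟨_, mem_image2_of_mem (a := q) (b := L) (by simp [hlen]) (by simp),
      tk (L + 1 - m) (dr m (T (pre (b :: q) fun _ => a))), fun y => ?_⟩
    simp only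
    rw [← pre_append, hq]
    have e1 : tk (L + 1 - m) (dr m (T (pre (b :: q) fun _ => a))) =
        tk (L + 1 - m) (dr m (T (pre (b :: q) y))) := by
      rw [tk_eq_iff]
      intro i hi
      simp only [dr_apply]
      refine h.gen _ _ (i + m) 0 (Or.inl rfl) fun j hj => ?_
      have : j < (b :: q).length := by simp; omega
      rw [add_zero, pre_lt _ _ this, pre_lt _ _ this]
    have e2 : dr L (T (pre q y)) = dr (L + 1 - m) (dr m (T (pre (b :: q) y))) := by
      rw [dr_dr, show L + 1 - m + m = L + 1 by omega, ← h.shift, ← List.singleton_append,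
        pre_append, dr1_pre]
    rw [e1, e2, pre_tk_dr]

lemma Loc.rat [Finite A] [Nonempty A] {L : ℕ} {T f : (ℕ → A) → ℕ → A} (h : Slid L T) (hf : Loc T f) :
    RatFam f := by
  apply RatFam.of_local
  intro x
  obtain ⟨u, u', v, ⟨y₀, hx⟩, hy⟩ := hf x
  refine ⟨u.length, ?_⟩
  rw [hx, tk_pre]
  simp only [hy]
  exact (RatFam.pre v).comp (h.rat.comp (RatFam.pre u'))

variable [TopologicalSpace A]

lemma RatFam.mem [Nontrivial A] {f : (ℕ → A) ≃ₜ (ℕ → A)} (h : RatFam f) : f ∈ RatGroup A := by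
  obtain ⟨F, F1, F2, F3⟩ := h
  obtain ⟨m, ⟨e⟩⟩ := F1.exists_equiv_fin
  choose g' hg' w hw using F3
  refine ⟨m, e ⟨f, F2⟩, fun q a => e ⟨g' _ (e.symm q).2 a, hg' _ _ a⟩,
    fun q a => w _ (e.symm q).2 a, fun x => ?_⟩
  set δ : Fin m → A → Fin m := fun q a => e ⟨g' _ (e.symm q).2 a, hg' _ _ a⟩ with hδ
  set o : Fin m → A → List A := fun q a => w _ (e.symm q).2 a with ho
  have inv : ∀ n y, f (DT.pre (tk n x) y) =
      DT.pre (written δ o (e ⟨f, F2⟩) x n) ((e.symm (state δ (e ⟨f, F2⟩) x n)).1 y) := by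
    intro n
    induction n with
    | zero => intro y; simp [written, state, tk]
    | succ n ih =>
      intro y
      rw [tk_succ, pre_append, ih, written, pre_append, hw _ (e.symm _).2, state]
      have : ∀ q a, e.symm (δ q a) = ⟨g' _ (e.symm q).2 a, hg' _ _ a⟩ := fun q a =>
        e.symm_apply_apply _
      rw [this]
  refine ⟨fun n => ⟨_, by rw [← inv n (dr n x), pre_tk_dr]⟩, fun k => ?_⟩
  by_contra hc
  push Not at hc
  have mono : ∀ a b, ∃ r, written δ o (e ⟨f, F2⟩) x (a + b) = written δ o (e ⟨f, F2⟩) x a ++ r := by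
    intro a b
    induction b with
    | zero => exact ⟨[], by simp⟩
    | succ b ih =>
      obtain ⟨r, hr⟩ := ih
      exact ⟨_, by rw [← add_assoc, written, hr, List.append_assoc]⟩
  obtain ⟨a, b, hab, h⟩ := (finite_univ (α := Fin m × Fin k)).exists_lt_map_eq_of_forall_mem
    (f := fun n : ℕ => (state δ (e ⟨f, F2⟩) x n,
      (⟨(written δ o (e ⟨f, F2⟩) x n).length, hc n⟩ : Fin k))) fun _ => mem_univ _
  simp only [Prod.mk.injEq, Fin.mk.injEq] at h
  obtain ⟨c, rfl⟩ : ∃ c, b = a + c := ⟨b - a, by omega⟩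
  obtain ⟨r, hr⟩ := mono a c
  have : r = [] := by
    have := h.2
    rw [hr, List.length_append] at this
    exact List.length_eq_zero_iff.1 (by omega)
  rw [this, List.append_nil] at hr
  obtain ⟨z, hz⟩ := exists_ne (x a)
  have e1 := inv a fun _ => z
  rw [h.1, ← hr, ← inv] at e1
  have e2 := congrFun (f.injective e1) a
  rw [pre_tk_lt _ _ hab, pre_ge _ _ (by simp)] at e2
  exact hz e2

variable [DiscreteTopology A]

lemma Slid.cont {L : ℕ} {T : (ℕ → A) → ℕ → A} (h : Slid L T) : Continuous T := by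
  refine continuous_pi fun m => continuous_iff_continuousAt.2 fun x => ?_
  refine (continuousAt_const (y := T x m)).congr ?_
  filter_upwards [eventually_agree x (m + 2 * L)] with y hy
  exact (h.gen x y m 0 (Or.inl rfl) hy).symm

lemma cone_nhds {x : ℕ → A} {u : List A} {y₀ : ℕ → A} (h : x = pre u y₀) :
    ∀ᶠ x' in 𝓝 x, x' = pre u (dr u.length x') := by
  filter_upwards [eventually_agree x u.length] with x' hx' using pre_of_agree h hx'

lemma Loc.cont {L : ℕ} {T f : (ℕ → A) → ℕ → A} (h : Slid L T) (hf : Loc T f) : Continuous f := by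
  refine continuous_iff_continuousAt.2 fun x => ?_
  obtain ⟨u, u', v, ⟨y₀, hx⟩, hy⟩ := hf x
  have hc : Continuous fun x' : ℕ → A => pre v (T (pre u' (dr u.length x'))) :=
    (continuous_pre _).comp (h.cont.comp ((continuous_pre _).comp (continuous_dr _)))
  refine hc.continuousAt.congr ?_
  filter_upwards [cone_nhds hx] with x' hx'
  conv_rhs => rw [hx', hy]

section tail
variable {Y : Type} [TopologicalSpace Y]

def TE (f g : Y → ℕ → A) : Prop := ∀ x, ∃ m n, ∀ᶠ y in 𝓝 x, dr m (f y) = dr n (g y)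

lemma TE.trans {f g h : Y → ℕ → A} (a : TE f g) (b : TE g h) : TE f h := by
  intro x
  obtain ⟨m, n, h1⟩ := a x
  obtain ⟨m', n', h2⟩ := b x
  refine ⟨m' + m, n + n', ?_⟩
  filter_upwards [h1, h2] with y e1 e2
  rw [← dr_dr, e1, dr_dr, add_comm, ← dr_dr, e2, dr_dr]

lemma TE.comp {Y' : Type} [TopologicalSpace Y'] {f g : Y → ℕ → A} (a : TE f g) {k : Y' → Y}
    (hk : Continuous k) : TE (fun y => f (k y)) fun y => g (k y) := by
  intro x
  obtain ⟨m, n, h1⟩ := a (k x)
  exact ⟨m, n, hk.continuousAt.eventually h1⟩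

lemma TE.left {L : ℕ} {T : (ℕ → A) → ℕ → A} (h : Slid L T) {f g : Y → ℕ → A} (a : TE f g) :
    TE (fun y => T (f y)) fun y => T (g y) := by
  intro x
  obtain ⟨m, n, h1⟩ := a x
  refine ⟨L + m, L + n, ?_⟩
  filter_upwards [h1] with y e
  rw [← h.shift, e, h.shift]

lemma Loc.te {L : ℕ} {T f : (ℕ → A) → ℕ → A} (h : Slid L T) (hf : Loc T f) : TE f T := by
  intro x
  obtain ⟨u, u', v, ⟨y₀, hx⟩, hy⟩ := hf x
  refine ⟨L + u'.length + v.length, L + u.length, ?_⟩
  filter_upwards [cone_nhds hx] with x' hx'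
  rw [← h.shift, ← dr_dr]
  conv_lhs => rw [hx', hy, dr_pre, ← h.shift, dr_pre]

end tail
end slid

section HT
variable {d k : ℕ}

lemma HT_iff (f : (Fin k × (ℕ → Fin d)) ≃ₜ (Fin k × (ℕ → Fin d))) :
    f ∈ HigmanThompson d k ↔ TE (fun y => (f y).2) fun y => y.2 := by
  classical
  have nb : ∀ (x : Fin k × (ℕ → Fin d)) (u : List (Fin d)) y₀, x.2 = pre u y₀ →
      ∀ᶠ x' in 𝓝 x, x' = (x.1, pre u (dr u.length x'.2)) := by
    intro x u y₀ h
    filter_upwards [continuous_snd.continuousAt.eventually (cone_nhds h),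
      continuous_fst.continuousAt.eventually ((isOpen_discrete {x.1}).mem_nhds rfl)] with x' a b
    exact Prod.ext b a
  constructor
  · rintro ⟨Q, h1, h2⟩ x
    obtain ⟨p, hp, y₀, hx⟩ := h1 x
    refine ⟨p.2.2.length, p.1.2.length, ?_⟩
    filter_upwards [nb x p.1.2 y₀ (by rw [hx])] with x' hx'
    have : x.1 = p.1.1 := by rw [hx]
    conv_lhs => rw [hx', this, h2 p hp, dr_pre]
  · intro h
    have loc : ∀ x : Fin k × (ℕ → Fin d), ∃ (K : ℕ) (j : Fin k) (v : List (Fin d)),
        ∀ y, f (x.1, pre (tk K x.2) y) = (j, pre v y) := by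
      intro x
      obtain ⟨m, n, h1⟩ := h x
      have c2 : Continuous fun y => (f y).2 := continuous_snd.comp f.continuous
      have c1 : Continuous fun y => (f y).1 := continuous_fst.comp f.continuous
      have h2 := (c2.continuousAt (x := x)).eventually (eventually_agree (f x).2 m)
      have h3 := (c1.continuousAt (x := x)).eventually
        ((isOpen_discrete {(f x).1}).mem_nhds rfl)
      have c3 : ContinuousAt (fun y : ℕ → Fin d => (x.1, y)) x.2 :=
        (continuous_const.prodMk continuous_id).continuousAt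
      obtain ⟨K, hK⟩ := exists_agree (c3.eventually (h1.and (h2.and h3)))
      refine ⟨K + n, (f x).1, tk m (f x).2 ++ tk K (dr n x.2), fun y => ?_⟩
      obtain ⟨a1, a2, a3⟩ := hK (pre (tk (K + n) x.2) y) fun i hi => pre_tk_lt _ _ (by omega)
      refine Prod.ext a3 ?_
      simp only at a1 a2 ⊢
      rw [pre_append, ← tk_eq_iff.2 a2]
      conv_lhs => rw [← pre_tk_dr m (f (x.1, pre (tk (K + n) x.2) y)).2, a1]
      congr 1
      funext j
      simp only [dr_apply]
      by_cases hj : j < K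
      · rw [pre_tk_lt _ _ hj, pre_tk_lt _ _ (by omega)]; rfl
      · rw [pre_ge _ _ (by simp; omega), pre_ge _ _ (by simp; omega)]
        simp only [tk_length]; congr 1; omega
    choose K j v hv using loc
    obtain ⟨t, ht⟩ := isCompact_univ.elim_nhds_subcover'
      (fun (x : Fin k × (ℕ → Fin d)) _ =>
        {x' | x' = (x.1, pre (tk (K x) x.2) (dr (tk (K x) x.2).length x'.2))})
      (fun x _ => nb x _ _ (pre_tk_dr (K x) x.2).symm)
    refine ⟨t.image fun x => ((x.1.1, tk (K x.1) x.1.2), (j x.1, v x.1)), fun x => ?_,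
      fun p hp y => ?_⟩
    · obtain ⟨z, hz, hxz⟩ := mem_iUnion₂.1 (ht (mem_univ x))
      exact ⟨_, Finset.mem_image_of_mem _ hz, _, hxz⟩
    · obtain ⟨z, -, rfl⟩ := Finset.mem_image.1 hp
      exact hv z y

lemma mem_AutHT {L : ℕ} {T g : (ℕ → Fin d) → ℕ → Fin d} (h : Slid L T) (hg : Loc T g)
    (φ : (Fin k × (ℕ → Fin d)) ≃ₜ (Fin k × (ℕ → Fin d))) (hφ : ∀ y, (φ y).2 = g y.2)
    (h2 : φ * φ = 1) : φ ∈ AutHT d k := by
  have hi : φ⁻¹ = φ := inv_eq_of_mul_eq_one_right h2
  have one : ∀ f, f ∈ HigmanThompson d k → φ * f * φ⁻¹ ∈ HigmanThompson d k := by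
    intro f hf
    rw [HT_iff] at hf ⊢
    rw [hi]
    have t1 := (hg.te h).comp (k := fun y => (f (φ y)).2)
      (continuous_snd.comp (f.continuous.comp φ.continuous))
    have t2 := (hf.comp φ.continuous).left h
    have t3 := ((hg.te h).comp (k := fun y : Fin k × (ℕ → Fin d) => y.2) continuous_snd).left h
    simp only [hφ] at t2
    simp only [h.inv] at t3
    simpa only [Homeomorph.mul_apply, hφ] using t1.trans (t2.trans t3)
  intro f
  refine ⟨one f, fun hf => ?_⟩
  have := one _ hf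
  rwa [hi, show φ * (φ * f * φ) * φ = (φ * φ) * f * (φ * φ) by simp only [mul_assoc], h2, one_mul,
    mul_one] at this

end HT

section gen
variable {A : Type} [Fintype A] [Nontrivial A] [TopologicalSpace A] [DiscreteTopology A]

theorem exists_gen : ∃ (F : Type) (L : ℕ) (T g : F → (ℕ → A) → ℕ → A),
    (∀ i, Slid L (T i)) ∧ (∀ i, Loc (T i) (g i)) ∧ (∀ i x, g i (g i x) = x) ∧
    ∀ (X : Type) [TopologicalSpace X] [CompactSpace X] [T2Space X] (s : F → (X ≃ₜ X))
      (pr : X → ℕ → A) (ι : (ℕ → A) → X), Continuous pr → Continuous ι → (∀ i, s i * s i = 1) →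
      (∀ i x, pr (s i x) = g i (pr x)) → (∀ i y, s i (ι y) = ι (g i y)) →
      ¬ PreservesProb (Subgroup.closure (range s)) ∧ ¬ HasPingPong (Subgroup.closure (range s)) := by
  classical
  obtain ⟨p, hp1, hp⟩ := Nat.exists_infinite_primes (Fintype.card (A × A × A) + 6)
  have : Fact p.Prime := ⟨hp⟩
  obtain ⟨r, enc, dec, -, hl, hd⟩ := exists_code (Fin 3 → ZMod p × ZMod p)
  obtain ⟨L, cw, hc⟩ := exists_Code (A := A) enc dec hl hd
  set T : ZMod p → (ℕ → A) → ℕ → A := fun i =>
    TT L cw 0 (fun a k => ln i (a k)) fun c a k => rf i (c k) (a k) with hT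
  have hS : ∀ i, Slid L (T i) := fun i => ⟨fun x y m k h1 h2 => TT_gen _ _ _ hc h1 h2,
    TT_TT _ _ _ hc (fun c a => funext fun k => rf_rf _ _ _) fun c a => funext fun k => ln_rf _ _ _⟩
  set B : ZMod p → (ℕ → A) → Prop := fun i x => ∃ a, Occ L cw x 0 a ∧ ∃ k, ln i (a k) = i ^ 2
    with hB
  have B1 : ∀ i x y, tk L x = tk L y → B i x → B i y := by
    rintro i x y h ⟨a, h1, h2⟩
    refine ⟨a, fun j hj => ?_, h2⟩
    rw [← h1 j hj, zero_add, tk_eq_iff.1 h j hj]
  have B2 : ∀ i x, B i x → B i (T i x) := by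
    rintro i x ⟨a, h1, k, h2⟩
    exact ⟨_, TT_occ _ _ _ hc h1, k, by rw [ln_rf]; exact h2⟩
  have hf : ∀ u : List A, ∃ f : A × A × A → ZMod p, Function.Injective f ∧
      ∀ ρ x, tk L x = u → ¬ B (f ρ) x := by
    intro u
    by_cases h : ∃ a x, tk L x = u ∧ Occ L cw x 0 a
    · obtain ⟨a, x, h1, h2⟩ := h
      obtain ⟨f, f1, f2⟩ := exists_roles (R := A × A × A)
        (Finset.univ.biUnion fun k : Fin 3 => Finset.univ.filter fun i : ZMod p => ln i (a k) = i ^ 2)
        (by
          have := Finset.card_biUnion_le_card_mul Finset.univ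
            (fun k : Fin 3 => Finset.univ.filter fun i : ZMod p => ln i (a k) = i ^ 2) 2
            fun k _ => busy_card (a k)
          rw [ZMod.card]
          simp only [Finset.card_univ, Fintype.card_fin] at this
          omega)
      refine ⟨f, f1, fun ρ y hy hb => f2 ρ ?_⟩
      obtain ⟨b, b1, k, b2⟩ := B1 _ y x (hy.trans h1.symm) hb
      rw [occ_inj hc b1 h2] at b2
      simp only [Finset.mem_biUnion, Finset.mem_univ, Finset.mem_filter, true_and]
      exact ⟨k, b2⟩
    · obtain ⟨f, f1, -⟩ := exists_roles (R := A × A × A) (∅ : Finset (ZMod p))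
        (by rw [ZMod.card]; simp only [Finset.card_empty]; omega)
      exact ⟨f, f1, fun ρ y hy ⟨a, h1, _⟩ => h ⟨a, y, hy, h1⟩⟩
  choose f f1 f2 using hf
  set g : ZMod p → (ℕ → A) → ℕ → A := fun i x => if B i x then T i x else
    pre (tk L x) (tau (T i) (Function.invFun (f (tk L x)) i) (dr L x)) with hg
  have g1 : ∀ i x, B i x → g i x = T i x := fun i x h => if_pos h
  have g2 : ∀ i x, ¬ B i x →
      g i x = pre (tk L x) (tau (T i) (Function.invFun (f (tk L x)) i) (dr L x)) :=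
    fun i x h => if_neg h
  have ginv : ∀ i x, g i (g i x) = x := by
    intro i x
    by_cases h : B i x
    · rw [g1 i x h, g1 i _ (B2 i x h), (hS i).inv]
    · rw [g2 i x h, g2 i _ fun h' => h (B1 i _ _ (tk_pre_tk _ _ _) h'), tk_pre_tk, dr_pre_tk,
        tau_invol (hS i).inv, pre_tk_dr]
  refine ⟨ZMod p, L, T, g, hS, fun i x => ?_, ginv, ?_⟩
  · by_cases h : B i x
    · exact ⟨tk L x, tk L x, [], ⟨_, (pre_tk_dr L x).symm⟩, fun y => by
        rw [g1 i _ (B1 i _ _ (tk_pre_tk _ _ _).symm h), pre_nil]⟩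
    · obtain ⟨u, v, ⟨y₀, hy⟩, hv⟩ := tau_local (T i) (Function.invFun (f (tk L x)) i) (dr L x)
      refine ⟨tk L x ++ u, [], tk L x ++ v, ⟨y₀, by rw [pre_append, ← hy, pre_tk_dr]⟩, fun y => ?_⟩
      rw [pre_append, g2 i _ fun h' => h (B1 i _ _ (tk_pre_tk _ _ _) h'), tk_pre_tk, dr_pre_tk, hv,
        pre_append, pre_nil]
  intro X _ _ _ s pr ι cp cι hs h1 h2
  constructor
  · refine no_measure _ (fun x (j : Fin L) => pr x j) (fun x => pr x L) (fun x => pr x (L + 1))
      ?_ ?_ ?_ ?_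
    · intro u
      exact (isOpen_discrete {u}).preimage
        (continuous_pi fun j : Fin L => (continuous_apply (j : ℕ)).comp cp)
    · exact fun a => (isOpen_at L a).preimage cp
    · exact fun a => (isOpen_at (L + 1) a).preimage cp
    · intro u a b c hab
      refine ⟨s (f (List.ofFn u) (a, b, c)), Subgroup.subset_closure ⟨_, rfl⟩, ?_⟩
      have k0 : ∀ y : ℕ → A, (fun j : Fin L => y j) = u ↔ tk L y = List.ofFn u := fun y =>
        List.ofFn_inj.symm
      have k1 : ∀ y : ℕ → A, tk L y = List.ofFn u → g (f (List.ofFn u) (a, b, c)) y =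
          pre (tk L y) (tau (T (f (List.ofFn u) (a, b, c))) (a, b, c) (dr L y)) := by
        intro y hy
        rw [g2 _ _ (f2 _ _ y hy), hy, Function.leftInverse_invFun (f1 _)]
      have k2 : ∀ y : ℕ → A, tk L y = List.ofFn u →
          tk L (g (f (List.ofFn u) (a, b, c)) y) = List.ofFn u := by
        intro y hy
        rw [k1 y hy, tk_pre_tk, hy]
      have k3 : ∀ y : ℕ → A, tk L y = List.ofFn u →
          (g (f (List.ofFn u) (a, b, c)) y L = a ↔ y L = b ∧ y (L + 1) = c) := by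
        intro y hy
        have a2 := pre_add (tk L y) (tau (T (f (List.ofFn u) (a, b, c))) (a, b, c) (dr L y)) 0
        rw [tk_length, zero_add] at a2
        rw [k1 y hy, a2, tau_role hab]
        simp only [dr_apply, zero_add]
        rw [add_comm 1 L]
      intro x
      simp only [k0, h1]
      constructor
      · rintro ⟨a1, a2⟩
        have h4 := k2 _ a1
        rw [ginv] at h4
        exact ⟨h4, (k3 _ h4).1 a2⟩
      · rintro ⟨a1, a2⟩
        exact ⟨k2 _ a1, (k3 _ a1).2 a2⟩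
  · refine CA.no_pp (E := fun z => ι (Ec L cw fun q k => z k q)) ⟨?_, ?_⟩ hs
    · intro z O hO hz
      obtain ⟨K, hK⟩ := exists_agree ((hO.preimage cι).mem_nhds hz)
      refine ⟨K, fun z' hz' => hK _ fun i hi => ?_⟩
      simp only [Ec]
      congr 1
      funext k
      exact hz' k _ (lt_of_le_of_lt (Nat.div_le_self _ _) hi)
    · intro z i hz
      have := occ_Ec hc (fun q k => z k q) 0
      rw [zero_mul] at this
      rw [h2, g1 i _ ⟨_, this, hz⟩, hT]
      simp only
      rw [TT_Ec _ _ _ hc]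
      rfl

theorem rat_not : ¬ DynTits (RatGroup A) := by
  obtain ⟨F, L, T, g, hS, hL, hi, H⟩ := exists_gen (A := A)
  let s : F → ((ℕ → A) ≃ₜ (ℕ → A)) := fun i =>
    ⟨⟨g i, g i, hi i, hi i⟩, (hL i).cont (hS i), (hL i).cont (hS i)⟩
  have hs : ∀ i, s i * s i = 1 := fun i => Homeomorph.ext (hi i)
  obtain ⟨h1, h2⟩ := H _ s id id continuous_id continuous_id hs (fun _ _ => rfl) fun _ _ => rfl
  intro h
  refine (h _ fun e he => ?_).elim h1 h2
  apply RatFam.mem
  refine closure_subset _ hs (fun e => RatFam e) ?_ ?_ he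
  · have := RatFam.pre ([] : List A)
    rwa [show pre ([] : List A) = fun y => y from funext pre_nil] at this
  · intro a x hx; exact ((hL a).rat (hS a)).comp hx

end gen

theorem aut_not (d k : ℕ) (hd : 2 ≤ d) (hk : 1 ≤ k) : ¬ DynTits (AutHT d k) := by
  have : Nontrivial (Fin d) := Fin.nontrivial_iff_two_le.2 hd
  obtain ⟨F, L, T, g, hS, hL, hi, H⟩ := exists_gen (A := Fin d)
  let s₀ : F → ((ℕ → Fin d) ≃ₜ (ℕ → Fin d)) := fun i =>
    ⟨⟨g i, g i, hi i, hi i⟩, (hL i).cont (hS i), (hL i).cont (hS i)⟩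
  let s : F → ((Fin k × (ℕ → Fin d)) ≃ₜ (Fin k × (ℕ → Fin d))) := fun i =>
    (Homeomorph.refl _).prodCongr (s₀ i)
  have hs : ∀ i, s i * s i = 1 := fun i => Homeomorph.ext fun x => Prod.ext rfl (hi i x.2)
  obtain ⟨h1, h2⟩ := H _ s Prod.snd (fun y => (⟨0, hk⟩, y)) continuous_snd
    (continuous_const.prodMk continuous_id) hs (fun _ _ => rfl) fun _ _ => rfl
  intro h
  refine (h _ fun e he => ?_).elim h1 h2
  refine closure_subset _ hs (fun e => e ∈ AutHT d k) ?_ ?_ he
  · intro f; simp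
  · intro a x hx f
    rw [hx f, mem_AutHT (hS a) (hL a) (s a) (fun _ => rfl) (hs a), mul_inv_rev]
    simp only [mul_assoc]

end Pool.Agent.H155Z.DT
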