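import Pool.Agent.H155Z.DTRole

set_option linter.unusedSectionVars false

open Set

namespace Pool.Agent.H155Z.DT

section ca
variable {F : Type} [Field F]

def ln (i : F) (z : F × F) : F := z.2 - i * z.1

def rf (i c : F) (z : F × F) : F × F := (c - z.1, z.2 + i * (c - 2 * z.1))

lemma rf_rf (i c : F) (z : F × F) : rf i c (rf i c z) = z := by
  ext <;> simp only [rf] <;> ring

lemma ln_rf (i c : F) (z : F × F) : ln i (rf i c z) = ln i z := by
  simp only [rf, ln]; ring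

def ca (i : F) (z : ℕ → F × F) : ℕ → F × F := fun n => rf i (ln i (z (n + 1))) (z n)

lemma ca_ca (i : F) : Function.Involutive (ca i) := by
  intro z; funext n; simp only [ca, ln_rf, rf_rf]

def cae (i : F) : Equiv.Perm (ℕ → F × F) := (ca_ca i).toPerm

lemma cae_apply (i : F) (z : ℕ → F × F) : cae i z = ca i z := rfl

def meet (i c j d : F) : F × F := ((c - d) / (j - i), c + i * ((c - d) / (j - i)))

lemma ln_meet₁ (i c j d : F) : ln i (meet i c j d) = c := by simp [ln, meet]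

lemma ln_meet₂ {i j : F} (h : i ≠ j) (c d : F) : ln j (meet i c j d) = d := by
  have : j - i ≠ 0 := sub_ne_zero.2 h.symm
  simp only [ln, meet]; field_simp; ring

def lv (ι : ℤ → F) : ℕ → ℤ → F
  | 0 => fun t => ι t ^ 2
  | n + 1 => fun t => (meet (ι (t - 1)) (lv ι n (t - 1)) (ι t) (lv ι n t)).1 +
      (meet (ι t) (lv ι n t) (ι (t + 1)) (lv ι n (t + 1))).1

def Z (ι : ℤ → F) (t : ℤ) : ℕ → F × F :=
  fun n => meet (ι (t - 1)) (lv ι n (t - 1)) (ι t) (lv ι n t)

lemma ln_Z {ι : ℤ → F} (h : Red ι) (t : ℤ) (n : ℕ) : ln (ι t) (Z ι t n) = lv ι n t := by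
  apply ln_meet₂
  have := h (t - 1)
  rwa [sub_add_cancel] at this

lemma ca_Z {ι : ℤ → F} (h : Red ι) (t : ℤ) : ca (ι t) (Z ι t) = Z ι (t + 1) := by
  funext n
  have h1 := ln_Z h t n
  have h2 : ln (ι t) (Z ι (t + 1) n) = lv ι n t := by
    simp only [Z, add_sub_cancel_right, ln_meet₁]
  have h3 : lv ι (n + 1) t = (Z ι t n).1 + (Z ι (t + 1) n).1 := by
    simp only [lv, Z, add_sub_cancel_right]
  simp only [ca]
  rw [ln_Z h, h3]
  simp only [ln] at h1 h2
  ext
  · simp [rf]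
  · simp only [rf]; linear_combination h1 - h2

lemma P_Z {ι : ℤ → F} (h : Red ι) (m : ℕ) : P cae ι m (Z ι 0) = Z ι m := by
  induction m with
  | zero => rfl
  | succ m ih => rw [P, Equiv.Perm.mul_apply, ih, cae_apply, ca_Z h]; push_cast; rfl

lemma lv_per {ι : ℤ → F} {N : ℕ} (hp : ∀ t, ι (t + N) = ι t) (n : ℕ) :
    ∀ t, lv ι n (t + N) = lv ι n t := by
  induction n with
  | zero => intro t; simp [lv, hp]
  | succ n ih =>
    intro t
    simp only [lv]
    rw [show t + N - 1 = t - 1 + N by ring, show t + N + 1 = t + 1 + N by ring]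
    simp only [hp, ih]

lemma Z_per {ι : ℤ → F} {N : ℕ} (hp : ∀ t, ι (t + N) = ι t) (t : ℤ) : Z ι (t + N) = Z ι t := by
  funext n
  simp only [Z]
  rw [show t + N - 1 = t - 1 + N by ring]
  simp only [hp, lv_per hp]

lemma P_zero (ι : ℤ → F) (m K : ℕ) {y : ℕ → F × F} (hy : ∀ n, K ≤ n → y n = 0) :
    ∀ n, K ≤ n → P cae ι m y n = 0 := by
  induction m with
  | zero => exact hy
  | succ m ih =>
    intro n hn
    rw [P, Equiv.Perm.mul_apply, cae_apply, ca, ih n hn, ih (n + 1) (by omega)]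
    simp [rf, ln]

variable {X : Type} [TopologicalSpace X]

structure CA (s : F → (X ≃ₜ X)) (E : (Fin 3 → ℕ → F × F) → X) : Prop where
  cont : ∀ z (O : Set X), IsOpen O → E z ∈ O →
    ∃ K : ℕ, ∀ z', (∀ k, ∀ n < K, z' k n = z k n) → E z' ∈ O
  busy : ∀ z i, (∃ k, ln i (z k 0) = i ^ 2) → s i (E z) = E fun k => ca i (z k)

variable {s : F → (X ≃ₜ X)} {E : (Fin 3 → ℕ → F × F) → X}

lemma CA.run (C : CA s E) {ι : ℤ → F} (h : Red ι) {z : Fin 3 → ℕ → F × F} {k : Fin 3}
    (hz : z k = Z ι 0) (m : ℕ) : P s ι m (E z) = E fun k => P cae ι m (z k) := by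
  induction m with
  | zero => rfl
  | succ m ih =>
    rw [P, Homeomorph.mul_apply, ih, C.busy]
    · rfl
    · exact ⟨k, by rw [hz, P_Z h, ln_Z h]; rfl⟩

lemma CA.mem [Finite F] [CompactSpace X] [T2Space X] (C : CA s E) {ω : ℤ → F} (h : Red ω) {N : ℕ}
    (hp : ∀ t, ω (t + N) = ω t) {U V : Set X} (q : PP (P s ω N) U V)
    {z : Fin 3 → ℕ → F × F} {k : Fin 3} (hz : z k = Z ω 0) : E z ∈ U ∪ V := by
  apply q.closure_per
  rw [mem_closure_iff]
  intro O hO hx
  obtain ⟨K, hK⟩ := C.cont z O hO hx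
  set z' : Fin 3 → ℕ → F × F := fun k' n => if k' = k ∨ n < K then z k' n else 0 with hz'
  refine ⟨E z', hK _ fun k' n hn => by simp [hz', hn], ?_⟩
  have f1 : {y : ℕ → F × F | ∀ n, K ≤ n → y n = 0}.Finite := by
    refine Finite.of_injOn (f := fun y (i : Fin K) => y i) (t := univ) (mapsTo_univ _ _) ?_
      finite_univ
    intro y hy y' hy' e
    funext n
    by_cases hn : n < K
    · exact congrFun e ⟨n, hn⟩
    · rw [hy n (by omega), hy' n (by omega)]
  have f2 : {w : Fin 3 → ℕ → F × F | ∀ k', w k' ∈ ({Z ω 0} : Set (ℕ → F × F)) ∪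
      {y | ∀ n, K ≤ n → y n = 0}}.Finite := Finite.pi' fun _ => (finite_singleton _).union f1
  have hk : z' k = Z ω 0 := by rw [← hz]; funext n; simp [hz']
  apply per_of_finite (f2.image E)
  intro j
  rw [← P_mul s hp, C.run h hk]
  refine mem_image_of_mem _ fun k' => ?_
  by_cases hk' : k' = k
  · left
    rw [hk', hk, P_Z h, mem_singleton_iff]
    induction j with
    | zero => simp
    | succ j ih => rw [← ih, ← Z_per hp ((j * N : ℕ) : ℤ)]; congr 1; push_cast; ring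
  · right
    apply P_zero
    intro n hn
    simp only [hz']; rw [if_neg (by omega)]

theorem CA.no_pp [Finite F] [CompactSpace X] [T2Space X] (C : CA s E) (hs : ∀ a, s a * s a = 1) :
    ¬ HasPingPong (Subgroup.closure (range s)) := by
  have : Nonempty X := ⟨E fun _ _ => 0⟩
  apply no_pingpong s hs
  intro ω ω' N N' _ _ hω hω' hp hp' e he U₁ V₁ U₂ V₂ q₁ q₂
  obtain ⟨η, m, hη, rfl⟩ := exists_red s hs he
  refine ⟨E ![Z ω 0, (P cae η m)⁻¹ (Z ω' 0), Z η 0], C.mem hω hp q₁ (k := 0) rfl, ?_⟩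
  rw [C.run hη (k := 2) rfl]
  exact C.mem hω' hp' q₂ (k := 1) (by simp)

lemma busy_card [Fintype F] [DecidableEq F] (z : F × F) :
    (Finset.univ.filter fun i : F => ln i z = i ^ 2).card ≤ 2 := by
  by_contra hc
  obtain ⟨a, b, c, ha, hb, hc, h1, h2, h3⟩ := Finset.two_lt_card_iff.1 (not_le.1 hc)
  simp only [Finset.mem_filter, Finset.mem_univ, true_and, ln] at ha hb hc
  have e1 : (a - b) * (a + b + z.1) = 0 := by linear_combination hb - ha
  have e2 : (a - c) * (a + c + z.1) = 0 := by linear_combination hc - ha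
  have f1 := (mul_eq_zero.1 e1).resolve_left (sub_ne_zero.2 h1)
  have f2 := (mul_eq_zero.1 e2).resolve_left (sub_ne_zero.2 h2)
  exact h3 (by linear_combination f1 - f2)

end ca

section code
variable {A Y C : Type}

/-- A block code whose words never overlap. -/
structure Code (L : ℕ) (cw : Y → ℕ → A) : Prop where
  pos : 0 < L
  inj : ∀ a b, (∀ j < L, cw a j = cw b j) → a = b
  sep : ∀ a b j, 0 < j → j < L → ¬ ∀ i, j + i < L → cw a (j + i) = cw b i

lemma exists_Code [Nontrivial A] {r : ℕ} (enc : Y → List Bool) (dec : List Bool → Y)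
    (hl : ∀ c, (enc c).length = r) (hd : ∀ c, dec (enc c) = c) :
    ∃ (L : ℕ) (cw : Y → ℕ → A), Code L cw := by
  obtain ⟨o, e, hoe⟩ := exists_pair_ne A
  refine ⟨2 * r + 3, fun a j => if j < 2 then e else if j % 2 = 0 then o else
    if (enc a).getD ((j - 3) / 2) false = true then e else o, by omega, ?_, ?_⟩
  · intro a b h
    rw [← hd a, ← hd b]
    congr 1
    apply List.ext_getElem (by rw [hl, hl])
    intro i h1 h2
    have := h (2 * i + 3) (by rw [hl] at h1; omega)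
    simp only [show ¬ 2 * i + 3 < 2 by omega, show ¬ (2 * i + 3) % 2 = 0 by omega, if_false,
      show (2 * i + 3 - 3) / 2 = i by omega, List.getD_eq_getElem _ _ h1,
      List.getD_eq_getElem _ _ h2] at this
    cases h3 : (enc a)[i] <;> cases h4 : (enc b)[i] <;> simp [h3, h4, hoe, hoe.symm] at this ⊢
  · intro a b j h0 h1 h
    by_cases hj : j % 2 = 0
    · have := h 0 (by omega)
      simp only [add_zero, show ¬ j < 2 by omega, hj, if_true, if_false, Nat.ofNat_pos] at this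
      exact hoe this
    · have := h 1 (by omega)
      simp only [show ¬ j + 1 < 2 by omega, show (j + 1) % 2 = 0 by omega, if_true, if_false,
        Nat.one_lt_ofNat] at this
      exact hoe this

variable (L : ℕ) (cw : Y → ℕ → A) (y₀ : Y) (ctl : Y → C) (θ : C → Y → Y)

def Occ (x : ℕ → A) (n : ℕ) (a : Y) : Prop := ∀ j < L, x (n + j) = cw a j

open Classical in
noncomputable def sym (x : ℕ → A) (n : ℕ) : Y := if h : ∃ a, Occ L cw x n a then h.choose else y₀

open Classical in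
noncomputable def TT (x : ℕ → A) : ℕ → A := fun m =>
  if h : ∃ p : ℕ × Y, p.1 ≤ m ∧ m < p.1 + L ∧ Occ L cw x p.1 p.2 then
    cw (θ (ctl (sym L cw y₀ x (h.choose.1 + L))) h.choose.2) (m - h.choose.1)
  else x m

variable {L cw} (hc : Code L cw)
include hc

lemma occ_inj {x : ℕ → A} {n : ℕ} {a b : Y} (h : Occ L cw x n a) (h' : Occ L cw x n b) : a = b :=
  hc.inj a b fun j hj => by rw [← h j hj, h' j hj]

lemma occ_sep {x : ℕ → A} {n n' : ℕ} {a b : Y} (h : Occ L cw x n a) (h' : Occ L cw x n' b)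
    (hn : n < n') : n + L ≤ n' := by
  by_contra hcon
  refine hc.sep a b (n' - n) (by omega) (by omega) fun i hi => ?_
  rw [← h _ hi, ← h' i (by omega)]; congr 1; omega

lemma occ_eq {x : ℕ → A} {n n' m : ℕ} {a b : Y} (h : Occ L cw x n a) (h' : Occ L cw x n' b)
    (h1 : n ≤ m) (h2 : m < n + L) (h3 : n' ≤ m) (h4 : m < n' + L) : n = n' := by
  rcases lt_trichotomy n n' with h5 | h5 | h5
  · have := occ_sep hc h h' h5; omega
  · exact h5
  · have := occ_sep hc h' h h5; omega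

lemma sym_occ {x : ℕ → A} {n : ℕ} {a : Y} (h : Occ L cw x n a) : sym L cw y₀ x n = a := by
  have h' : ∃ a, Occ L cw x n a := ⟨a, h⟩
  simp only [sym]; rw [dif_pos h']; exact occ_inj hc h'.choose_spec h

lemma TT_occ {x : ℕ → A} {n : ℕ} {a : Y} (h : Occ L cw x n a) :
    Occ L cw (TT L cw y₀ ctl θ x) n (θ (ctl (sym L cw y₀ x (n + L))) a) := by
  intro j hj
  have h' : ∃ p : ℕ × Y, p.1 ≤ n + j ∧ n + j < p.1 + L ∧ Occ L cw x p.1 p.2 :=
    ⟨(n, a), by simp, by simpa using hj, h⟩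
  obtain ⟨h1, h2, h3⟩ := h'.choose_spec
  have e1 : h'.choose.1 = n := occ_eq hc h3 h h1 h2 (by omega) (by omega)
  have e2 : h'.choose.2 = a := by rw [e1] at h3; exact occ_inj hc h3 h
  simp only [TT]
  rw [dif_pos h', e1, e2, Nat.add_sub_cancel_left]

omit hc in
lemma TT_out {x : ℕ → A} {m : ℕ} (h : ¬ ∃ p : ℕ × Y, p.1 ≤ m ∧ m < p.1 + L ∧ Occ L cw x p.1 p.2) :
    TT L cw y₀ ctl θ x m = x m := by
  simp only [TT]; rw [dif_neg h]

lemma occ_of_TT {x : ℕ → A} {n : ℕ} {b : Y} (h : Occ L cw (TT L cw y₀ ctl θ x) n b) :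
    ∃ a, Occ L cw x n a := by
  by_contra hcon
  refine hcon ⟨b, fun j hj => ?_⟩
  rw [← h j hj, TT_out]
  rintro ⟨⟨n', a⟩, h1, h2, h3⟩
  have := occ_eq hc (TT_occ y₀ ctl θ hc h3) h h1 h2 (by omega) (by omega)
  simp only at this
  subst this
  exact hcon ⟨a, h3⟩

lemma TT_TT (h1 : ∀ c a, θ c (θ c a) = a) (h2 : ∀ c a, ctl (θ c a) = ctl a) (x : ℕ → A) :
    TT L cw y₀ ctl θ (TT L cw y₀ ctl θ x) = x := by
  have hs : ∀ n, ctl (sym L cw y₀ (TT L cw y₀ ctl θ x) n) = ctl (sym L cw y₀ x n) := by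
    intro n
    by_cases h : ∃ a, Occ L cw x n a
    · obtain ⟨a, h⟩ := h
      rw [sym_occ y₀ hc (TT_occ y₀ ctl θ hc h), sym_occ y₀ hc h, h2]
    · simp only [sym]
      rw [dif_neg h, dif_neg]
      rintro ⟨b, hb⟩; exact h (occ_of_TT y₀ ctl θ hc hb)
  funext m
  by_cases h : ∃ p : ℕ × Y, p.1 ≤ m ∧ m < p.1 + L ∧ Occ L cw x p.1 p.2
  · obtain ⟨⟨n, a⟩, a1, a2, a3⟩ := h
    simp only at a1 a2 a3
    have := TT_occ y₀ ctl θ hc (TT_occ y₀ ctl θ hc a3) (m - n) (by omega)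
    rw [hs, h1, ← a3 _ (by omega), show n + (m - n) = m by omega] at this
    exact this
  · rw [TT_out, TT_out _ _ _ h]
    rintro ⟨⟨n, b⟩, a1, a2, a3⟩
    obtain ⟨a, ha⟩ := occ_of_TT y₀ ctl θ hc a3
    exact h ⟨(n, a), a1, a2, ha⟩

lemma TT_gen {x y : ℕ → A} {m k : ℕ} (hk : k = 0 ∨ L ≤ m)
    (h : ∀ i < m + 2 * L, y i = x (i + k)) :
    TT L cw y₀ ctl θ y m = TT L cw y₀ ctl θ x (m + k) := by
  have ho : ∀ n a, n ≤ m + L → (Occ L cw y n a ↔ Occ L cw x (n + k) a) := by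
    intro n a hn
    refine forall₂_congr fun j hj => ?_
    rw [h _ (by omega), show n + j + k = n + k + j by ring]
  have hs : ∀ n, n ≤ m + L → sym L cw y₀ y n = sym L cw y₀ x (n + k) := by
    intro n hn
    by_cases h : ∃ a, Occ L cw y n a
    · obtain ⟨a, h⟩ := h
      rw [sym_occ y₀ hc h, sym_occ y₀ hc ((ho n a hn).1 h)]
    · simp only [sym]
      rw [dif_neg h, dif_neg]
      rintro ⟨b, hb⟩; exact h ⟨b, (ho n b hn).2 hb⟩
  by_cases h' : ∃ p : ℕ × Y, p.1 ≤ m ∧ m < p.1 + L ∧ Occ L cw y p.1 p.2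
  · obtain ⟨⟨n, a⟩, a1, a2, a3⟩ := h'
    simp only at a1 a2 a3
    have b1 := TT_occ y₀ ctl θ hc a3 (m - n) (by omega)
    have b2 := TT_occ y₀ ctl θ hc ((ho n a (by omega)).1 a3) (m - n) (by omega)
    rw [show n + (m - n) = m by omega, hs _ (by omega)] at b1
    rw [show n + k + (m - n) = m + k by omega, show n + k + L = n + L + k by ring] at b2
    rw [b1, b2]
  · rw [TT_out _ _ _ h', TT_out, h _ (by have := hc.pos; omega)]
    rintro ⟨⟨n, b⟩, a1, a2, a3⟩
    simp only at a1 a2 a3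
    refine h' ⟨(n - k, b), by simp only; omega, by simp only; omega, (ho _ _ (by simp only; omega)).2 ?_⟩
    simp only
    rwa [show n - k + k = n by omega]

def Ec (L : ℕ) (cw : Y → ℕ → A) (z : ℕ → Y) : ℕ → A := fun m => cw (z (m / L)) (m % L)

lemma occ_Ec (z : ℕ → Y) (q : ℕ) : Occ L cw (Ec L cw z) (q * L) (z q) := by
  intro j hj
  simp only [Ec]
  rw [Nat.mul_add_mod_self_right, Nat.mod_eq_of_lt hj, Nat.add_comm, Nat.add_mul_div_right _ _ hc.pos,
    Nat.div_eq_of_lt hj, zero_add]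

lemma TT_Ec (z : ℕ → Y) :
    TT L cw y₀ ctl θ (Ec L cw z) = Ec L cw fun q => θ (ctl (z (q + 1))) (z q) := by
  funext m
  have := TT_occ y₀ ctl θ hc (occ_Ec hc z (m / L)) (m % L) (Nat.mod_lt _ hc.pos)
  rw [Nat.div_add_mod', ← Nat.succ_mul, sym_occ y₀ hc (occ_Ec hc z _)] at this
  exact this

end code

end Pool.Agent.H155Z.DT
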