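import Pool.Agent.H155Z.DTDefs

set_option linter.unusedSectionVars false
set_option linter.style.haveILetI false

open MeasureTheory Set

namespace Pool.Agent.H155Z.DT

section words
variable {G S : Type} [Group G] (s : S → G)

/-- Product of the first `n` letters, applied in order. -/
def P (ι : ℤ → S) : ℕ → G
  | 0 => 1
  | n + 1 => s (ι n) * P ι n

def Red (ι : ℤ → S) : Prop := ∀ t, ι t ≠ ι (t + 1)

def sh (ι : ℤ → S) (k : ℤ) : ℤ → S := fun t => ι (t + k)

lemma Red.sh {ι : ℤ → S} (h : Red ι) (k : ℤ) : Red (sh ι k) := by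
  intro t
  have := h (t + k)
  simp only [DT.sh]
  rwa [show t + 1 + k = t + k + 1 by ring]

lemma P_add (ι : ℤ → S) (m n : ℕ) : P s ι (m + n) = P s (sh ι m) n * P s ι m := by
  induction n with
  | zero => simp [P]
  | succ n ih =>
    rw [← Nat.add_assoc, P, ih, P, mul_assoc]
    congr 2
    simp only [sh]; congr 1; push_cast; ring

lemma P_succ' (ι : ℤ → S) (n : ℕ) : P s ι (n + 1) = P s (sh ι 1) n * s (ι 0) := by
  rw [Nat.add_comm, P_add]; simp [P]

lemma P_congr {ι κ : ℤ → S} (n : ℕ) (h : ∀ t : ℕ, t < n → ι t = κ t) : P s ι n = P s κ n := by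
  induction n with
  | zero => rfl
  | succ n ih => rw [P, P, ih (fun t ht => h t (by omega)), h n (by omega)]

lemma P_mem (ι : ℤ → S) (n : ℕ) : P s ι n ∈ Subgroup.closure (range s) := by
  induction n with
  | zero => exact one_mem _
  | succ n ih => exact mul_mem (Subgroup.subset_closure ⟨_, rfl⟩) ih

lemma per_mul {ω : ℤ → S} {N : ℕ} (h : ∀ t, ω (t + N) = ω t) (k : ℕ) (t : ℤ) :
    ω (t + (k * N : ℕ)) = ω t := by
  induction k with
  | zero => simp
  | succ k ih => rw [← ih, ← h (t + (k * N : ℕ))]; congr 1; push_cast; ring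

lemma P_mul {ω : ℤ → S} {N : ℕ} (h : ∀ t, ω (t + N) = ω t) (k : ℕ) :
    P s ω (k * N) = P s ω N ^ k := by
  induction k with
  | zero => simp [P]
  | succ k ih =>
    rw [Nat.succ_mul, P_add, ih, pow_succ']
    congr 2
    funext t; exact per_mul h k t

/-- Prepend a letter. -/
def pp (a : S) (η : ℤ → S) : ℤ → S := fun t => if 1 ≤ t then η (t - 1) else if t % 2 = 0 then a else η 0

lemma pp_red {a : S} {η : ℤ → S} (h : Red η) (ha : η 0 ≠ a) : Red (pp a η) := by
  intro t
  simp only [pp]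
  by_cases h1 : 1 ≤ t
  · rw [if_pos h1, if_pos (by omega)]
    have := h (t - 1)
    rwa [show t - 1 + 1 = t + 1 - 1 by ring] at this
  · by_cases h0 : t = 0
    · subst h0; simpa using ha.symm
    · rw [if_neg h1, if_neg (show ¬ 1 ≤ t + 1 by omega)]
      by_cases h2 : t % 2 = 0
      · rw [if_pos h2, if_neg (by omega)]; exact ha.symm
      · rw [if_neg h2, if_pos (by omega)]; exact ha

lemma P_pp (a : S) (η : ℤ → S) (n : ℕ) : P s (pp a η) (n + 1) = P s η n * s a := by
  rw [P_succ']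
  congr 1
  apply P_congr; intro t _; simp [sh, pp]

variable (hs : ∀ a, s a * s a = 1)
include hs

lemma s_inv (a : S) : (s a)⁻¹ = s a := inv_eq_of_mul_eq_one_right (hs a)

lemma exists_red [Nontrivial S] {e : G} (he : e ∈ Subgroup.closure (range s)) :
    ∃ η m, Red η ∧ e = P s η m := by
  have step : ∀ (x : G) (a : S), (∃ η m, Red η ∧ x = P s η m) →
      ∃ η m, Red η ∧ x * s a = P s η m := by
    rintro x a ⟨η, m, hη, rfl⟩
    by_cases h : η 0 = a
    · cases m with
      | zero => exact ⟨η, 1, hη, by simp [P, h]⟩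
      | succ m => exact ⟨sh η 1, m, hη.sh 1, by rw [P_succ', h, mul_assoc, hs, mul_one]⟩
    · exact ⟨pp a η, m + 1, pp_red hη h, (P_pp s a η m).symm⟩
  induction he using Subgroup.closure_induction_right with
  | one =>
    obtain ⟨a, b, hab⟩ := exists_pair_ne S
    refine ⟨fun t => if t % 2 = 0 then a else b, 0, ?_, rfl⟩
    intro t
    by_cases h2 : t % 2 = 0
    · simp only [h2, if_true]; rw [if_neg (by omega)]; exact hab
    · simp only [h2, if_false]; rw [if_pos (by omega)]; exact hab.symm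
  | mul_right x _ y hy ih => obtain ⟨a, rfl⟩ := hy; exact step x a ih
  | mul_inv_cancel x _ y hy ih => obtain ⟨a, rfl⟩ := hy; rw [s_inv s hs]; exact step x a ih

lemma exists_cyc_aux (m : ℕ) : ∀ η : ℤ → S, Red η → P s η m * P s η m = 1 ∨
    ∃ c ∈ Subgroup.closure (range s), ∃ (ω : ℤ → S) (N : ℕ), 0 < N ∧ Red ω ∧
      (∀ t, ω (t + N) = ω t) ∧ P s η m = c⁻¹ * P s ω N * c := by
  induction m using Nat.strong_induction_on with
  | _ m ih =>
    intro η hη
    match m, ih with
    | 0, _ => left; simp [P]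
    | 1, _ => left; simp [P, hs]
    | m + 2, ih =>
      by_cases h : η ((m + 1 : ℕ) : ℤ) = η 0
      · have e : P s η (m + 2) = s (η 0) * P s (sh η 1) m * s (η 0) := by
          rw [P, P_succ', h, mul_assoc]
        rcases ih m (by omega) (sh η 1) (hη.sh 1) with h1 | ⟨c, hc, ω, N, hN, hω, hp, h1⟩
        · left
          rw [e]
          calc _ = s (η 0) * (P s (sh η 1) m * (s (η 0) * s (η 0)) * P s (sh η 1) m) * s (η 0) := by
                simp only [mul_assoc]
            _ = 1 := by rw [hs, mul_one, h1, mul_one, hs]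
        · right
          refine ⟨c * s (η 0), mul_mem hc (Subgroup.subset_closure ⟨_, rfl⟩), ω, N, hN, hω, hp, ?_⟩
          rw [e, h1, mul_inv_rev, s_inv s hs]; simp only [mul_assoc]
      · right
        refine ⟨1, one_mem _, fun t => η (t % ((m + 2 : ℕ) : ℤ)), m + 2, by omega, ?_, ?_, ?_⟩
        · intro t
          have h0 : 0 ≤ t % ((m + 2 : ℕ) : ℤ) := Int.emod_nonneg _ (by omega)
          have h1 : t % ((m + 2 : ℕ) : ℤ) < ((m + 2 : ℕ) : ℤ) := Int.emod_lt_of_pos _ (by omega)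
          have h2 : (t + 1) % ((m + 2 : ℕ) : ℤ) = (t % ((m + 2 : ℕ) : ℤ) + 1) % ((m + 2 : ℕ) : ℤ) := by
            rw [Int.emod_add_emod]
          by_cases h3 : t % ((m + 2 : ℕ) : ℤ) + 1 < ((m + 2 : ℕ) : ℤ)
          · simp only
            rw [h2, Int.emod_eq_of_lt (by omega) h3]; exact hη _
          · have h4 : t % ((m + 2 : ℕ) : ℤ) = ((m + 1 : ℕ) : ℤ) := by push_cast at *; omega
            simp only
            rw [h2, h4, show ((m + 1 : ℕ) : ℤ) + 1 = ((m + 2 : ℕ) : ℤ) by push_cast; ring,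
              Int.emod_self]
            exact h
        · intro t; simp only; rw [Int.add_emod_right]
        · rw [inv_one, one_mul, mul_one]
          apply P_congr; intro t ht
          rw [Int.emod_eq_of_lt (by omega) (by exact_mod_cast ht)]

lemma exists_cyc [Nontrivial S] {g : G} (hg : g ∈ Subgroup.closure (range s)) : g * g = 1 ∨
    ∃ c ∈ Subgroup.closure (range s), ∃ (ω : ℤ → S) (N : ℕ), 0 < N ∧ Red ω ∧
      (∀ t, ω (t + N) = ω t) ∧ g = c⁻¹ * P s ω N * c := by
  obtain ⟨η, m, hη, rfl⟩ := exists_red s hs hg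
  exact exists_cyc_aux s hs m η hη

/-- Translating a reduced ray by a group element. -/
lemma ray_translate {e : G} (he : e ∈ Subgroup.closure (range s)) {α : ℤ → S} (hα : Red α) :
    ∃ (α' : ℤ → S) (i i' : ℕ), Red α' ∧ (∀ t : ℕ, α' (i' + t) = α (i + t)) ∧
      P s α' i' * e = P s α i := by
  have step : ∀ (x : G) (a : S), (∃ (α' : ℤ → S) (i i' : ℕ), Red α' ∧
      (∀ t : ℕ, α' (i' + t) = α (i + t)) ∧ P s α' i' * x = P s α i) →
      ∃ (α' : ℤ → S) (i i' : ℕ), Red α' ∧
      (∀ t : ℕ, α' (i' + t) = α (i + t)) ∧ P s α' i' * (s a * x) = P s α i := by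
    rintro x a ⟨β, i, j, hβ, ht, hP⟩
    by_cases h : β 0 = a
    · refine ⟨sh β 1, i + 1, j, hβ.sh 1, fun t => ?_, ?_⟩
      · have := ht (t + 1)
        simp only [sh]
        push_cast at this ⊢
        rw [show (j : ℤ) + t + 1 = j + (t + 1) by ring, this]; congr 1; ring
      · rw [← mul_assoc, ← h, ← P_succ', P, P, mul_assoc, hP]
        have := ht 0
        simp only [Nat.cast_zero, add_zero] at this
        rw [this]
    · refine ⟨pp a β, i, j + 1, pp_red hβ h, fun t => ?_, ?_⟩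
      · rw [← ht t]; simp only [pp]
        rw [if_pos (by push_cast; omega)]; congr 1; push_cast; ring
      · rw [P_pp, mul_assoc, ← mul_assoc (s a), hs, one_mul, hP]
  induction he using Subgroup.closure_induction_left with
  | one => exact ⟨α, 0, 0, hα, fun _ => rfl, by simp [P]⟩
  | mul_left y hy x _ ih => obtain ⟨a, rfl⟩ := hy; exact step x a ih
  | inv_mul_cancel y hy x _ ih => obtain ⟨a, rfl⟩ := hy; rw [s_inv s hs]; exact step x a ih

/-- The reversed periodic word gives the inverse. -/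
lemma P_rev {ω : ℤ → S} (n : ℕ) : P s (fun t => ω (n - 1 - t)) n = (P s ω n)⁻¹ := by
  induction n generalizing ω with
  | zero => simp [P]
  | succ n ih =>
    rw [P_succ' s ω, mul_inv_rev, s_inv s hs, P, ← ih]
    congr 1
    · congr 2; push_cast; ring
    · apply P_congr; intro t _; simp only [sh]; congr 1; push_cast; ring

omit hs in
lemma closure_subset (hs : ∀ a, s a * s a = 1) (Q : G → Prop) (h1 : Q 1)
    (hm : ∀ a x, Q x → Q (s a * x)) {e : G} (he : e ∈ Subgroup.closure (range s)) : Q e := by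
  induction he using Subgroup.closure_induction_left with
  | one => exact h1
  | mul_left y hy x _ ih => obtain ⟨a, rfl⟩ := hy; exact hm a x ih
  | inv_mul_cancel y hy x _ ih => obtain ⟨a, rfl⟩ := hy; rw [s_inv s hs]; exact hm a x ih

end words

section pingpong
variable {X : Type} [TopologicalSpace X]

structure PP (g : X ≃ₜ X) (U V : Set X) : Prop where
  oU : IsOpen U
  oV : IsOpen V
  dis : ∀ x, x ∈ U → x ∈ V → False
  map : ∀ x, x ∉ U → g x ∈ V

lemma PP.inv {g : X ≃ₜ X} {U V : Set X} (h : PP g U V) : PP g⁻¹ V U := by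
  refine ⟨h.oV, h.oU, fun x a b => h.dis x b a, fun x hx => ?_⟩
  by_contra hc
  have := h.map _ hc
  rw [Homeomorph.inv_apply, Homeomorph.apply_symm_apply] at this
  exact hx this

lemma PP.conj {w c : X ≃ₜ X} {U V : Set X} (h : PP (c⁻¹ * w * c) U V) :
    PP w (c.symm ⁻¹' U) (c.symm ⁻¹' V) := by
  refine ⟨h.oU.preimage c.symm.continuous, h.oV.preimage c.symm.continuous,
    fun x a b => h.dis _ a b, fun x hx => ?_⟩
  have := h.map _ hx
  simpa [Homeomorph.mul_apply, Homeomorph.inv_apply] using this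

lemma PP.pow_mem {g : X ≃ₜ X} {U V : Set X} (h : PP g U V) {x : X} (hx : x ∉ U) (n : ℕ) :
    (g ^ (n + 1)) x ∈ V := by
  induction n with
  | zero => simpa using h.map x hx
  | succ n ih =>
    rw [pow_succ', Homeomorph.mul_apply]
    exact h.map _ (fun hu => h.dis _ hu ih)

lemma PP.mem_of_pow {g : X ≃ₜ X} {U V : Set X} (h : PP g U V) {x : X} (n : ℕ)
    (hx : (g ^ n) x ∈ U) : x ∈ U := by
  by_contra hc
  cases n with
  | zero => exact hc (by simpa using hx)
  | succ n => exact h.dis _ hx (h.pow_mem hc n)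

lemma PP.per {g : X ≃ₜ X} {U V : Set X} (h : PP g U V) {x : X} {M : ℕ} (hM : 0 < M)
    (hx : (g ^ M) x = x) : x ∈ U ∪ V := by
  by_cases hu : x ∈ U
  · exact Or.inl hu
  · obtain ⟨n, rfl⟩ : ∃ n, M = n + 1 := ⟨M - 1, by omega⟩
    right; rw [← hx]; exact h.pow_mem hu n

lemma PP.closure_per [CompactSpace X] [T2Space X] {g : X ≃ₜ X} {U V : Set X} (h : PP g U V)
    {z : X} (hz : z ∈ closure {y | ∃ M, 0 < M ∧ (g ^ M) y = y}) : z ∈ U ∪ V := by
  by_contra hc
  simp only [mem_union, not_or] at hc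
  have hK : IsClosed (g '' Uᶜ) := g.isClosedMap _ h.oU.isClosed_compl
  have hN : IsOpen (g ⁻¹' V ∩ (g '' Uᶜ)ᶜ) := (h.oV.preimage g.continuous).inter hK.isOpen_compl
  have hzN : z ∈ g ⁻¹' V ∩ (g '' Uᶜ)ᶜ := by
    refine ⟨h.map z hc.1, ?_⟩
    rintro ⟨y, hy, rfl⟩
    exact hc.2 (h.map y hy)
  obtain ⟨y, ⟨hy1, hy2⟩, M, hM, hy⟩ := mem_closure_iff.1 hz _ hN hzN
  apply hy2
  have hgy : g y ∉ U := fun hu => h.dis _ hu hy1
  obtain ⟨n, rfl⟩ : ∃ n, M = n + 1 := ⟨M - 1, by omega⟩
  have e : (g ^ (n + 1)) ((g ^ (n + 1)) y) = y := by rw [hy, hy]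
  refine ⟨(g ^ (2 * n)) (g y), ?_, ?_⟩
  · cases n with
    | zero => simpa using hgy
    | succ n => exact fun hu => h.dis _ hu (h.pow_mem hgy (2 * n + 1))
  · rw [← Homeomorph.mul_apply, ← Homeomorph.mul_apply, ← pow_succ', ← pow_succ]
    rw [← Homeomorph.mul_apply, ← pow_add] at e
    rw [show 2 * n + 1 + 1 = n + 1 + (n + 1) by ring]; exact e

lemma per_of_finite {g : X ≃ₜ X} {F : Set X} (hF : F.Finite) {z : X} (hz : ∀ n : ℕ, (g ^ n) z ∈ F) :
    ∃ M, 0 < M ∧ (g ^ M) z = z := by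
  obtain ⟨a, b, hab, h⟩ := hF.exists_lt_map_eq_of_forall_mem hz
  refine ⟨b - a, by omega, ?_⟩
  apply (g ^ a).injective
  rw [← Homeomorph.mul_apply, ← pow_add, show a + (b - a) = b by omega, h]

lemma no_pingpong [Nonempty X] {S : Type} [Nontrivial S] (s : S → (X ≃ₜ X))
    (hs : ∀ a, s a * s a = 1)
    (key : ∀ (ω ω' : ℤ → S) (N N' : ℕ), 0 < N → 0 < N' → Red ω → Red ω' →
      (∀ t, ω (t + N) = ω t) → (∀ t, ω' (t + N') = ω' t) →
      ∀ e ∈ Subgroup.closure (range s), ∀ U₁ V₁ U₂ V₂ : Set X,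
        PP (P s ω N) U₁ V₁ → PP (P s ω' N') U₂ V₂ → ∃ z, z ∈ U₁ ∪ V₁ ∧ e z ∈ U₂ ∪ V₂) :
    ¬ HasPingPong (Subgroup.closure (range s)) := by
  rintro ⟨g, hg, h, hh, U₁, U₂, V₁, V₂, o1, o2, o3, o4, d1, d2, d3, d4, d5, d6, m1, m2⟩
  have p1 : PP g U₁ V₁ := ⟨o1, o3, fun x a b => disjoint_left.1 d2 a b,
    fun x hx => m1 ⟨x, hx, rfl⟩⟩
  have p2 : PP h U₂ V₂ := ⟨o2, o4, fun x a b => disjoint_left.1 d5 a b,
    fun x hx => m2 ⟨x, hx, rfl⟩⟩
  have dis : ∀ z, z ∈ U₁ ∪ V₁ → z ∈ U₂ ∪ V₂ → False := by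
    rintro z (a | a) (b | b)
    exacts [disjoint_left.1 d1 a b, disjoint_left.1 d3 a b, disjoint_left.1 d4 b a,
      disjoint_left.1 d6 a b]
  have ne : ∀ (k : X ≃ₜ X) (U V : Set X), PP k U V → ∃ z, z ∈ U ∪ V := by
    intro k U V p
    obtain ⟨x⟩ := ‹Nonempty X›
    by_cases hx : x ∈ U
    · exact ⟨x, Or.inl hx⟩
    · exact ⟨k x, Or.inr (p.map x hx)⟩
  have sq : ∀ (k : X ≃ₜ X) (U V : Set X), PP k U V → k * k = 1 → ∀ z, z ∈ U ∪ V := by
    intro k U V p hk z
    exact p.per (M := 2) (by norm_num) (by rw [pow_two, hk]; rfl)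
  rcases exists_cyc s hs hg with h1 | ⟨c, hc, ω, N, hN, hω, hp, rfl⟩
  · obtain ⟨z, hz⟩ := ne _ _ _ p2
    exact dis z (sq _ _ _ p1 h1 z) hz
  rcases exists_cyc s hs hh with h1 | ⟨c', hc', ω', N', hN', hω', hp', rfl⟩
  · obtain ⟨z, hz⟩ := ne _ _ _ p1
    exact dis z hz (sq _ _ _ p2 h1 z)
  obtain ⟨z, hz1, hz2⟩ := key ω ω' N N' hN hN' hω hω' hp hp' (c' * c⁻¹)
    (mul_mem hc' (inv_mem hc)) _ _ _ _ p1.conj p2.conj
  refine dis (c.symm z) hz1 ?_
  simpa [Homeomorph.mul_apply, Homeomorph.inv_apply] using hz2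

end pingpong

section nomeasure

lemma no_measure {X U A : Type} [TopologicalSpace X] [Finite U] [Fintype A] [Nontrivial A]
    (H : Subgroup (X ≃ₜ X)) (key : X → U) (κ₀ κ₁ : X → A)
    (hk : ∀ u, IsOpen {x | key x = u}) (h0 : ∀ a, IsOpen {x | κ₀ x = a})
    (h1 : ∀ a, IsOpen {x | κ₁ x = a})
    (hr : ∀ u a b c, a ≠ b → ∃ g ∈ H, ∀ x,
      (key (g x) = u ∧ κ₀ (g x) = a) ↔ (key x = u ∧ κ₀ x = b ∧ κ₁ x = c)) :
    ¬ PreservesProb H := by
  letI : MeasurableSpace X := borel X
  haveI : BorelSpace X := ⟨rfl⟩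
  rintro ⟨μ, hμ, -, hinv⟩
  set D : U → A → Set X := fun u a => {x | key x = u ∧ κ₀ x = a} with hD
  set E : U → A → A → Set X := fun u b c => {x | key x = u ∧ κ₀ x = b ∧ κ₁ x = c} with hE
  have mD : ∀ u a, MeasurableSet (D u a) := fun u a => ((hk u).inter (h0 a)).measurableSet
  have mE : ∀ u b c, MeasurableSet (E u b c) := fun u b c =>
    ((hk u).inter ((h0 b).inter (h1 c))).measurableSet
  have e1 : ∀ u a b c, a ≠ b → μ (D u a) = μ (E u b c) := by
    intro u a b c hab
    obtain ⟨g, hg, hx⟩ := hr u a b c hab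
    rw [← hinv g hg, Measure.map_apply g.continuous.measurable (mD u a), hinv g hg]
    congr 1
    ext x; exact hx x
  have e2 : ∀ u a b, a ≠ b → 2 * μ (D u a) ≤ μ (D u b) := by
    intro u a b hab
    rw [two_mul]
    nth_rewrite 1 [e1 u a b a hab]
    rw [e1 u a b b hab, ← measure_union _ (mE u b b)]
    · apply measure_mono
      rintro x (hx | hx) <;> exact ⟨hx.1, hx.2.1⟩
    · rw [Set.disjoint_left]
      intro x h1 h2
      exact hab (h1.2.2.symm.trans h2.2.2)
  have e3 : ∀ u a, μ (D u a) = 0 := by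
    intro u a
    obtain ⟨b, hb⟩ := exists_ne a
    have i1 := e2 u a b hb.symm
    have i2 := e2 u b a hb
    have f1 : μ (D u a) ≠ ⊤ := measure_ne_top _ _
    have f2 : μ (D u b) ≠ ⊤ := measure_ne_top _ _
    lift μ (D u a) to NNReal using f1 with x
    lift μ (D u b) to NNReal using f2 with y
    norm_cast at i1 i2 ⊢
    have : (x : ℝ) = 0 := by
      have a1 : (2 : ℝ) * x ≤ y := by exact_mod_cast i1
      have a2 : (2 : ℝ) * y ≤ x := by exact_mod_cast i2
      have := x.2
      have a3 : (0 : ℝ) ≤ x := x.2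
      linarith
    exact_mod_cast this
  have : μ univ = 0 := by
    have : (univ : Set X) = ⋃ u, ⋃ a, D u a := by
      ext x; simp [hD]
    rw [this]
    exact measure_iUnion_null fun u => measure_iUnion_null fun a => e3 u a
  simp at this

/-- Roles can be assigned injectively outside a small set. -/
lemma exists_roles {R S : Type} [Fintype R] [Fintype S] [DecidableEq S] (B : Finset S)
    (h : Fintype.card R + B.card ≤ Fintype.card S) :
    ∃ f : R → S, Function.Injective f ∧ ∀ r, f r ∉ B := by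
  have : Fintype.card R ≤ Fintype.card (Bᶜ : Finset S) := by
    rw [Fintype.card_coe, Finset.card_compl]; omega
  obtain ⟨f⟩ := Function.Embedding.nonempty_of_card_le this
  exact ⟨fun r => (f r).1, fun a b hab => f.injective (Subtype.ext hab),
    fun r => Finset.mem_compl.1 (f r).2⟩

end nomeasure

section pre
variable {A : Type}

def cons (a : A) (y : ℕ → A) : ℕ → A := fun n => Nat.casesOn n a y

def dr (k : ℕ) (y : ℕ → A) : ℕ → A := fun n => y (n + k)

def tk (k : ℕ) (y : ℕ → A) : List A := List.ofFn fun i : Fin k => y i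

@[simp] lemma cons_zero (a : A) (y : ℕ → A) : cons a y 0 = a := rfl
@[simp] lemma cons_succ (a : A) (y : ℕ → A) (n : ℕ) : cons a y (n + 1) = y n := rfl
@[simp] lemma dr_apply (k : ℕ) (y : ℕ → A) (n : ℕ) : dr k y n = y (n + k) := rfl
@[simp] lemma tk_length (k : ℕ) (y : ℕ → A) : (tk k y).length = k := by simp [tk]

lemma pre_lt (u : List A) (y : ℕ → A) {n : ℕ} (h : n < u.length) : pre u y n = u[n] := by
  simp [pre, h]

lemma pre_ge (u : List A) (y : ℕ → A) {n : ℕ} (h : u.length ≤ n) :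
    pre u y n = y (n - u.length) := by
  simp [pre, not_lt.2 h]

@[simp] lemma pre_add (u : List A) (y : ℕ → A) (n : ℕ) : pre u y (n + u.length) = y n := by
  rw [pre_ge _ _ (by omega)]; simp

@[simp] lemma pre_nil (y : ℕ → A) : pre [] y = y := by funext n; simp [pre]

lemma pre_cons (a : A) (u : List A) (y : ℕ → A) : pre (a :: u) y = cons a (pre u y) := by
  funext n
  cases n with
  | zero => simp [pre]
  | succ n => simp [pre]

lemma pre_append (u v : List A) (y : ℕ → A) : pre (u ++ v) y = pre u (pre v y) := by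
  induction u with
  | nil => simp
  | cons a u ih => rw [List.cons_append, pre_cons, pre_cons, ih]

@[simp] lemma dr_pre (u : List A) (y : ℕ → A) : dr u.length (pre u y) = y := by
  funext n; simp

lemma pre_tk_dr (k : ℕ) (y : ℕ → A) : pre (tk k y) (dr k y) = y := by
  funext n
  by_cases h : n < k
  · rw [pre_lt _ _ (by simpa using h)]; simp [tk]
  · rw [pre_ge _ _ (by simpa using h)]; simp; congr 1; omega

lemma tk_pre (u : List A) (y : ℕ → A) : tk u.length (pre u y) = u := by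
  apply List.ext_getElem (by simp)
  intro i h1 h2
  simp [tk, pre_lt _ _ h2]

lemma pre_inj (u : List A) : Function.Injective (pre u) := fun y z h => by
  rw [← dr_pre u y, h, dr_pre]

lemma tk_eq_iff {k : ℕ} {x y : ℕ → A} : tk k x = tk k y ↔ ∀ i < k, x i = y i := by
  simp only [tk, List.ofFn_inj]
  exact ⟨fun h i hi => congrFun h ⟨i, hi⟩, fun h => funext fun i => h i i.2⟩

lemma tk_pre_tk (k : ℕ) (x y : ℕ → A) : tk k (pre (tk k x) y) = tk k x := by
  have := tk_pre (tk k x) y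
  rwa [tk_length] at this

lemma dr_pre_tk (k : ℕ) (x y : ℕ → A) : dr k (pre (tk k x) y) = y := by
  have := dr_pre (tk k x) y
  rwa [tk_length] at this

lemma pre_tk_lt {k n : ℕ} (x y : ℕ → A) (h : n < k) : pre (tk k x) y n = x n := by
  rw [pre_lt _ _ (by simpa using h)]; simp [tk]

variable [TopologicalSpace A]

lemma continuous_pre (u : List A) : Continuous (pre u : (ℕ → A) → ℕ → A) := by
  refine continuous_pi fun n => ?_
  by_cases h : n < u.length
  · simp only [pre_lt _ _ h]; exact continuous_const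
  · simp only [pre_ge _ _ (not_lt.1 h)]; exact continuous_apply _

lemma continuous_dr (k : ℕ) : Continuous (dr k : (ℕ → A) → ℕ → A) :=
  continuous_pi fun n => continuous_apply (n + k)

lemma eventually_agree [DiscreteTopology A] (x : ℕ → A) (k : ℕ) :
    ∀ᶠ y in nhds x, ∀ i < k, y i = x i := by
  have : ∀ i ∈ Finset.range k, ∀ᶠ y in nhds x, y i = x i := fun i _ =>
    ((continuous_apply i).continuousAt (x := x)).eventually
      ((isOpen_discrete {x i}).mem_nhds rfl)
  filter_upwards [(Filter.eventually_all_finset _).2 this] with y hy i hi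
  exact hy i (Finset.mem_range.2 hi)

lemma exists_agree [DiscreteTopology A] {x : ℕ → A} {p : (ℕ → A) → Prop}
    (h : ∀ᶠ y in nhds x, p y) : ∃ k, ∀ y, (∀ i < k, y i = x i) → p y := by
  rw [nhds_pi, Filter.eventually_iff, Filter.mem_pi] at h
  obtain ⟨I, hI, t, ht, hsub⟩ := h
  obtain ⟨k, hk⟩ := hI.bddAbove
  refine ⟨k + 1, fun y hy => hsub fun i hi => ?_⟩
  rw [hy i (Nat.lt_succ_of_le (hk hi))]
  exact mem_of_mem_nhds (ht i)

end pre

end Pool.Agent.H155Z.DT
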