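import Mathlib

open MeasureTheory

namespace Pool.Agent.H155Z.DT

/-- The infinite word `u y` obtained by writing the finite word `u` in front of `y`. -/
def pre {A : Type} (u : List A) (y : ℕ → A) : ℕ → A :=
  fun n => if h : n < u.length then u[n] else y (n - u.length)

/-- `H` contains a ping-pong pair. -/
def HasPingPong {X : Type} [TopologicalSpace X] (H : Subgroup (X ≃ₜ X)) : Prop :=
  ∃ g ∈ H, ∃ h ∈ H, ∃ U₁ U₂ V₁ V₂ : Set X,
    IsOpen U₁ ∧ IsOpen U₂ ∧ IsOpen V₁ ∧ IsOpen V₂ ∧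
    Disjoint U₁ U₂ ∧ Disjoint U₁ V₁ ∧ Disjoint U₁ V₂ ∧
    Disjoint U₂ V₁ ∧ Disjoint U₂ V₂ ∧ Disjoint V₁ V₂ ∧
    g '' U₁ᶜ ⊆ V₁ ∧ h '' U₂ᶜ ⊆ V₂

/-- `H` preserves a regular Borel probability measure. -/
def PreservesProb {X : Type} [TopologicalSpace X] (H : Subgroup (X ≃ₜ X)) : Prop :=
  letI : MeasurableSpace X := borel X
  ∃ μ : Measure X, IsProbabilityMeasure μ ∧ μ.Regular ∧ ∀ g ∈ H, μ.map g = μ

/-- The action on `X` of the group `G` of homeomorphisms satisfies the dynamical Tits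
alternative. -/
def DynTits {X : Type} [TopologicalSpace X] (G : Set (X ≃ₜ X)) : Prop :=
  ∀ H : Subgroup (X ≃ₜ X), (H : Set (X ≃ₜ X)) ⊆ G → PreservesProb H ∨ HasPingPong H

/-- State of a transducer after reading `n` letters of `x`. -/
def state {A Q : Type} (δ : Q → A → Q) (q₀ : Q) (x : ℕ → A) : ℕ → Q
  | 0 => q₀
  | n + 1 => δ (state δ q₀ x n) (x n)

/-- Word written by a transducer while reading the first `n` letters of `x`. -/
def written {A Q : Type} (δ : Q → A → Q) (o : Q → A → List A) (q₀ : Q) (x : ℕ → A) :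
    ℕ → List A
  | 0 => []
  | n + 1 => written δ o q₀ x n ++ o (state δ q₀ x n) (x n)

/-- The rational group `R_A`: homeomorphisms of `A^ℕ` computed by a finite-state asynchronous
transducer. -/
def RatGroup (A : Type) [TopologicalSpace A] : Set ((ℕ → A) ≃ₜ (ℕ → A)) :=
  {f | ∃ (m : ℕ) (q₀ : Fin m) (δ : Fin m → A → Fin m) (o : Fin m → A → List A), ∀ x : ℕ → A,
    (∀ n, ∃ y, f x = pre (written δ o q₀ x n) y) ∧
      ∀ k, ∃ n, k ≤ (written δ o q₀ x n).length}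

/-- The Brin-Thompson group `nV`. -/
def BrinThompson (n : ℕ) : Set ((Fin n → ℕ → Bool) ≃ₜ (Fin n → ℕ → Bool)) :=
  {f | ∃ P : Finset ((Fin n → List Bool) × (Fin n → List Bool)),
    (∀ x : Fin n → ℕ → Bool, ∃ p ∈ P, ∃ y : Fin n → ℕ → Bool, x = fun i => pre (p.1 i) (y i)) ∧
      ∀ p ∈ P, ∀ y : Fin n → ℕ → Bool,
        f (fun i => pre (p.1 i) (y i)) = fun i => pre (p.2 i) (y i)}

/-- The Higman-Thompson group `V_{d,k}`. -/
def HigmanThompson (d k : ℕ) :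
    Set ((Fin k × (ℕ → Fin d)) ≃ₜ (Fin k × (ℕ → Fin d))) :=
  {f | ∃ P : Finset ((Fin k × List (Fin d)) × (Fin k × List (Fin d))),
    (∀ x : Fin k × (ℕ → Fin d), ∃ p ∈ P, ∃ y, x = (p.1.1, pre p.1.2 y)) ∧
      ∀ p ∈ P, ∀ y, f (p.1.1, pre p.1.2 y) = (p.2.1, pre p.2.2 y)}

/-- `Aut(V_{d,k})` acting on the Cantor space: the homeomorphisms that normalise `V_{d,k}`. -/
def AutHT (d k : ℕ) : Set ((Fin k × (ℕ → Fin d)) ≃ₜ (Fin k × (ℕ → Fin d))) :=
  {φ | ∀ f, f ∈ HigmanThompson d k ↔ φ * f * φ⁻¹ ∈ HigmanThompson d k}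

end Pool.Agent.H155Z.DT
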