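import Pool.Agent.H155Z.DTCore

set_option linter.unusedSectionVars false

open Set

namespace Pool.Agent.H155Z.DT

variable {A : Type}

lemma pre_of_agree {u : List A} {x y₀ x' : ℕ → A} (h : x = pre u y₀)
    (h' : ∀ j < u.length, x' j = x j) : x' = pre u (dr u.length x') := by
  have : tk u.length x' = u := by
    rw [tk_eq_iff.2 h', h, tk_pre]
  conv_lhs => rw [← pre_tk_dr u.length x', this]

lemma split_of_pre {a b : List A} {y₀ y₁ : ℕ → A} (h : pre a y₀ = pre b y₁)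
    (hl : b.length ≤ a.length) : a = b ++ a.drop b.length := by
  have : a.take b.length = b := by
    apply List.ext_getElem (by simp [hl])
    intro i h1 h2
    rw [List.getElem_take, ← pre_lt a y₀ (by omega), h, pre_lt b y₁ h2]
  conv_lhs => rw [← List.take_append_drop b.length a, this]

@[simp] lemma pre1_zero (a : A) (y : ℕ → A) : pre [a] y 0 = a := rfl
@[simp] lemma pre2_zero (a b : A) (y : ℕ → A) : pre [a, b] y 0 = a := rfl
@[simp] lemma pre2_one (a b : A) (y : ℕ → A) : pre [a, b] y 1 = b := rfl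
@[simp] lemma dr1_pre (a : A) (y : ℕ → A) : dr 1 (pre [a] y) = y := dr_pre [a] y
@[simp] lemma dr2_pre (a b : A) (y : ℕ → A) : dr 2 (pre [a, b] y) = y := dr_pre [a, b] y

lemma pre1_dr (x : ℕ → A) : pre [x 0] (dr 1 x) = x := by
  have := pre_tk_dr 1 x
  simpa [tk] using this

lemma pre2_dr (x : ℕ → A) : pre [x 0, x 1] (dr 2 x) = x := by
  have := pre_tk_dr 2 x
  simpa [tk] using this

open Classical in
/-- Swap of the cones `[a]` and `[b c]`, twisted by `T`. -/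
noncomputable def tau (T : (ℕ → A) → ℕ → A) (ρ : A × A × A) (x : ℕ → A) : ℕ → A :=
  if ρ.1 ≠ ρ.2.1 ∧ x 0 = ρ.1 then pre [ρ.2.1, ρ.2.2] (T (dr 1 x))
  else if ρ.1 ≠ ρ.2.1 ∧ x 0 = ρ.2.1 ∧ x 1 = ρ.2.2 then pre [ρ.1] (T (dr 2 x))
  else pre [x 0, x 1] (T (dr 2 x))

lemma tau_invol {T : (ℕ → A) → ℕ → A} (hT : ∀ y, T (T y) = y) (ρ : A × A × A) (x : ℕ → A) :
    tau T ρ (tau T ρ x) = x := by
  obtain ⟨a, b, c⟩ := ρ
  by_cases h1 : a ≠ b ∧ x 0 = a
  · have e : tau T (a, b, c) x = pre [b, c] (T (dr 1 x)) := by simp only [tau]; rw [if_pos h1]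
    rw [e]; simp only [tau]
    rw [if_neg (by simp; exact fun _ => h1.1.symm), if_pos (by simp [h1.1]), dr2_pre, hT, ← h1.2,
      pre1_dr]
  · by_cases h2 : a ≠ b ∧ x 0 = b ∧ x 1 = c
    · have e : tau T (a, b, c) x = pre [a] (T (dr 2 x)) := by
        simp only [tau]; rw [if_neg h1, if_pos h2]
      rw [e]; simp only [tau]
      rw [if_pos (by simp [h2.1]), dr1_pre, hT, ← h2.2.1, ← h2.2.2, pre2_dr]
    · have e : tau T (a, b, c) x = pre [x 0, x 1] (T (dr 2 x)) := by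
        simp only [tau]; rw [if_neg h1, if_neg h2]
      rw [e]; simp only [tau]
      rw [if_neg (by simpa using h1), if_neg (by simpa using h2), dr2_pre, hT, pre2_zero, pre2_one,
        pre2_dr]

lemma tau_local (T : (ℕ → A) → ℕ → A) (ρ : A × A × A) (x : ℕ → A) :
    ∃ u v : List A, (∃ y₀, x = pre u y₀) ∧ ∀ y, tau T ρ (pre u y) = pre v (T y) := by
  classical
  obtain ⟨a, b, c⟩ := ρ
  by_cases h1 : a ≠ b ∧ x 0 = a
  · refine ⟨[a], [b, c], ⟨_, by rw [← h1.2, pre1_dr]⟩, fun y => ?_⟩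
    simp only [tau]; rw [if_pos (by simp [h1.1]), dr1_pre]
  · refine ⟨[x 0, x 1], if a ≠ b ∧ x 0 = b ∧ x 1 = c then [a] else [x 0, x 1],
      ⟨_, (pre2_dr x).symm⟩, fun y => ?_⟩
    simp only [tau, pre2_zero, pre2_one, dr2_pre]
    rw [if_neg h1]
    split_ifs <;> rfl

lemma tau_role {T : (ℕ → A) → ℕ → A} {a b c : A} (hab : a ≠ b) (x : ℕ → A) :
    tau T (a, b, c) x 0 = a ↔ x 0 = b ∧ x 1 = c := by
  simp only [tau]
  by_cases h1 : x 0 = a
  · rw [if_pos ⟨hab, h1⟩]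
    simp only [pre2_zero, h1]
    exact ⟨fun h => absurd h hab.symm, fun h => absurd h.1 hab⟩
  · rw [if_neg (fun h => h1 h.2)]
    by_cases h2 : x 0 = b ∧ x 1 = c
    · rw [if_pos ⟨hab, h2⟩]; simp [h2]
    · rw [if_neg (fun h => h2 h.2)]; simp [h1, h2]

end Pool.Agent.H155Z.DT
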