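import Pool.Agent.H155Z.SpDefs

set_option linter.unusedSectionVars false

open Finset

namespace Pool.Agent.H155Z.Sp

section Abstract

variable {V : Type} [Fintype V] [DecidableEq V]

/-- Summation by parts for a reversible chain. -/
lemma green (π : V → ℝ) (P : V → V → ℝ) (hrow : ∀ x, ∑ y, P x y = 1)
    (hrev : ∀ x y, π x * P x y = π y * P y x) (f g : V → ℝ) :
    (1 / 2) * ∑ x, ∑ y, π x * P x y * ((f x - f y) * (g x - g y)) =
      ∑ x, π x * g x * (f x - ∑ z, P x z * f z) := by
  have h1 : ∑ x, ∑ y, π x * P x y * (g y * (f y - f x)) =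
      ∑ x, ∑ y, π x * P x y * (g x * (f x - f y)) := by
    rw [Finset.sum_comm]
    refine Finset.sum_congr rfl fun x _ => Finset.sum_congr rfl fun y _ => ?_
    rw [hrev y x]
  have h2 : ∑ x, ∑ y, π x * P x y * ((f x - f y) * (g x - g y)) =
      ∑ x, ∑ y, π x * P x y * (g x * (f x - f y)) +
        ∑ x, ∑ y, π x * P x y * (g y * (f y - f x)) := by
    rw [← Finset.sum_add_distrib]
    refine Finset.sum_congr rfl fun x _ => ?_
    rw [← Finset.sum_add_distrib]
    refine Finset.sum_congr rfl fun y _ => ?_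
    ring
  rw [h2, h1]
  have h3 : ∀ x, ∑ y, π x * P x y * (g x * (f x - f y)) =
      π x * g x * (f x - ∑ z, P x z * f z) := by
    intro x
    have : ∑ y, π x * P x y * (g x * (f x - f y)) =
        π x * g x * (f x * ∑ y, P x y - ∑ z, P x z * f z) := by
      rw [Finset.mul_sum, ← Finset.sum_sub_distrib, Finset.mul_sum]
      refine Finset.sum_congr rfl fun y _ => ?_
      ring
    rw [this, hrow, mul_one]
  simp_rw [h3]
  ring

/-- Cauchy-Schwarz for the Dirichlet form. -/
lemma dir_cs (c : V → V → ℝ) (hc : ∀ x y, 0 ≤ c x y) (f g : V → ℝ) :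
    (∑ x, ∑ y, c x y * ((f x - f y) * (g x - g y))) ^ 2 ≤
      (∑ x, ∑ y, c x y * ((f x - f y) * (f x - f y))) *
        (∑ x, ∑ y, c x y * ((g x - g y) * (g x - g y))) := by
  simp_rw [← Fintype.sum_prod_type']
  have := Finset.sum_mul_sq_le_sq_mul_sq (Finset.univ : Finset (V × V))
    (fun p => Real.sqrt (c p.1 p.2) * (f p.1 - f p.2))
    (fun p => Real.sqrt (c p.1 p.2) * (g p.1 - g p.2))
  have e1 : ∑ p : V × V, c p.1 p.2 * ((f p.1 - f p.2) * (g p.1 - g p.2)) =
      ∑ p : V × V, Real.sqrt (c p.1 p.2) * (f p.1 - f p.2) *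
        (Real.sqrt (c p.1 p.2) * (g p.1 - g p.2)) := by
    refine Finset.sum_congr rfl fun p _ => ?_
    have := Real.mul_self_sqrt (hc p.1 p.2)
    linear_combination (-((f p.1 - f p.2) * (g p.1 - g p.2))) * this
  have e2 : ∀ f : V → ℝ, ∑ p : V × V, c p.1 p.2 * ((f p.1 - f p.2) * (f p.1 - f p.2)) =
      ∑ p : V × V, (Real.sqrt (c p.1 p.2) * (f p.1 - f p.2)) ^ 2 := by
    intro f
    refine Finset.sum_congr rfl fun p _ => ?_
    have := Real.mul_self_sqrt (hc p.1 p.2)
    linear_combination (-((f p.1 - f p.2) * (f p.1 - f p.2))) * this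
  rw [e1, e2 f, e2 g]
  exact this

/-- The mean absolute deviation of a function with small support. -/
lemma mad_le (π : V → ℝ) (hπ : ∀ x, 0 ≤ π x) (hsum : ∑ x, π x = 1) (h : V → ℝ) (δ : ℝ)
    (hs : ∑ x, (if h x = 0 then 0 else π x) ≤ δ) :
    (∑ x, π x * |h x - ∑ y, π y * h y|) ^ 2 ≤
      4 * δ * ∑ x, π x * (h x - ∑ y, π y * h y) ^ 2 := by
  set m := ∑ y, π y * h y with hm
  have hzero : ∑ x, π x * (h x - m) = 0 := by
    simp_rw [mul_sub, Finset.sum_sub_distrib, ← Finset.sum_mul, hsum]
    rw [← hm]; ring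
  set a : V → ℝ := fun x => if h x = 0 then 0 else π x with ha
  have ha0 : ∀ x, 0 ≤ a x := fun x => by
    simp only [ha]; split_ifs
    · exact le_rfl
    · exact hπ x
  have haπ : ∀ x, a x ≤ π x := fun x => by
    simp only [ha]; split_ifs
    · exact hπ x
    · exact le_rfl
  have hout : ∑ x, (π x - a x) * |h x - m| ≤ ∑ x, a x * |h x - m| := by
    have e1 : ∑ x, (π x - a x) * |h x - m| = |m| * ∑ x, (π x - a x) := by
      rw [Finset.mul_sum]
      refine Finset.sum_congr rfl fun x _ => ?_
      simp only [ha]; split_ifs with hx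
      · rw [hx]; simp [mul_comm]
      · simp
    have e2 : ∑ x, (π x - a x) * (h x - m) = -m * ∑ x, (π x - a x) := by
      rw [Finset.mul_sum]
      refine Finset.sum_congr rfl fun x _ => ?_
      simp only [ha]; split_ifs with hx
      · rw [hx]; ring
      · simp
    have e3 : ∑ x, (π x - a x) * (h x - m) = -∑ x, a x * (h x - m) := by
      have : ∑ x, (π x - a x) * (h x - m) + ∑ x, a x * (h x - m) = ∑ x, π x * (h x - m) := by
        rw [← Finset.sum_add_distrib]
        exact Finset.sum_congr rfl fun x _ => by ring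
      linarith
    have hnn : 0 ≤ ∑ x, (π x - a x) := Finset.sum_nonneg fun x _ => sub_nonneg.2 (haπ x)
    have e4 : |m| * ∑ x, (π x - a x) = |∑ x, a x * (h x - m)| := by
      rw [← abs_neg (∑ x, a x * (h x - m)), ← e3, e2, abs_mul, abs_neg, abs_of_nonneg hnn]
    rw [e1, e4]
    refine (Finset.abs_sum_le_sum_abs _ _).trans (le_of_eq ?_)
    refine Finset.sum_congr rfl fun x _ => ?_
    rw [abs_mul, abs_of_nonneg (ha0 x)]
  have htot : ∑ x, π x * |h x - m| ≤ 2 * ∑ x, a x * |h x - m| := by
    have : ∑ x, π x * |h x - m| = ∑ x, (π x - a x) * |h x - m| + ∑ x, a x * |h x - m| := by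
      rw [← Finset.sum_add_distrib]
      exact Finset.sum_congr rfl fun x _ => by ring
    linarith
  have hcs : (∑ x, a x * |h x - m|) ^ 2 ≤ (∑ x, a x) * ∑ x, a x * (h x - m) ^ 2 := by
    have := Finset.sum_mul_sq_le_sq_mul_sq (Finset.univ : Finset V)
      (fun x => Real.sqrt (a x)) (fun x => Real.sqrt (a x) * |h x - m|)
    have e1 : ∑ x, a x * |h x - m| =
        ∑ x, Real.sqrt (a x) * (Real.sqrt (a x) * |h x - m|) := by
      refine Finset.sum_congr rfl fun x _ => ?_
      have := Real.mul_self_sqrt (ha0 x)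
      linear_combination (-|h x - m|) * this
    have e2 : ∑ x, a x = ∑ x, Real.sqrt (a x) ^ 2 := by
      refine Finset.sum_congr rfl fun x _ => ?_
      rw [Real.sq_sqrt (ha0 x)]
    have e3 : ∑ x, a x * (h x - m) ^ 2 = ∑ x, (Real.sqrt (a x) * |h x - m|) ^ 2 := by
      refine Finset.sum_congr rfl fun x _ => ?_
      rw [mul_pow, Real.sq_sqrt (ha0 x), sq_abs]
    rw [e1, e3]
    exact e2 ▸ this
  have hv : ∑ x, a x * (h x - m) ^ 2 ≤ ∑ x, π x * (h x - m) ^ 2 :=
    Finset.sum_le_sum fun x _ => mul_le_mul_of_nonneg_right (haπ x) (sq_nonneg _)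
  have hv0 : 0 ≤ ∑ x, a x * (h x - m) ^ 2 :=
    Finset.sum_nonneg fun x _ => mul_nonneg (ha0 x) (sq_nonneg _)
  have hA0 : 0 ≤ ∑ x, a x := Finset.sum_nonneg fun x _ => ha0 x
  have hL0 : 0 ≤ ∑ x, π x * |h x - m| :=
    Finset.sum_nonneg fun x _ => mul_nonneg (hπ x) (abs_nonneg _)
  have hs' : ∑ x, a x ≤ δ := hs
  calc (∑ x, π x * |h x - m|) ^ 2 ≤ (2 * ∑ x, a x * |h x - m|) ^ 2 :=
        pow_le_pow_left₀ hL0 htot 2
    _ = 4 * (∑ x, a x * |h x - m|) ^ 2 := by ring
    _ ≤ 4 * ((∑ x, a x) * ∑ x, a x * (h x - m) ^ 2) := by linarith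
    _ ≤ 4 * (δ * ∑ x, π x * (h x - m) ^ 2) := by
        have := mul_le_mul hs' hv hv0 (hA0.trans hs')
        linarith
    _ = _ := by ring

/-- The Faber-Krahn type inequality. -/
lemma faber_krahn (π : V → ℝ) (P : V → V → ℝ) (hπ : ∀ x, 0 ≤ π x) (hsum : ∑ x, π x = 1)
    (hP : ∀ x y, 0 ≤ P x y) (hrow : ∀ x, ∑ y, P x y = 1)
    (hrev : ∀ x y, π x * P x y = π y * P y x)
    (u : V → V → ℝ) (T : ℝ) (hu0 : ∀ y x, 0 ≤ u y x) (huT : ∀ y x, u y x ≤ T)
    (hu : ∀ y x, x ≠ y → u y x - ∑ z, P x z * u y z = 1)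
    (h : V → ℝ) (δ : ℝ) (hs : ∑ x, (if h x = 0 then 0 else π x) ≤ δ)
    (hvar : ∑ x, π x * (h x - ∑ y, π y * h y) ^ 2 = 1) :
    1 ≤ 4 * δ * T * ((1 / 2) * ∑ x, ∑ y, π x * P x y * (h x - h y) ^ 2) := by
  set m := ∑ y, π y * h y with hm
  set k : V → ℝ := fun x => h x - m with hk
  have hzero : ∑ x, π x * k x = 0 := by
    simp_rw [hk, mul_sub, Finset.sum_sub_distrib, ← Finset.sum_mul, hsum]
    rw [← hm]; ring
  -- value of the generator at the target point
  have hdiag : ∀ y, π y * (u y y - ∑ z, P y z * u y z) = π y - 1 := by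
    intro y
    have h0 := green π P hrow hrev (u y) (fun _ => 1)
    simp only [sub_self, mul_zero, Finset.sum_const_zero, mul_one] at h0
    rw [← Finset.add_sum_erase _ _ (Finset.mem_univ y)] at h0
    have h1 : ∑ x ∈ Finset.univ.erase y, π x * (u y x - ∑ z, P x z * u y z) =
        ∑ x ∈ Finset.univ.erase y, π x := by
      refine Finset.sum_congr rfl fun x hx => ?_
      rw [hu y x (Finset.ne_of_mem_erase hx), mul_one]
    have h2 := Finset.add_sum_erase _ π (Finset.mem_univ y)
    rw [hsum] at h2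
    linarith
  set w : V → ℝ := fun x => -∑ y, π y * k y * u y x with hw
  have hLw : ∀ x, w x - ∑ z, P x z * w z = k x := by
    intro x
    have e1 : w x - ∑ z, P x z * w z = -∑ y, k y * (π y * (u y x - ∑ z, P x z * u y z)) := by
      simp only [hw, mul_neg, Finset.sum_neg_distrib, Finset.mul_sum, mul_sub,
        Finset.sum_sub_distrib]
      rw [Finset.sum_comm]
      have : ∀ y, π y * k y * u y x = k y * (π y * u y x) := fun y => by ring
      simp_rw [this]
      have : ∀ y z, P x z * (π y * k y * u y z) = k y * (π y * (P x z * u y z)) :=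
        fun y z => by ring
      simp_rw [this]
      ring
    rw [e1, ← Finset.add_sum_erase _ _ (Finset.mem_univ x), hdiag x]
    have h1 : ∑ y ∈ Finset.univ.erase x, k y * (π y * (u y x - ∑ z, P x z * u y z)) =
        ∑ y ∈ Finset.univ.erase x, π y * k y := by
      refine Finset.sum_congr rfl fun y hy => ?_
      rw [hu y x (Finset.ne_of_mem_erase hy).symm]; ring
    have h2 := Finset.add_sum_erase _ (fun y => π y * k y) (Finset.mem_univ x)
    rw [hzero] at h2
    rw [h1]
    linarith
  have hwk := green π P hrow hrev w k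
  have hww := green π P hrow hrev w w
  simp_rw [hLw] at hwk hww
  have hvar' : ∑ x, π x * k x * k x = 1 := by
    rw [← hvar]; exact Finset.sum_congr rfl fun x _ => by simp only [hk]; ring
  have hT : 0 ≤ T := by
    have : Nonempty V := by
      by_contra hne
      rw [not_nonempty_iff] at hne
      simp at hsum
    obtain ⟨x⟩ := this
    exact (hu0 x x).trans (huT x x)
  have hww' : ∑ x, π x * w x * k x ≤ T * (∑ x, π x * |k x|) ^ 2 := by
    have e : T * (∑ x, π x * |k x|) ^ 2 = ∑ x, ∑ y, T * ((π x * |k x|) * (π y * |k y|)) := by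
      rw [sq, Finset.sum_mul_sum, Finset.mul_sum]
      simp_rw [Finset.mul_sum]
    rw [e]
    refine Finset.sum_le_sum fun x _ => ?_
    have e2 : π x * w x * k x = ∑ y, -(π x * k x * (π y * k y) * u y x) := by
      simp only [hw, Finset.sum_neg_distrib, mul_neg, neg_mul, Finset.mul_sum, Finset.sum_mul]
      congr 1
      exact Finset.sum_congr rfl fun y _ => by ring
    rw [e2]
    refine Finset.sum_le_sum fun y _ => ?_
    have h1 : -(π x * k x * (π y * k y) * u y x) ≤ |π x * k x * (π y * k y) * u y x| := neg_le_abs _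
    have h2 : |π x * k x * (π y * k y) * u y x| = (π x * |k x|) * (π y * |k y|) * u y x := by
      rw [abs_mul, abs_mul, abs_mul, abs_mul, abs_of_nonneg (hπ x), abs_of_nonneg (hπ y),
        abs_of_nonneg (hu0 y x)]
    have h3 : 0 ≤ (π x * |k x|) * (π y * |k y|) :=
      mul_nonneg (mul_nonneg (hπ x) (abs_nonneg _)) (mul_nonneg (hπ y) (abs_nonneg _))
    have h4 := mul_le_mul_of_nonneg_left (huT y x) h3
    linarith
  have hmad := mad_le π hπ hsum h δ hs
  rw [← hm, hvar] at hmad
  have hcs := dir_cs (fun x y => π x * P x y) (fun x y => mul_nonneg (hπ x) (hP x y)) w k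
  have hkk : ∑ x, ∑ y, π x * P x y * ((k x - k y) * (k x - k y)) =
      ∑ x, ∑ y, π x * P x y * (h x - h y) ^ 2 := by
    refine Finset.sum_congr rfl fun x _ => Finset.sum_congr rfl fun y _ => ?_
    simp only [hk]; ring
  rw [hkk] at hcs
  set E := ∑ x, ∑ y, π x * P x y * (h x - h y) ^ 2 with hE
  have hE0 : 0 ≤ E := Finset.sum_nonneg fun x _ => Finset.sum_nonneg fun y _ =>
    mul_nonneg (mul_nonneg (hπ x) (hP x y)) (sq_nonneg _)
  have a1 : ∑ x, ∑ y, π x * P x y * ((w x - w y) * (k x - k y)) = 2 := by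
    rw [hvar'] at hwk; linarith
  have a2 : ∑ x, ∑ y, π x * P x y * ((w x - w y) * (w x - w y)) ≤ 2 * (T * (4 * δ)) := by
    have h5 : T * (∑ x, π x * |k x|) ^ 2 ≤ T * (4 * δ * 1) := mul_le_mul_of_nonneg_left hmad hT
    linarith
  rw [a1] at hcs
  have := mul_le_mul_of_nonneg_right a2 hE0
  nlinarith

/-- Solvability of the Poisson equation on a connected graph. -/
lemma poisson (π : V → ℝ) (P : V → V → ℝ) (hπ : ∀ x, 0 ≤ π x)
    (hP : ∀ x y, 0 ≤ P x y) (hrow : ∀ x, ∑ y, P x y = 1)
    (hrev : ∀ x y, π x * P x y = π y * P y x) (G : SimpleGraph V) (hG : G.Preconnected)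
    (hpos : ∀ x y, G.Adj x y → 0 < π x * P x y) (y : V) :
    ∃ f : V → ℝ, f y = 0 ∧ ∀ x, x ≠ y → f x - ∑ z, P x z * f z = 1 := by
  let L : (V → ℝ) →ₗ[ℝ] (V → ℝ) :=
    { toFun := fun f x => if x = y then f y else f x - ∑ z, P x z * f z
      map_add' := by
        intro f g; funext x
        by_cases hx : x = y
        · simp [hx]
        · simp only [hx, if_false, Pi.add_apply, mul_add, Finset.sum_add_distrib]; ring
      map_smul' := by
        intro c f; funext x
        by_cases hx : x = y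
        · simp [hx]
        · simp only [hx, if_false, Pi.smul_apply, smul_eq_mul, RingHom.id_apply, mul_sub,
            Finset.mul_sum]
          congr 1
          exact Finset.sum_congr rfl fun z _ => by ring }
  have hinj : Function.Injective L := by
    rw [← LinearMap.ker_eq_bot, LinearMap.ker_eq_bot']
    intro f hf
    have hfy : f y = 0 := by
      have := congrFun hf y
      simpa [L] using this
    have hfx : ∀ x, x ≠ y → f x - ∑ z, P x z * f z = 0 := by
      intro x hx
      have := congrFun hf x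
      simpa [L, hx] using this
    have hg := green π P hrow hrev f f
    have h0 : ∑ x, π x * f x * (f x - ∑ z, P x z * f z) = 0 := by
      refine Finset.sum_eq_zero fun x _ => ?_
      by_cases hx : x = y
      · rw [hx, hfy]; ring
      · rw [hfx x hx]; ring
    rw [h0] at hg
    have hg' : ∑ x, ∑ z, π x * P x z * ((f x - f z) * (f x - f z)) = 0 := by linarith
    have hnn : ∀ x z, 0 ≤ π x * P x z * ((f x - f z) * (f x - f z)) := fun x z =>
      mul_nonneg (mul_nonneg (hπ x) (hP x z)) (mul_self_nonneg _)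
    have hedge : ∀ x z, G.Adj x z → f x = f z := by
      intro x z hxz
      have h1 := (Finset.sum_eq_zero_iff_of_nonneg
        (fun x _ => Finset.sum_nonneg fun z _ => hnn x z)).1 hg' x (Finset.mem_univ x)
      have h2 := (Finset.sum_eq_zero_iff_of_nonneg (fun z _ => hnn x z)).1 h1 z
        (Finset.mem_univ z)
      have h3 := (mul_eq_zero.1 h2).resolve_left (hpos x z hxz).ne'
      have := mul_self_eq_zero.1 h3
      linarith
    funext x
    obtain ⟨p⟩ := hG x y
    have : ∀ {a b : V} (_ : G.Walk a b), f a = f b := by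
      intro a b q
      induction q with
      | nil => rfl
      | cons h _ ih => exact (hedge _ _ h).trans ih
    rw [this p, hfy]; rfl
  have hsurj : Function.Surjective L := LinearMap.injective_iff_surjective.1 hinj
  obtain ⟨f, hf⟩ := hsurj (fun x => if x = y then 0 else 1)
  refine ⟨f, ?_, fun x hx => ?_⟩
  · have := congrFun hf y
    simpa [L] using this
  · have := congrFun hf x
    simpa [L, hx] using this

end Abstract

section Graph

variable {V : Type} [Fintype V] [DecidableEq V] (G : SimpleGraph V) [DecidableRel G.Adj]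

lemma trans_nonneg (x y : V) : 0 ≤ trans G x y := by
  unfold trans; split_ifs <;> positivity

lemma stat_nonneg (x : V) : 0 ≤ stat G x := by
  unfold stat; positivity

lemma trans_row {x : V} (hx : 0 < G.degree x) : ∑ y, trans G x y = 1 := by
  unfold trans
  rw [← Finset.sum_filter, Finset.sum_const, nsmul_eq_mul]
  have : (Finset.univ.filter fun y => G.Adj x y).card = G.degree x := by
    rw [← SimpleGraph.card_neighborFinset_eq_degree]
    congr 1; ext y; simp
  rw [this]
  have : (G.degree x : ℝ) ≠ 0 := by exact_mod_cast hx.ne'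
  field_simp

lemma stat_trans (x y : V) :
    stat G x * trans G x y = if G.Adj x y then 1 / (2 * (G.edgeFinset.card : ℝ)) else 0 := by
  unfold stat trans
  split_ifs with h
  · have : 0 < G.degree x := (G.degree_pos_iff_exists_adj x).2 ⟨y, h⟩
    have : (G.degree x : ℝ) ≠ 0 := by exact_mod_cast this.ne'
    field_simp
  · simp

lemma stat_rev (x y : V) : stat G x * trans G x y = stat G y * trans G y x := by
  rw [stat_trans, stat_trans]
  simp only [G.adj_comm x y]

lemma edge_pos {x y : V} (h : G.Adj x y) : 0 < (G.edgeFinset.card : ℝ) := by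
  have : G.edgeFinset.Nonempty := ⟨s(x, y), by simpa using h⟩
  exact_mod_cast this.card_pos

lemma stat_sum {x y : V} (h : G.Adj x y) : ∑ z, stat G z = 1 := by
  unfold stat
  rw [← Finset.sum_div]
  have h1 : (∑ z, (G.degree z : ℝ)) = 2 * (G.edgeFinset.card : ℝ) := by
    exact_mod_cast G.sum_degrees_eq_twice_card_edges
  rw [h1]
  have := edge_pos G h
  field_simp

lemma degree_pos [Nontrivial V] (hG : G.Connected) (x : V) : 0 < G.degree x := by
  rw [G.degree_pos_iff_exists_adj]
  obtain ⟨y, hy⟩ := exists_ne x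
  obtain ⟨p⟩ := hG x y
  cases p with
  | nil => exact absurd rfl hy
  | cons h _ => exact ⟨_, h⟩

end Graph

end Pool.Agent.H155Z.Sp
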