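import Mathlib

/-!
Definitions for the comparison of the spectral-profile time and the maximal hitting time
of continuous-time simple random walk on a finite graph.
-/

open MeasureTheory ProbabilityTheory
open scoped ENNReal

namespace Pool.Agent.H155Z.Sp

variable {V : Type} [Fintype V] [DecidableEq V] (G : SimpleGraph V) [DecidableRel G.Adj]

/-- Transition matrix of simple random walk: `P(x,y) = 1/deg x` on edges, `0` otherwise. -/
noncomputable def trans (x y : V) : ℝ := if G.Adj x y then 1 / (G.degree x : ℝ) else 0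

/-- Stationary law `π(x) = deg x / (2|E|)`. -/
noncomputable def stat (x : V) : ℝ := (G.degree x : ℝ) / (2 * (G.edgeFinset.card : ℝ))

/-- Dirichlet form `𝓔(h,h) = (1/2) ∑ π(x) P(x,y) (h x - h y)^2`. -/
noncomputable def dirichlet (h : V → ℝ) : ℝ :=
  (1 / 2) * ∑ x, ∑ y, stat G x * trans G x y * (h x - h y) ^ 2

/-- Variance of `h` under `π`. -/
noncomputable def variance (h : V → ℝ) : ℝ :=
  ∑ x, stat G x * (h x - ∑ y, stat G y * h y) ^ 2

/-- `π(supp h)`. -/
noncomputable def suppMass (h : V → ℝ) : ℝ :=
  ∑ x, if h x = 0 then 0 else stat G x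

/-- Spectral profile `Λ(ε)`; it is `∞` when no admissible `h` exists. -/
noncomputable def profile (ε : ℝ) : ℝ≥0∞ :=
  ⨅ (h : V → ℝ) (_ : variance G h = 1) (_ : suppMass G h ≤ ε), ENNReal.ofReal (dirichlet G h)

/-- `π_* = min π`. -/
noncomputable def statMin : ℝ := ⨅ x, stat G x

/-- Spectral-profile time: the integral of `2 / (δ Λ(δ))` over `δ` from `4 π_*` to `16`. -/
noncomputable def tSp : ℝ≥0∞ :=
  ∫⁻ δ in Set.Ioc (4 * statMin G) 16, 2 / (ENNReal.ofReal δ * profile G δ)

/-- Jump chain started at `x`: the `n`-th coordinate of `ω` holds a map `V → V`, which moves the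
walker at its `(n+1)`-th jump, and a real number, the holding time before that jump. -/
def jumpChain (x : V) (ω : ℕ → (V → V) × ℝ) : ℕ → V
  | 0 => x
  | n + 1 => (ω n).1 (jumpChain x ω n)

/-- Time of the `n`-th jump: the sum of the first `n` holding times. -/
def jumpTime (ω : ℕ → (V → V) × ℝ) (n : ℕ) : ℝ := ∑ i ∈ Finset.range n, (ω i).2

/-- Position at time `t` of the continuous-time walk started at `x`: the jump chain after the
jumps made up to time `t`. -/
noncomputable def position (x : V) (ω : ℕ → (V → V) × ℝ) (t : ℝ) : V :=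
  jumpChain x ω (sSup {n : ℕ | jumpTime ω n ≤ t})

/-- First time `t ≥ 0` at which the walk started at `x` is at `y` (`∞` if there is none). -/
noncomputable def hitTime (x y : V) (ω : ℕ → (V → V) × ℝ) : ℝ≥0∞ :=
  ⨅ (t : ℝ) (_ : 0 ≤ t) (_ : position x ω t = y), ENNReal.ofReal t

variable [MeasurableSpace V]

/-- Law of one jump from `v`: the row `P(v, ·)`. -/
noncomputable def stepLaw (v : V) : Measure V :=
  ∑ y, ENNReal.ofReal (trans G v y) • Measure.dirac y

/-- Law of `ω`: the coordinates are i.i.d.; in each, the values of the map at the vertices `v`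
are independent with laws `P(v, ·)`, and the holding time is an independent exponential variable
of rate `1`. -/
noncomputable def walkLaw : Measure (ℕ → (V → V) × ℝ) :=
  Measure.infinitePi fun _ : ℕ => (Measure.pi (stepLaw G)).prod (expMeasure 1)

/-- Maximal expected hitting time `max_{x,y} E_x[T_y]`. -/
noncomputable def tHit : ℝ≥0∞ :=
  ⨆ (x : V) (y : V), ∫⁻ ω, hitTime x y ω ∂walkLaw G

end Pool.Agent.H155Z.Sp
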