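import Pool.Agent.H155Z.SpProb

set_option linter.unusedSectionVars false

open Finset MeasureTheory ProbabilityTheory
open scoped ENNReal

namespace Pool.Agent.H155Z.Sp

variable {V : Type} [Fintype V] [DecidableEq V] (G : SimpleGraph V) [DecidableRel G.Adj]
  [MeasurableSpace V] [MeasurableSingletonClass V]

lemma summable_surv (hG : G.Connected) (hdeg : ∀ v, 0 < G.degree v) (y x : V) :
    Summable fun n => surv G y n x := by
  obtain ⟨f, hfy, hf⟩ := poisson (stat G) (trans G) (stat_nonneg G) (trans_nonneg G)
    (fun x => trans_row G (hdeg x)) (stat_rev G) G hG.preconnected (by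
      intro a b hab
      rw [stat_trans, if_pos hab]
      have := edge_pos G hab
      positivity) y
  have : Nonempty V := ⟨x⟩
  obtain ⟨x0, hx0⟩ := Finite.exists_min f
  have key : ∀ N x, ∑ n ∈ Finset.range N, surv G y n x ≤ f x - f x0 := by
    intro N
    induction N with
    | zero => intro x; simpa using hx0 x
    | succ N ih =>
      intro x
      by_cases hx : x = y
      · subst hx
        simp only [surv_self, Finset.sum_const_zero]
        linarith [hx0 x]
      · rw [Finset.sum_range_succ', surv_zero G y x hx]
        simp_rw [surv_succ G y _ x hx]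
        rw [Finset.sum_comm]
        simp_rw [← Finset.mul_sum]
        have h1 : ∑ z, trans G x z * ∑ n ∈ Finset.range N, surv G y n z ≤
            ∑ z, trans G x z * (f z - f x0) :=
          Finset.sum_le_sum fun z _ => mul_le_mul_of_nonneg_left (ih z) (trans_nonneg G x z)
        have h2 : ∑ z, trans G x z * (f z - f x0) = ∑ z, trans G x z * f z - f x0 := by
          simp_rw [mul_sub, Finset.sum_sub_distrib, ← Finset.sum_mul, trans_row G (hdeg x),
            one_mul]
        have := hf x hx
        linarith
  exact summable_of_sum_range_le (fun n => surv_nonneg G y n x) (fun N => key N x)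

lemma main_nontrivial [Nontrivial V] (hG : G.Connected) :
    tHit G < ∞ ∧ tSp G ≤ 128 * tHit G := by
  have hdeg := degree_pos G hG
  set u : V → V → ℝ := fun y x => ∑' n, surv G y n x with hu
  have hE : ∀ x y, ∫⁻ ω, hitTime x y ω ∂walkLaw G = ENNReal.ofReal (u y x) := fun x y =>
    lintegral_hitTime G hdeg x y (summable_surv G hG hdeg y x)
  have hu0 : ∀ y x, 0 ≤ u y x := fun y x => tsum_nonneg fun n => surv_nonneg G y n x
  have hfin : tHit G < ∞ := by
    unfold tHit
    simp_rw [hE]
    rw [iSup_lt_iff]
    obtain ⟨p, hp⟩ := Finite.exists_max (fun p : V × V => u p.2 p.1)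
    refine ⟨ENNReal.ofReal (u p.2 p.1), ENNReal.ofReal_lt_top, fun x => iSup_le fun y => ?_⟩
    exact ENNReal.ofReal_le_ofReal (hp (x, y))
  refine ⟨hfin, ?_⟩
  set T := (tHit G).toReal with hT
  have hTe : tHit G = ENNReal.ofReal T := (ENNReal.ofReal_toReal hfin.ne).symm
  have hT0 : 0 ≤ T := ENNReal.toReal_nonneg
  have huT : ∀ y x, u y x ≤ T := by
    intro y x
    rw [← ENNReal.ofReal_le_ofReal_iff hT0, ← hTe, ← hE]
    unfold tHit
    exact le_iSup₂_of_le x y le_rfl
  have hueq : ∀ y x, x ≠ y → u y x - ∑ z, trans G x z * u y z = 1 := by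
    intro y x hx
    have h1 : u y x = surv G y 0 x + ∑' n, surv G y (n + 1) x :=
      (summable_surv G hG hdeg y x).tsum_eq_zero_add
    rw [h1, surv_zero G y x hx]
    simp_rw [surv_succ G y _ x hx]
    rw [Summable.tsum_finsetSum
      (fun z _ => (summable_surv G hG hdeg y z).mul_left (trans G x z))]
    simp_rw [tsum_mul_left]
    simp [hu]
  obtain ⟨a⟩ : Nonempty V := inferInstance
  obtain ⟨b, hab⟩ := (G.degree_pos_iff_exists_adj a).1 (hdeg a)
  have hprof : ∀ δ : ℝ, 0 < δ → 2 / (ENNReal.ofReal δ * profile G δ) ≤ ENNReal.ofReal (8 * T) := by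
    intro δ hδ
    by_cases hT1 : T = 0
    · -- then no admissible function exists
      have : profile G δ = ∞ := by
        unfold profile
        refine iInf_eq_top.2 fun h => iInf_eq_top.2 fun hv => iInf_eq_top.2 fun hs => ?_
        have := faber_krahn (stat G) (trans G) (stat_nonneg G) (stat_sum G hab) (trans_nonneg G)
          (fun x => trans_row G (hdeg x)) (stat_rev G) u T hu0 huT hueq h δ hs hv
        rw [hT1] at this
        norm_num at this
      rw [this, ENNReal.mul_top (by simpa using hδ)]
      simp
    · have hTpos : 0 < T := lt_of_le_of_ne hT0 (Ne.symm hT1)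
      have h1 : ENNReal.ofReal (1 / (4 * δ * T)) ≤ profile G δ := by
        unfold profile
        refine le_iInf fun h => le_iInf fun hv => le_iInf fun hs => ?_
        have := faber_krahn (stat G) (trans G) (stat_nonneg G) (stat_sum G hab) (trans_nonneg G)
          (fun x => trans_row G (hdeg x)) (stat_rev G) u T hu0 huT hueq h δ hs hv
        refine ENNReal.ofReal_le_ofReal ?_
        rw [div_le_iff₀ (by positivity)]
        unfold dirichlet
        linarith
      have h2 : ENNReal.ofReal (1 / (4 * T)) ≤ ENNReal.ofReal δ * profile G δ := by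
        refine le_trans (le_of_eq ?_) (mul_le_mul_right h1 _)
        rw [← ENNReal.ofReal_mul hδ.le]
        congr 1
        field_simp
      refine (ENNReal.div_le_div_left h2 2).trans (le_of_eq ?_)
      rw [show (2 : ℝ≥0∞) = ENNReal.ofReal 2 by simp,
        ← ENNReal.ofReal_div_of_pos (by positivity)]
      congr 1
      field_simp
      norm_num
  have hmin : 0 ≤ statMin G := Real.iInf_nonneg fun x => stat_nonneg G x
  unfold tSp
  calc ∫⁻ δ in Set.Ioc (4 * statMin G) 16, 2 / (ENNReal.ofReal δ * profile G δ)
      ≤ ∫⁻ _ in Set.Ioc (4 * statMin G) 16, ENNReal.ofReal (8 * T) := by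
        refine setLIntegral_mono measurable_const fun δ hδ => hprof δ ?_
        have := hδ.1
        linarith
    _ = ENNReal.ofReal (8 * T) * ENNReal.ofReal (16 - 4 * statMin G) := by
        rw [setLIntegral_const, Real.volume_Ioc]
    _ ≤ ENNReal.ofReal (8 * T) * ENNReal.ofReal 16 := by
        gcongr; linarith
    _ = 128 * tHit G := by
        rw [hTe, ← ENNReal.ofReal_mul (by positivity),
          show (128 : ℝ≥0∞) = ENNReal.ofReal 128 by simp, ← ENNReal.ofReal_mul (by norm_num)]
        congr 1; ring

lemma main_subsingleton [Subsingleton V] : tHit G < ∞ ∧ tSp G ≤ 128 * tHit G := by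
  have h0 : ∀ (x y : V) (ω : ℕ → (V → V) × ℝ), hitTime x y ω = 0 := by
    intro x y ω
    refine le_antisymm ?_ (by simp)
    unfold hitTime
    exact iInf_le_of_le 0 (iInf_le_of_le le_rfl (iInf_le_of_le (Subsingleton.elim _ _) (by simp)))
  have hs : ∀ x, stat G x = 0 := by
    intro x
    unfold stat
    have : G.degree x = 0 := by
      by_contra h
      obtain ⟨y, hy⟩ := (G.degree_pos_iff_exists_adj x).1 (Nat.pos_of_ne_zero h)
      exact hy.ne (Subsingleton.elim _ _)
    rw [this]; simp
  have hprof : ∀ δ, profile G δ = ∞ := by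
    intro δ
    unfold profile
    refine iInf_eq_top.2 fun h => iInf_eq_top.2 fun hv => ?_
    simp [variance, hs] at hv
  have hmin : 0 ≤ statMin G := Real.iInf_nonneg fun x => stat_nonneg G x
  constructor
  · simp [tHit, h0]
  · have : tSp G = 0 := by
      unfold tSp
      refine le_antisymm ?_ (by simp)
      calc ∫⁻ δ in Set.Ioc (4 * statMin G) 16, 2 / (ENNReal.ofReal δ * profile G δ)
          ≤ ∫⁻ _ in Set.Ioc (4 * statMin G) 16, 0 := by
            refine setLIntegral_mono measurable_const fun δ hδ => ?_
            have : 0 < δ := by have := hδ.1; linarith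
            rw [hprof, ENNReal.mul_top (by simpa using this)]
            simp
        _ = 0 := by simp
    simp [this]

theorem main (hG : G.Connected) : tHit G < ∞ ∧ tSp G ≤ 128 * tHit G := by
  rcases subsingleton_or_nontrivial V with h | h
  · exact main_subsingleton G
  · exact main_nontrivial G hG

end Pool.Agent.H155Z.Sp
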