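import Pool.Agent.H155Z.SpAnalytic

set_option linter.unusedSectionVars false

open Finset MeasureTheory ProbabilityTheory
open scoped ENNReal

namespace Pool.Agent.H155Z.Sp

section Indep

variable {E : Type} [MeasurableSpace E] (ν : Measure E) [IsProbabilityMeasure ν]

/-- A function of the first `n` coordinates is independent of coordinate `n`. -/
lemma lintegral_past_mul (e : E) (n : ℕ) (F : (ℕ → E) → ℝ≥0∞) (hF : Measurable F)
    (hdep : ∀ ω ω' : ℕ → E, (∀ i < n, ω i = ω' i) → F ω = F ω') (g : E → ℝ≥0∞)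
    (hg : Measurable g) :
    ∫⁻ ω, F ω * g (ω n) ∂(Measure.infinitePi fun _ : ℕ => ν) =
      (∫⁻ ω, F ω ∂(Measure.infinitePi fun _ : ℕ => ν)) * ∫⁻ x, g x ∂ν := by
  have hind : iIndepFun (fun (i : ℕ) (ω : ℕ → E) => ω i) (Measure.infinitePi fun _ : ℕ => ν) :=
    iIndepFun_infinitePi (X := fun _ x => x) (by fun_prop)
  have h2 := hind.indepFun_finset (Finset.range n) {n} (by simp) (by fun_prop)
  let ext : ((i : (Finset.range n : Finset ℕ)) → E) → (ℕ → E) :=
    fun a i => if h : i ∈ Finset.range n then a ⟨i, h⟩ else e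
  have hext : Measurable ext := by
    refine measurable_pi_lambda _ fun i => ?_
    by_cases h : i ∈ Finset.range n
    · simp only [ext, h, dif_pos]; fun_prop
    · simp only [ext, h, dif_neg, not_false_eq_true]; fun_prop
  have h3 := h2.comp (φ := fun a => F (ext a))
    (ψ := fun b : (i : ({n} : Finset ℕ)) → E => g (b ⟨n, by simp⟩)) (hF.comp hext)
    (hg.comp (by fun_prop))
  have e1 : ((fun a => F (ext a)) ∘ fun (a : ℕ → E) (i : (Finset.range n : Finset ℕ)) => a i) =
      F := by
    funext ω
    refine hdep _ _ fun i hi => ?_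
    simp [ext, hi]
  rw [e1] at h3
  have h4 := lintegral_mul_eq_lintegral_mul_lintegral_of_indepFun'' hF.aemeasurable
    ((hg.comp (measurable_pi_apply n)).aemeasurable) h3
  have h5 : ∫⁻ ω, g (ω n) ∂(Measure.infinitePi fun _ : ℕ => ν) = ∫⁻ x, g x ∂ν :=
    (measurePreserving_eval_infinitePi (fun _ : ℕ => ν) n).lintegral_comp hg
  rw [← h5]
  exact h4

end Indep

lemma exp_mean : ∫⁻ x, ENNReal.ofReal x ∂(expMeasure 1) = 1 := by
  have h1 : expMeasure 1 = volume.withDensity (gammaPDF 1 1) := rfl
  rw [h1, lintegral_withDensity_eq_lintegral_mul _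
    (by unfold gammaPDF; exact (measurable_gammaPDFReal 1 1).ennreal_ofReal)
    ENNReal.measurable_ofReal]
  rw [← lintegral_gammaPDF_eq_one (a := 2) (r := 1) two_pos one_pos]
  refine lintegral_congr fun x => ?_
  by_cases hx : 0 ≤ x
  · simp only [Pi.mul_apply, gammaPDF_of_nonneg hx]
    rw [← ENNReal.ofReal_mul (by positivity)]
    congr 1
    norm_num [Real.Gamma_two]
    ring
  · push Not at hx
    simp [gammaPDF_of_neg hx]

lemma exp_pos_ae : ∀ᵐ x ∂(expMeasure 1), 0 < x := by
  have h1 : expMeasure 1 = volume.withDensity (gammaPDF 1 1) := rfl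
  rw [h1, ae_withDensity_iff (by unfold gammaPDF; exact (measurable_gammaPDFReal 1 1).ennreal_ofReal)]
  have : ∀ᵐ x : ℝ ∂volume, x ≠ 0 := by
    rw [ae_iff]; simp
  filter_upwards [this] with x hx hne
  rcases lt_trichotomy x 0 with h | h | h
  · exact absurd (gammaPDF_of_neg h) hne
  · exact absurd h hx
  · exact h

variable {V : Type} [Fintype V] [DecidableEq V] (G : SimpleGraph V) [DecidableRel G.Adj]
  [MeasurableSpace V] [MeasurableSingletonClass V]

lemma stepLaw_singleton (v w : V) : stepLaw G v {w} = ENNReal.ofReal (trans G v w) := by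
  unfold stepLaw
  simp only [Measure.coe_finsetSum, Finset.sum_apply, Measure.smul_apply, smul_eq_mul,
    Measure.dirac_apply' _ (measurableSet_singleton w)]
  rw [Finset.sum_eq_single w]
  · simp
  · intro b _ hb; simp [hb]
  · simp

lemma stepLaw_prob {v : V} (hv : 0 < G.degree v) : IsProbabilityMeasure (stepLaw G v) := by
  constructor
  unfold stepLaw
  simp only [Measure.coe_finsetSum, Finset.sum_apply, Measure.smul_apply, smul_eq_mul,
    measure_univ, mul_one]
  rw [← ENNReal.ofReal_sum_of_nonneg (fun y _ => trans_nonneg G v y), trans_row G hv]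
  simp

lemma jumpChain_dep (x : V) (n : ℕ) (ω ω' : ℕ → (V → V) × ℝ) (h : ∀ i < n, ω i = ω' i) :
    ∀ k ≤ n, jumpChain x ω k = jumpChain x ω' k := by
  intro k
  induction k with
  | zero => intro _; rfl
  | succ k ih =>
    intro hk
    simp only [jumpChain]
    rw [h k (by omega), ih (by omega)]

lemma measurable_jumpChain (x : V) (n : ℕ) :
    Measurable fun ω : ℕ → (V → V) × ℝ => jumpChain x ω n := by
  induction n with
  | zero => exact measurable_const
  | succ n ih =>
    simp only [jumpChain]
    have h1 : Measurable fun p : (V → V) × V => p.1 p.2 := measurable_of_countable _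
    exact h1.comp (((measurable_pi_apply n).fst).prodMk ih)

/-- Indicator that the jump chain avoids `y` up to step `n` and is at `z` at step `n`. -/
noncomputable def avoidAt (x y : V) (n : ℕ) (z : V) (ω : ℕ → (V → V) × ℝ) : ℝ≥0∞ :=
  if (∀ k ≤ n, jumpChain x ω k ≠ y) ∧ jumpChain x ω n = z then 1 else 0

/-- Indicator that the jump chain avoids `y` up to step `n`. -/
noncomputable def avoid (x y : V) (n : ℕ) (ω : ℕ → (V → V) × ℝ) : ℝ≥0∞ :=
  if ∀ k ≤ n, jumpChain x ω k ≠ y then 1 else 0

lemma measurableSet_avoid (x y : V) (n : ℕ) :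
    MeasurableSet {ω : ℕ → (V → V) × ℝ | ∀ k ≤ n, jumpChain x ω k ≠ y} := by
  have : {ω : ℕ → (V → V) × ℝ | ∀ k ≤ n, jumpChain x ω k ≠ y} =
      ⋂ k : ℕ, ⋂ (_ : k ≤ n), ((fun ω => jumpChain x ω k) ⁻¹' {y})ᶜ := by
    ext ω; simp
  rw [this]
  exact MeasurableSet.iInter fun k => MeasurableSet.iInter fun _ =>
    (measurable_jumpChain x k (measurableSet_singleton y)).compl

lemma measurable_avoidAt (x y : V) (n : ℕ) (z : V) : Measurable (avoidAt x y n z) := by
  unfold avoidAt
  refine Measurable.ite ?_ measurable_const measurable_const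
  exact (measurableSet_avoid x y n).inter (measurable_jumpChain x n (measurableSet_singleton z))

lemma measurable_avoid (x y : V) (n : ℕ) : Measurable (avoid x y n) := by
  unfold avoid
  exact Measurable.ite (measurableSet_avoid x y n) measurable_const measurable_const

lemma avoid_eq_sum (x y : V) (n : ℕ) (ω : ℕ → (V → V) × ℝ) :
    avoid x y n ω = ∑ z, avoidAt x y n z ω := by
  unfold avoid avoidAt
  rw [Finset.sum_eq_single (jumpChain x ω n)]
  · simp
  · intro b _ hb
    rw [if_neg]
    exact fun h => hb h.2.symm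
  · simp

lemma avoidAt_succ (x y : V) (n : ℕ) (w : V) (ω : ℕ → (V → V) × ℝ) :
    avoidAt x y (n + 1) w ω = ∑ z, avoidAt x y n z ω *
      (if w ≠ y ∧ (ω n).1 z = w then 1 else 0) := by
  unfold avoidAt
  rw [Finset.sum_eq_single (jumpChain x ω n)]
  · have : ((∀ k ≤ n + 1, jumpChain x ω k ≠ y) ∧ jumpChain x ω (n + 1) = w) ↔
        (((∀ k ≤ n, jumpChain x ω k ≠ y) ∧ jumpChain x ω n = jumpChain x ω n) ∧
          (w ≠ y ∧ (ω n).1 (jumpChain x ω n) = w)) := by
      constructor
      · rintro ⟨h1, h2⟩
        refine ⟨⟨fun k hk => h1 k (by omega), rfl⟩, ?_, h2⟩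
        rw [← h2]; exact h1 (n + 1) le_rfl
      · rintro ⟨⟨h1, _⟩, h2, h3⟩
        refine ⟨fun k hk => ?_, h3⟩
        rcases Nat.lt_or_ge k (n + 1) with h | h
        · exact h1 k (by omega)
        · have : k = n + 1 := by omega
          subst this
          change (ω n).1 (jumpChain x ω n) ≠ y
          rw [h3]; exact h2
    rw [ite_zero_mul_ite_zero, mul_one]
    exact if_congr this rfl rfl
  · intro b _ hb
    rw [if_neg, zero_mul]
    exact fun h => hb h.2.symm
  · simp

/-- The killed transition matrix. -/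
noncomputable def killed (y : V) : Matrix V V ℝ := fun z w => if w ≠ y then trans G z w else 0

lemma killed_nonneg (y z w : V) : 0 ≤ killed G y z w := by
  unfold killed; split_ifs
  · exact trans_nonneg G z w
  · exact le_rfl

lemma killed_pow_nonneg (y : V) (n : ℕ) : ∀ z w, 0 ≤ (killed G y ^ n) z w := by
  induction n with
  | zero => intro z w; rw [pow_zero, Matrix.one_apply]; split_ifs <;> norm_num
  | succ n ih =>
    intro z w
    rw [pow_succ, Matrix.mul_apply]
    exact Finset.sum_nonneg fun a _ => mul_nonneg (ih z a) (killed_nonneg G y a w)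

section Deg

variable (hdeg : ∀ v, 0 < G.degree v)
include hdeg

lemma lintegral_step (y z w : V) :
    ∫⁻ e : (V → V) × ℝ, (if w ≠ y ∧ e.1 z = w then 1 else 0 : ℝ≥0∞)
      ∂((Measure.pi (stepLaw G)).prod (expMeasure 1)) = ENNReal.ofReal (killed G y z w) := by
  have := fun v => stepLaw_prob G (hdeg v)
  have := isProbabilityMeasure_expMeasure one_pos
  unfold killed
  by_cases hw : w ≠ y
  · rw [if_pos hw]
    have hm : MeasurePreserving (fun e : (V → V) × ℝ => e.1 z)
        ((Measure.pi (stepLaw G)).prod (expMeasure 1)) (stepLaw G z) :=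
      (measurePreserving_eval (stepLaw G) z).comp measurePreserving_fst
    have h2 := hm.lintegral_comp (f := Set.indicator {w} 1)
      (measurable_one.indicator (measurableSet_singleton w))
    rw [lintegral_indicator_one (measurableSet_singleton w), stepLaw_singleton] at h2
    rw [← h2]
    refine lintegral_congr fun e => ?_
    by_cases he : e.1 z = w <;> simp [he, hw]
  · simp [hw]

lemma lintegral_avoidAt (x y : V) (n : ℕ) : ∀ z, ∫⁻ ω, avoidAt x y n z ω ∂walkLaw G =
    ENNReal.ofReal (if x ≠ y then (killed G y ^ n) x z else 0) := by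
  have := fun v => stepLaw_prob G (hdeg v)
  have := isProbabilityMeasure_expMeasure one_pos
  induction n with
  | zero =>
    intro z
    unfold walkLaw
    have : ∀ ω, avoidAt x y 0 z ω = if x ≠ y ∧ x = z then 1 else 0 := by
      intro ω; unfold avoidAt
      refine if_congr ?_ rfl rfl
      simp [jumpChain]
    simp_rw [this]
    rw [lintegral_const, measure_univ, mul_one, pow_zero, Matrix.one_apply]
    by_cases h1 : x ≠ y <;> by_cases h2 : x = z <;> simp [h1, h2]
    all_goals simp_all
  | succ n ih =>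
    intro w
    simp_rw [avoidAt_succ]
    have hmeas : ∀ z, Measurable fun e : (V → V) × ℝ =>
        (if w ≠ y ∧ e.1 z = w then 1 else 0 : ℝ≥0∞) := by
      intro z
      have h1 : Measurable fun f : V → V => (if w ≠ y ∧ f z = w then 1 else 0 : ℝ≥0∞) :=
        measurable_of_countable _
      exact h1.comp measurable_fst
    have hmeas2 : ∀ z, Measurable fun ω : ℕ → (V → V) × ℝ =>
        avoidAt x y n z ω * (if w ≠ y ∧ (ω n).1 z = w then 1 else 0 : ℝ≥0∞) := fun z =>
      (measurable_avoidAt x y n z).mul ((hmeas z).comp (measurable_pi_apply n))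
    rw [lintegral_finsetSum _ (fun z _ => hmeas2 z)]
    have key : ∀ z, ∫⁻ ω, avoidAt x y n z ω * (if w ≠ y ∧ (ω n).1 z = w then 1 else 0)
        ∂walkLaw G = ENNReal.ofReal ((if x ≠ y then (killed G y ^ n) x z else 0) *
          killed G y z w) := by
      intro z
      have h := lintegral_past_mul ((Measure.pi (stepLaw G)).prod (expMeasure 1)) (id, 0) n
        (avoidAt x y n z) (measurable_avoidAt x y n z) (by
          intro ω ω' hω
          unfold avoidAt
          refine if_congr ?_ rfl rfl
          have hd := jumpChain_dep x n ω ω' hω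
          rw [hd n le_rfl]
          refine and_congr_left fun _ => forall₂_congr fun k hk => ?_
          rw [hd k hk]) _ (hmeas z)
      rw [lintegral_step G hdeg] at h
      have ih' := ih z
      unfold walkLaw at ih' ⊢
      rw [h, ih', ← ENNReal.ofReal_mul]
      split_ifs
      · exact killed_pow_nonneg G y n x z
      · exact le_rfl
    simp_rw [key]
    rw [← ENNReal.ofReal_sum_of_nonneg]
    · congr 1
      split_ifs
      · rw [pow_succ, Matrix.mul_apply]
      · simp
    · intro z _
      refine mul_nonneg ?_ (killed_nonneg G y z w)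
      split_ifs
      · exact killed_pow_nonneg G y n x z
      · exact le_rfl

end Deg

/-- Survival probabilities. -/
noncomputable def surv (y : V) (n : ℕ) (x : V) : ℝ :=
  ∑ z, if x ≠ y then (killed G y ^ n) x z else 0

lemma surv_nonneg (y : V) (n : ℕ) (x : V) : 0 ≤ surv G y n x := by
  refine Finset.sum_nonneg fun z _ => ?_
  split_ifs
  · exact killed_pow_nonneg G y n x z
  · exact le_rfl

lemma surv_self (y : V) (n : ℕ) : surv G y n y = 0 := by simp [surv]

lemma surv_zero (y x : V) (hx : x ≠ y) : surv G y 0 x = 1 := by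
  simp [surv, hx, Matrix.one_apply]

lemma surv_succ (y : V) (n : ℕ) (x : V) (hx : x ≠ y) :
    surv G y (n + 1) x = ∑ z, trans G x z * surv G y n z := by
  unfold surv
  simp only [hx, ne_eq, not_false_eq_true, if_true, pow_succ', Matrix.mul_apply]
  rw [Finset.sum_comm]
  refine Finset.sum_congr rfl fun z _ => ?_
  rw [Finset.mul_sum]
  refine Finset.sum_congr rfl fun w _ => ?_
  unfold killed
  by_cases hz : z = y <;> simp [hz]

lemma lintegral_avoid (hdeg : ∀ v, 0 < G.degree v) (x y : V) (n : ℕ) :
    ∫⁻ ω, avoid x y n ω ∂walkLaw G = ENNReal.ofReal (surv G y n x) := by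
  simp_rw [avoid_eq_sum]
  rw [lintegral_finsetSum _ (fun z _ => measurable_avoidAt x y n z)]
  simp_rw [lintegral_avoidAt G hdeg]
  rw [← ENNReal.ofReal_sum_of_nonneg]
  · rfl
  · intro z _
    split_ifs
    · exact killed_pow_nonneg G y n x z
    · exact le_rfl

lemma lintegral_avoid_mul (hdeg : ∀ v, 0 < G.degree v) (x y : V) (n : ℕ) :
    ∫⁻ ω, avoid x y n ω * ENNReal.ofReal (ω n).2 ∂walkLaw G = ENNReal.ofReal (surv G y n x) := by
  have := fun v => stepLaw_prob G (hdeg v)
  have := isProbabilityMeasure_expMeasure one_pos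
  have h := lintegral_past_mul ((Measure.pi (stepLaw G)).prod (expMeasure 1)) (id, 0) n
    (avoid x y n) (measurable_avoid x y n) (by
      intro ω ω' hω
      unfold avoid
      refine if_congr ?_ rfl rfl
      have hd := jumpChain_dep x n ω ω' hω
      refine forall₂_congr fun k hk => ?_
      rw [hd k hk]) (fun e => ENNReal.ofReal e.2) (ENNReal.measurable_ofReal.comp measurable_snd)
  have h2 : ∫⁻ e : (V → V) × ℝ, ENNReal.ofReal e.2
      ∂((Measure.pi (stepLaw G)).prod (expMeasure 1)) = 1 := by
    rw [← exp_mean]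
    exact (measurePreserving_snd).lintegral_comp ENNReal.measurable_ofReal
  have h3 := lintegral_avoid G hdeg x y n
  unfold walkLaw at h3 ⊢
  rw [h, h2, h3, mul_one]

/-- The total holding time before the jump chain reaches `y`. -/
noncomputable def preTime (x y : V) (ω : ℕ → (V → V) × ℝ) : ℝ≥0∞ :=
  ∑' n, avoid x y n ω * ENNReal.ofReal (ω n).2

lemma lintegral_preTime (hdeg : ∀ v, 0 < G.degree v) (x y : V) :
    ∫⁻ ω, preTime x y ω ∂walkLaw G = ∑' n, ENNReal.ofReal (surv G y n x) := by
  unfold preTime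
  rw [lintegral_tsum]
  · simp_rw [lintegral_avoid_mul G hdeg]
  · intro n
    exact ((measurable_avoid x y n).mul
      (ENNReal.measurable_ofReal.comp (measurable_pi_apply n).snd)).aemeasurable

lemma preTime_le_of_hit (x y : V) (ω : ℕ → (V → V) × ℝ) (hω : ∀ n, 0 ≤ (ω n).2) (m : ℕ)
    (hm : jumpChain x ω m = y) : preTime x y ω ≤ ENNReal.ofReal (jumpTime ω m) := by
  unfold preTime jumpTime
  rw [tsum_eq_sum (s := Finset.range m), ENNReal.ofReal_sum_of_nonneg (fun i _ => hω i)]
  · refine Finset.sum_le_sum fun i _ => ?_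
    unfold avoid
    split_ifs <;> simp
  · intro b hb
    unfold avoid
    rw [if_neg, zero_mul]
    intro h
    exact h m (by simpa using hb) hm

lemma preTime_le_hitTime (x y : V) (ω : ℕ → (V → V) × ℝ) (hω : ∀ n, 0 ≤ (ω n).2) :
    preTime x y ω ≤ hitTime x y ω := by
  unfold hitTime
  refine le_iInf fun t => le_iInf fun ht => le_iInf fun hp => ?_
  unfold position at hp
  refine (preTime_le_of_hit x y ω hω _ hp).trans (ENNReal.ofReal_le_ofReal ?_)
  by_cases hb : BddAbove {n : ℕ | jumpTime ω n ≤ t}
  · have hne : ({n : ℕ | jumpTime ω n ≤ t} : Set ℕ).Nonempty := ⟨0, by simpa [jumpTime] using ht⟩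
    exact Nat.sSup_mem hne hb
  · rw [Nat.sSup_of_not_bddAbove hb]
    simpa [jumpTime] using ht

lemma hitTime_le_preTime (x y : V) (ω : ℕ → (V → V) × ℝ) (hω : ∀ n, 0 < (ω n).2)
    (hex : ∃ m, jumpChain x ω m = y) : hitTime x y ω ≤ preTime x y ω := by
  classical
  set τ := Nat.find hex with hτ
  have hmono : StrictMono (jumpTime ω) := by
    refine strictMono_nat_of_lt_succ fun n => ?_
    unfold jumpTime
    rw [Finset.sum_range_succ]
    linarith [hω n]
  have hJ : 0 ≤ jumpTime ω τ := Finset.sum_nonneg fun i _ => (hω i).le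
  have hset : {n : ℕ | jumpTime ω n ≤ jumpTime ω τ} = Set.Iic τ := by
    ext n; simp [hmono.le_iff_le]
  have hpos : position x ω (jumpTime ω τ) = y := by
    unfold position
    rw [hset, csSup_Iic]
    exact Nat.find_spec hex
  have h1 : hitTime x y ω ≤ ENNReal.ofReal (jumpTime ω τ) := by
    unfold hitTime
    exact iInf_le_of_le _ (iInf_le_of_le hJ (iInf_le_of_le hpos le_rfl))
  refine h1.trans ?_
  unfold preTime jumpTime
  rw [ENNReal.ofReal_sum_of_nonneg (fun i _ => (hω i).le)]
  refine le_trans (le_of_eq ?_) (ENNReal.sum_le_tsum (Finset.range τ))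
  refine Finset.sum_congr rfl fun i hi => ?_
  unfold avoid
  rw [if_pos, one_mul]
  intro k hk
  exact Nat.find_min hex (by have := Finset.mem_range.1 hi; omega)

lemma hold_pos_ae (hdeg : ∀ v, 0 < G.degree v) : ∀ᵐ ω ∂walkLaw G, ∀ n, 0 < (ω n).2 := by
  have := fun v => stepLaw_prob G (hdeg v)
  have := isProbabilityMeasure_expMeasure one_pos
  rw [ae_all_iff]
  intro n
  have hm : MeasurePreserving (fun ω : ℕ → (V → V) × ℝ => (ω n).2) (walkLaw G) (expMeasure 1) :=
    (measurePreserving_snd (μ := Measure.pi (stepLaw G)) (ν := expMeasure 1)).comp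
      (measurePreserving_eval_infinitePi
        (fun _ : ℕ => (Measure.pi (stepLaw G)).prod (expMeasure 1)) n)
  exact hm.quasiMeasurePreserving.ae exp_pos_ae

lemma lintegral_hitTime (hdeg : ∀ v, 0 < G.degree v) (x y : V)
    (hs : Summable fun n => surv G y n x) :
    ∫⁻ ω, hitTime x y ω ∂walkLaw G = ENNReal.ofReal (∑' n, surv G y n x) := by
  rw [ENNReal.ofReal_tsum_of_nonneg (fun n => surv_nonneg G y n x) hs,
    ← lintegral_preTime G hdeg]
  have hfin : ∀ᵐ ω ∂walkLaw G, ∑' n, avoid x y n ω < ∞ := by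
    refine ae_lt_top (Measurable.tsum fun n => measurable_avoid x y n) ?_
    rw [lintegral_tsum (fun n => (measurable_avoid x y n).aemeasurable)]
    simp_rw [lintegral_avoid G hdeg]
    rw [← ENNReal.ofReal_tsum_of_nonneg (fun n => surv_nonneg G y n x) hs]
    exact ENNReal.ofReal_ne_top
  refine lintegral_congr_ae ?_
  filter_upwards [hfin, hold_pos_ae G hdeg] with ω h1 h2
  refine le_antisymm (hitTime_le_preTime x y ω h2 ?_) (preTime_le_hitTime x y ω fun n => (h2 n).le)
  by_contra hne
  push Not at hne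
  have : ∀ n, avoid x y n ω = 1 := fun n => by
    unfold avoid; rw [if_pos]; exact fun k _ => hne k
  simp [this] at h1

end Pool.Agent.H155Z.Sp
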